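import Mathlib

open Finset

namespace Pool.Agent.H239R3

/-- Splitting a sum over the cube along the first coordinate. -/
lemma sum_cons {n : ℕ} (F : (Fin (n + 1) → Bool) → ℝ) :
    ∑ s, F s = ∑ s : Fin n → Bool, F (Fin.cons true s) +
      ∑ s : Fin n → Bool, F (Fin.cons false s) := by
  rw [← (Fin.consEquiv (fun _ => Bool)).sum_comp F, Fintype.sum_prod_type, Fintype.sum_bool]
  rfl

/-- The Efron-Stein inequality on the discrete cube. -/
theorem es (n : ℕ) : ∀ (a : (Fin n → Bool) → ℝ),
    (2:ℝ)^n * ∑ s, a s ^ 2 - (∑ s, a s) ^ 2 ≤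
      (2:ℝ)^n * (1/4) * ∑ i, ∑ s, (a s - a (Function.update s i (!s i)))^2 := by
  induction n with
  | zero =>
    intro a
    simp
  | succ n ih =>
    intro a
    have hT := ih (fun s => a (Fin.cons true s))
    have hF := ih (fun s => a (Fin.cons false s))
    rw [sum_cons (fun s => a s ^ 2), sum_cons a, Fin.sum_univ_succ]
    rw [sum_cons (fun s => (a s - a (Function.update s 0 (!s 0)))^2)]
    simp only [Fin.cons_zero, Fin.update_cons_zero, Bool.not_true, Bool.not_false]
    have h1 : ∀ i : Fin n, ∑ s : Fin (n+1) → Bool, (a s - a (Function.update s i.succ (!s i.succ)))^2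
        = ∑ s : Fin n → Bool, (a (Fin.cons true s) - a (Fin.cons true (Function.update s i (!s i))))^2
        + ∑ s : Fin n → Bool, (a (Fin.cons false s) - a (Fin.cons false (Function.update s i (!s i))))^2 := by
      intro i
      rw [sum_cons (fun s => (a s - a (Function.update s i.succ (!s i.succ)))^2)]
      simp only [Fin.cons_succ, Fin.cons_update]
    rw [Finset.sum_congr rfl (fun i _ => h1 i), Finset.sum_add_distrib]
    have h2 : (∑ s : Fin n → Bool, (a (Fin.cons true s) - a (Fin.cons false s))) ^ 2 ≤
        (2:ℝ)^n * ∑ s : Fin n → Bool, (a (Fin.cons true s) - a (Fin.cons false s)) ^ 2 := by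
      have := sq_sum_le_card_mul_sum_sq (s := (Finset.univ : Finset (Fin n → Bool)))
        (f := fun s => a (Fin.cons true s) - a (Fin.cons false s))
      simpa using this
    have h3 : ∑ s : Fin n → Bool, (a (Fin.cons false s) - a (Fin.cons true s)) ^ 2 =
        ∑ s : Fin n → Bool, (a (Fin.cons true s) - a (Fin.cons false s)) ^ 2 :=
      Finset.sum_congr rfl fun s _ => by ring
    rw [h3]
    rw [Finset.sum_sub_distrib] at h2
    rw [pow_succ]
    nlinarith [h2, hT, hF]

/-- One-sided form of the Efron-Stein inequality. -/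
theorem es' (n : ℕ) (a : (Fin n → Bool) → ℝ) :
    (2:ℝ)^n * ∑ s, a s ^ 2 - (∑ s, a s) ^ 2 ≤
      (2:ℝ)^n * (1/2) * ∑ s, ∑ i, (max (a s - a (Function.update s i (!s i))) 0)^2 := by
  refine (es n a).trans (le_of_eq ?_)
  have h1 : ∀ i : Fin n, ∑ s, (a s - a (Function.update s i (!s i)))^2 =
      2 * ∑ s, (max (a s - a (Function.update s i (!s i))) 0)^2 := by
    intro i
    have hinv : Function.Involutive (fun s : Fin n → Bool => Function.update s i (!s i)) := by
      intro s
      simp
    have h2 : ∑ s, (max (a (Function.update s i (!s i)) - a s) 0)^2 =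
        ∑ s, (max (a s - a (Function.update s i (!s i))) 0)^2 := by
      rw [← Equiv.sum_comp (hinv.toPerm _)
        (fun s => (max (a s - a (Function.update s i (!s i))) 0)^2)]
      refine Finset.sum_congr rfl fun s _ => ?_
      have := hinv s
      simp only [Function.Involutive.coe_toPerm]
      simp only at this
      rw [this]
    have h3 : ∀ s, (a s - a (Function.update s i (!s i)))^2 =
        (max (a s - a (Function.update s i (!s i))) 0)^2 +
        (max (a (Function.update s i (!s i)) - a s) 0)^2 := by
      intro s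
      rcases le_total (a s) (a (Function.update s i (!s i))) with h | h
      · rw [max_eq_right (by linarith), max_eq_left (by linarith)]; ring
      · rw [max_eq_left (by linarith), max_eq_right (by linarith)]; ring
    rw [Finset.sum_congr rfl (fun s _ => h3 s), Finset.sum_add_distrib, h2]
    ring
  rw [Finset.sum_congr rfl (fun i _ => h1 i), ← Finset.mul_sum]
  rw [Finset.sum_comm]
  ring

end Pool.Agent.H239R3
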