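import Mathlib

open Finset Filter Topology

namespace Pool.Agent.H239R3

variable {E : Type*} [NormedAddCommGroup E] [NormedSpace ℝ E]

/-- Local slope of `g` at `x`. -/
noncomputable def slope (g : E → ℝ) (x : E) : ENNReal :=
  Filter.limsup (fun y => ENNReal.ofReal (|g y - g x| / dist y x)) (nhdsWithin x {x}ᶜ)

/-- For a convex function, the local slope dominates every drop quotient. -/
lemma slope_ge {g : E → ℝ} (hg : ConvexOn ℝ Set.univ g) (x w : E) (hw : w ≠ 0) (c : ℝ)
    (h : g (x + w) ≤ g x - c) : ENNReal.ofReal (c / ‖w‖) ≤ slope g x := by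
  have hwn : 0 < ‖w‖ := norm_pos_iff.mpr hw
  unfold slope
  refine Filter.le_limsup_of_frequently_le ?_ (by isBoundedDefault)
  -- the curve t ↦ x + t w
  have hc : Tendsto (fun t : ℝ => x + t • w) (𝓝[>] 0) (𝓝[≠] x) := by
    refine tendsto_nhdsWithin_iff.mpr ⟨?_, ?_⟩
    · have h1 : Tendsto (fun t : ℝ => x + t • w) (𝓝 0) (𝓝 (x + (0:ℝ) • w)) := by
        apply Continuous.tendsto
        fun_prop
      simp only [zero_smul, add_zero] at h1
      exact h1.mono_left nhdsWithin_le_nhds
    · filter_upwards [self_mem_nhdsWithin] with t ht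
      simp only [Set.mem_compl_iff, Set.mem_singleton_iff, add_eq_left, smul_eq_zero, not_or]
      exact ⟨ne_of_gt ht, hw⟩
  refine hc.frequently ?_
  have h1 : ∀ᶠ t : ℝ in 𝓝[>] 0, t ≤ 1 := by
    have : ∀ᶠ t : ℝ in 𝓝 0, t ≤ 1 := by
      filter_upwards [Iio_mem_nhds (show (0:ℝ) < 1 by norm_num)] with t ht
      exact le_of_lt ht
    exact this.filter_mono nhdsWithin_le_nhds
  have h2 : ∀ᶠ t : ℝ in 𝓝[>] 0, 0 < t := self_mem_nhdsWithin
  refine (h1.and h2).frequently.mono ?_
  rintro t ⟨ht1, ht0⟩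
  have hconv : g (x + t • w) ≤ (1 - t) * g x + t * g (x + w) := by
    have := hg.2 (Set.mem_univ x) (Set.mem_univ (x + w)) (sub_nonneg.mpr ht1) ht0.le (by ring)
    have h3 : (1 - t) • x + t • (x + w) = x + t • w := by
      rw [smul_add, sub_smul, one_smul]; abel
    rw [h3] at this
    simpa [smul_eq_mul] using this
  have h4 : t * c ≤ g x - g (x + t • w) := by nlinarith
  have h5 : dist (x + t • w) x = t * ‖w‖ := by
    rw [dist_eq_norm]
    simp [norm_smul, abs_of_pos ht0]
  apply ENNReal.ofReal_le_ofReal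
  rw [h5]
  rw [div_le_div_iff₀ hwn (by positivity)]
  have h6 : t * c ≤ |g (x + t • w) - g x| := by
    rw [abs_sub_comm]
    exact h4.trans (le_abs_self _)
  nlinarith

/-- Jensen's inequality around a base point. -/
lemma jensen_base {ι : Type*} [Fintype ι] {g : E → ℝ} (hg : ConvexOn ℝ Set.univ g) (x : E)
    (v : ι → E) (w : ι → ℝ) (hw : ∀ i, 0 ≤ w i) (hw1 : ∑ i, w i ≤ 1) :
    g (x + ∑ i, w i • v i) ≤ g x + ∑ i, w i * (g (x + v i) - g x) := by
  classical
  have h := hg.map_sum_le (t := (Finset.univ : Finset (Option ι)))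
    (w := fun o => o.elim (1 - ∑ i, w i) w) (p := fun o => o.elim x (fun i => x + v i))
    (by
      intro o _
      cases o with
      | none => simpa using hw1
      | some i => simpa using hw i)
    (by simp [Fintype.sum_option])
    (by intro o _; exact Set.mem_univ _)
  simp only [Fintype.sum_option, Option.elim] at h
  have h1 : (1 - ∑ i, w i) • x + ∑ i, w i • (x + v i) = x + ∑ i, w i • v i := by
    simp only [smul_add, Finset.sum_add_distrib, sub_smul, one_smul, ← Finset.sum_smul]
    abel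
  rw [h1] at h
  refine h.trans (le_of_eq ?_)
  simp only [smul_eq_mul, mul_sub, Finset.sum_sub_distrib, sub_mul, one_mul, ← Finset.sum_mul]
  ring

end Pool.Agent.H239R3
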