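import Mathlib

open Finset Filter Topology MeasureTheory ProbabilityTheory

namespace Pool.Agent.H239R3

variable {E : Type*} [MeasurableSpace E] [MeasurableSingletonClass E] {κ : Type*} [Fintype κ]

/-- A finitely supported measure. -/
noncomputable def dm (w : κ → ℝ) (pt : κ → E) : Measure E :=
  ∑ k, ENNReal.ofReal (w k) • Measure.dirac (pt k)

lemma dm_lintegral (w : κ → ℝ) (pt : κ → E) (F : E → ENNReal) :
    ∫⁻ x, F x ∂(dm w pt) = ∑ k, ENNReal.ofReal (w k) * F (pt k) := by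
  unfold dm
  rw [lintegral_finset_sum_measure]
  refine Finset.sum_congr rfl fun k _ => ?_
  rw [lintegral_smul_measure, lintegral_dirac]
  rfl

lemma dm_apply (w : κ → ℝ) (pt : κ → E) (A : Set E) (hA : MeasurableSet A) :
    (dm w pt) A = ∑ k, ENNReal.ofReal (w k) * A.indicator 1 (pt k) := by
  rw [← lintegral_indicator_one hA, dm_lintegral]

lemma dm_prob (w : κ → ℝ) (hw : ∀ k, 0 ≤ w k) (h1 : ∑ k, w k = 1) (pt : κ → E) :
    IsProbabilityMeasure (dm w pt) := by
  constructor
  rw [dm_apply _ _ _ MeasurableSet.univ]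
  simp only [Set.indicator_univ, Pi.one_apply, mul_one]
  rw [← ENNReal.ofReal_sum_of_nonneg (fun k _ => hw k), h1, ENNReal.ofReal_one]

lemma dm_integral (w : κ → ℝ) (hw : ∀ k, 0 ≤ w k) (pt : κ → E) (g : E → ℝ) :
    ∫ x, g x ∂(dm w pt) = ∑ k, w k * g (pt k) := by
  unfold dm
  rw [integral_finset_sum_measure]
  · refine Finset.sum_congr rfl fun k _ => ?_
    rw [integral_smul_measure, integral_dirac, ENNReal.toReal_ofReal (hw k), smul_eq_mul]
  · intro k _
    refine Integrable.smul_measure ?_ ENNReal.ofReal_ne_top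
    exact integrable_dirac (by simp)

lemma dm_evariance (w : κ → ℝ) (hw : ∀ k, 0 ≤ w k) (h1 : ∑ k, w k = 1) (pt : κ → E) (g : E → ℝ) :
    evariance g (dm w pt) =
      ENNReal.ofReal (∑ k, w k * g (pt k) ^ 2 - (∑ k, w k * g (pt k)) ^ 2) := by
  rw [evariance_eq_lintegral_ofReal, dm_lintegral, dm_integral w hw]
  have h2 : ∀ k, ENNReal.ofReal (w k) * ENNReal.ofReal ((g (pt k) - ∑ k, w k * g (pt k)) ^ 2) =
      ENNReal.ofReal (w k * (g (pt k) - ∑ k, w k * g (pt k)) ^ 2) := by
    intro k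
    rw [ENNReal.ofReal_mul (hw k)]
  rw [Finset.sum_congr rfl (fun k _ => h2 k), ← ENNReal.ofReal_sum_of_nonneg]
  · congr 1
    set m := ∑ k, w k * g (pt k) with hm
    have h3 : ∀ k, w k * (g (pt k) - m) ^ 2 = w k * g (pt k) ^ 2 - 2 * m * (w k * g (pt k)) +
        m ^ 2 * w k := fun k => by ring
    rw [Finset.sum_congr rfl (fun k _ => h3 k), Finset.sum_add_distrib, Finset.sum_sub_distrib,
      ← Finset.mul_sum, ← Finset.mul_sum, h1, ← hm]
    ring
  · intro k _
    exact mul_nonneg (hw k) (sq_nonneg _)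

end Pool.Agent.H239R3
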