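import Pool.Agent.H239R3.CPa
import Pool.Agent.H239R3.CPb
import Pool.Agent.H239R3.CPc

open Finset Filter Topology MeasureTheory ProbabilityTheory

namespace Pool.Agent.H239R3

/-- The sign of a bit. -/
def sg (b : Bool) : ℝ := if b then 1 else -1

lemma sg_sq (b : Bool) : sg b ^ 2 = 1 := by cases b <;> simp [sg]

lemma sg_not (b : Bool) : sg (!b) = - sg b := by cases b <;> simp [sg]

/-- The cube vertex. -/
noncomputable def cpt {n : ℕ} (s : Fin n → Bool) : EuclideanSpace ℝ (Fin n) :=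
  WithLp.toLp 2 (fun i => sg (s i))

lemma cpt_norm {n : ℕ} (s : Fin n → Bool) : ‖cpt s‖ = √n := by
  rw [EuclideanSpace.norm_eq]
  congr 1
  simp [cpt, sg_sq]

lemma cpt_flip {n : ℕ} (s : Fin n → Bool) (i : Fin n) :
    cpt (Function.update s i (!s i)) = cpt s + EuclideanSpace.single i (-2 * sg (s i)) := by
  ext j
  by_cases h : j = i
  · subst h
    simp [cpt, sg_not]
    ring
  · simp [cpt, h]

lemma cpt_neg {n : ℕ} (s : Fin n → Bool) : cpt (fun i => !s i) = - cpt s := by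
  ext j
  simp [cpt, sg_not]

variable {n : ℕ} (g : EuclideanSpace ℝ (Fin n) → ℝ)

/-- Half of the drop along coordinate `i`. -/
noncomputable def dd (s : Fin n → Bool) (i : Fin n) : ℝ :=
  (max (g (cpt s) - g (cpt (Function.update s i (!s i)))) 0) / 2

lemma dd_nonneg (s : Fin n → Bool) (i : Fin n) : 0 ≤ dd g s i := by
  unfold dd; positivity

lemma slope_sq_ge_of {E : Type*} [NormedAddCommGroup E] [NormedSpace ℝ E] {g : E → ℝ} {x : E}
    {c : ℝ} (hc : 0 ≤ c) (h : ENNReal.ofReal c ≤ slope g x) :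
    ENNReal.ofReal (c ^ 2) ≤ slope g x ^ 2 := by
  rw [ENNReal.ofReal_pow hc]
  gcongr

lemma slopeA (hg : ConvexOn ℝ Set.univ g) (s : Fin n → Bool) :
    ENNReal.ofReal (∑ i, dd g s i ^ 2) ≤ slope g (cpt s) ^ 2 := by
  by_cases h0 : ∑ i, dd g s i ^ 2 = 0
  · rw [h0]; simp
  have hpos : 0 < ∑ i, dd g s i ^ 2 :=
    lt_of_le_of_ne (Finset.sum_nonneg fun i _ => sq_nonneg _) (Ne.symm h0)
  set D := ∑ i, dd g s i ^ 2 with hD
  set t : ℝ := 1 / (1 + ∑ i, dd g s i / 2) with ht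
  have hS : 0 ≤ ∑ i, dd g s i / 2 :=
    Finset.sum_nonneg fun i _ => div_nonneg (dd_nonneg g s i) (by norm_num)
  have htpos : 0 < t := by rw [ht]; positivity
  have hJ := jensen_base hg (cpt s)
    (fun i => (EuclideanSpace.single i (-2 * sg (s i)) : EuclideanSpace ℝ (Fin n)))
    (fun i => t * (dd g s i / 2)) (fun i => by have := dd_nonneg g s i; positivity)
    (by
      rw [← Finset.mul_sum, ht]
      rw [div_mul_eq_mul_div, one_mul, div_le_one (by positivity)]
      linarith)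
  have h1 : ∀ i, t * (dd g s i / 2) * (g (cpt s + EuclideanSpace.single i (-2 * sg (s i))) -
      g (cpt s)) = - (t * dd g s i ^ 2) := by
    intro i
    rw [← cpt_flip]
    unfold dd
    rcases le_total (g (cpt s)) (g (cpt (Function.update s i (!s i)))) with h | h
    · rw [max_eq_right (by linarith)]; ring
    · rw [max_eq_left (by linarith)]; ring
  rw [Finset.sum_congr rfl (fun i _ => h1 i), Finset.sum_neg_distrib, ← Finset.mul_sum, ← hD,
    ← sub_eq_add_neg] at hJ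
  set W : EuclideanSpace ℝ (Fin n) := ∑ i, (t * (dd g s i / 2)) •
    (EuclideanSpace.single i (-2 * sg (s i)) : EuclideanSpace ℝ (Fin n)) with hW
  have hWj : ∀ j, W j = - (t * dd g s j * sg (s j)) := by
    intro j
    rw [hW]
    simp only [WithLp.ofLp_sum, WithLp.ofLp_smul, Finset.sum_apply, Pi.smul_apply, smul_eq_mul]
    rw [Finset.sum_eq_single j]
    · simp; ring
    · intro b _ hb
      simp [Ne.symm hb]
    · simp
  have hWn : ‖W‖ = t * √D := by
    rw [EuclideanSpace.norm_eq]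
    have : ∑ i, ‖W i‖ ^ 2 = t ^ 2 * D := by
      rw [hD, Finset.mul_sum]
      refine Finset.sum_congr rfl fun i _ => ?_
      rw [hWj, Real.norm_eq_abs, sq_abs]
      have := sg_sq (s i)
      calc (-(t * dd g s i * sg (s i))) ^ 2 = t ^ 2 * dd g s i ^ 2 * sg (s i) ^ 2 := by ring
        _ = _ := by rw [this]; ring
    rw [this, Real.sqrt_mul (sq_nonneg t), Real.sqrt_sq htpos.le]
  have hDs : 0 < √D := Real.sqrt_pos.mpr hpos
  have hWne : W ≠ 0 := by
    rw [← norm_pos_iff, hWn]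
    positivity
  have h2 := slope_ge hg (cpt s) W hWne (t * D) hJ
  rw [hWn] at h2
  have h3 : t * D / (t * √D) = √D := by
    rw [mul_div_mul_left _ _ htpos.ne']
    exact Real.div_sqrt
  rw [h3] at h2
  have h4 := slope_sq_ge_of hDs.le h2
  rwa [Real.sq_sqrt hpos.le] at h4

lemma slopeB (hn : 0 < n) (hg : ConvexOn ℝ Set.univ g) (s : Fin n → Bool) :
    ENNReal.ofReal ((max (g (cpt s) - g 0) 0) ^ 2 / n) ≤ slope g (cpt s) ^ 2 := by
  have hnn : (0:ℝ) < n := by exact_mod_cast hn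
  have hw : (- cpt s) ≠ 0 := by
    rw [← norm_pos_iff, norm_neg, cpt_norm]
    exact Real.sqrt_pos.mpr hnn
  have h1 := slope_ge hg (cpt s) (- cpt s) hw (g (cpt s) - g 0) (by simp)
  rw [norm_neg, cpt_norm] at h1
  have h2 : ENNReal.ofReal ((max (g (cpt s) - g 0) 0) / √n) ≤ slope g (cpt s) := by
    rcases le_total (g (cpt s) - g 0) 0 with h | h
    · rw [max_eq_right h]; simp
    · rw [max_eq_left h]; exact h1
  have h3 := slope_sq_ge_of (by positivity) h2
  rwa [div_pow, Real.sq_sqrt hnn.le] at h3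

/-- The lower bound for the squared slope at a cube vertex. -/
noncomputable def RR (s : Fin n → Bool) : ℝ :=
  max (∑ i, dd g s i ^ 2) ((max (g (cpt s) - g 0) 0) ^ 2 / n)

lemma RR_le (hn : 0 < n) (hg : ConvexOn ℝ Set.univ g) (s : Fin n → Bool) :
    ENNReal.ofReal (RR g s) ≤ slope g (cpt s) ^ 2 := by
  unfold RR
  rcases le_total (∑ i, dd g s i ^ 2) ((max (g (cpt s) - g 0) 0) ^ 2 / n) with h | h
  · rw [max_eq_right h]; exact slopeB g hn hg s
  · rw [max_eq_left h]; exact slopeA g hg s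

lemma RR_nonneg (s : Fin n → Bool) : 0 ≤ RR g s :=
  le_trans (Finset.sum_nonneg fun i _ => sq_nonneg _) (le_max_left _ _)

lemma var_cube :
    (2:ℝ)^n * ∑ s : Fin n → Bool, g (cpt s) ^ 2 - (∑ s : Fin n → Bool, g (cpt s)) ^ 2 ≤
      (2:ℝ)^n * 2 * ∑ s, RR g s := by
  refine (es' n (fun s => g (cpt s))).trans ?_
  have h1 : ∀ s : Fin n → Bool,
      ∑ i, (max (g (cpt s) - g (cpt (Function.update s i (!s i)))) 0)^2 ≤ 4 * RR g s := by
    intro s
    have : ∑ i, (max (g (cpt s) - g (cpt (Function.update s i (!s i)))) 0)^2 =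
        4 * ∑ i, dd g s i ^ 2 := by
      rw [Finset.mul_sum]
      refine Finset.sum_congr rfl fun i _ => ?_
      unfold dd; ring
    rw [this]
    have := le_max_left (∑ i, dd g s i ^ 2) ((max (g (cpt s) - g 0) 0) ^ 2 / n)
    unfold RR
    linarith
  have h2 := Finset.sum_le_sum (s := Finset.univ) (fun s _ => h1 s)
  rw [← Finset.mul_sum] at h2
  have h3 : (0:ℝ) < 2 ^ n := by positivity
  nlinarith

lemma mean_ge (hg : ConvexOn ℝ Set.univ g) :
    (2:ℝ)^n * g 0 ≤ ∑ s : Fin n → Bool, g (cpt s) := by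
  have h1 : ∀ s : Fin n → Bool, 2 * g 0 ≤ g (cpt s) + g (cpt (fun i => !s i)) := by
    intro s
    have := hg.2 (Set.mem_univ (cpt s)) (Set.mem_univ (-cpt s)) (show (0:ℝ) ≤ 1/2 by norm_num)
      (show (0:ℝ) ≤ 1/2 by norm_num) (by norm_num)
    rw [smul_neg, add_neg_cancel] at this
    rw [cpt_neg]
    simp only [smul_eq_mul] at this
    linarith
  have h2 := Finset.sum_le_sum (s := Finset.univ) (fun s _ => h1 s)
  rw [Finset.sum_add_distrib] at h2
  have hinv : Function.Involutive (fun (s : Fin n → Bool) => (fun i => !s i)) := by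
    intro s; funext i; simp
  have h3 : ∑ s : Fin n → Bool, g (cpt (fun i => !s i)) = ∑ s : Fin n → Bool, g (cpt s) :=
    Equiv.sum_comp (hinv.toPerm _) (fun s => g (cpt s))
  rw [h3] at h2
  simp only [Finset.sum_const, Finset.card_univ, nsmul_eq_mul] at h2
  have h4 : (Fintype.card (Fin n → Bool) : ℝ) = 2 ^ n := by simp
  rw [h4] at h2
  linarith

lemma mean_sq (hn : 0 < n) (hg : ConvexOn ℝ Set.univ g) :
    (∑ s : Fin n → Bool, g (cpt s) - (2:ℝ)^n * g 0) ^ 2 ≤ (2:ℝ)^n * n * ∑ s, RR g s := by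
  have hnn : (0:ℝ) < n := by exact_mod_cast hn
  have h0 := mean_ge g hg
  have h1 : ∑ s : Fin n → Bool, g (cpt s) - (2:ℝ)^n * g 0 ≤
      ∑ s : Fin n → Bool, max (g (cpt s) - g 0) 0 := by
    have : ∑ s : Fin n → Bool, g (cpt s) - (2:ℝ)^n * g 0 = ∑ s : Fin n → Bool, (g (cpt s) - g 0) := by
      rw [Finset.sum_sub_distrib]; simp
    rw [this]
    exact Finset.sum_le_sum fun s _ => le_max_left _ _
  have h2 : (∑ s : Fin n → Bool, max (g (cpt s) - g 0) 0) ^ 2 ≤
      (2:ℝ)^n * ∑ s : Fin n → Bool, (max (g (cpt s) - g 0) 0) ^ 2 := by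
    have := sq_sum_le_card_mul_sum_sq (s := (Finset.univ : Finset (Fin n → Bool)))
      (f := fun s => max (g (cpt s) - g 0) 0)
    simpa using this
  have h3 : ∀ s : Fin n → Bool, (max (g (cpt s) - g 0) 0) ^ 2 ≤ n * RR g s := by
    intro s
    have := le_max_right (∑ i, dd g s i ^ 2) ((max (g (cpt s) - g 0) 0) ^ 2 / n)
    rw [div_le_iff₀ hnn] at this
    unfold RR
    linarith
  have h4 := Finset.sum_le_sum (s := Finset.univ) (fun s _ => h3 s)
  rw [← Finset.mul_sum] at h4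
  calc (∑ s : Fin n → Bool, g (cpt s) - (2:ℝ)^n * g 0) ^ 2
      ≤ (∑ s : Fin n → Bool, max (g (cpt s) - g 0) 0) ^ 2 := by
        apply pow_le_pow_left₀ (by linarith) h1
    _ ≤ (2:ℝ)^n * ∑ s : Fin n → Bool, (max (g (cpt s) - g 0) 0) ^ 2 := h2
    _ ≤ (2:ℝ)^n * (n * ∑ s, RR g s) := by gcongr
    _ = _ := by ring

/-- Weights of the mixture. -/
noncomputable def wt (n : ℕ) : Option (Fin n → Bool) → ℝ :=
  fun o => o.elim (1 / n) (fun _ => (1 - 1 / n) / 2 ^ n)

/-- Atoms of the mixture. -/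
noncomputable def at' (n : ℕ) : Option (Fin n → Bool) → EuclideanSpace ℝ (Fin n) :=
  fun o => o.elim 0 cpt

lemma wt_nonneg (hn : 0 < n) (o : Option (Fin n → Bool)) : 0 ≤ wt n o := by
  have hnn : (1:ℝ) ≤ n := by exact_mod_cast hn
  cases o with
  | none => simp [wt]
  | some s =>
    simp only [wt, Option.elim]
    have : (1:ℝ) / n ≤ 1 := by rw [div_le_one (by linarith)]; exact hnn
    have h2 : (0:ℝ) < 2 ^ n := by positivity
    exact div_nonneg (by linarith) h2.le

lemma wt_sum (hn : 0 < n) : ∑ o, wt n o = 1 := by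
  rw [Fintype.sum_option]
  simp only [wt, Option.elim, Finset.sum_const, Finset.card_univ, nsmul_eq_mul]
  have h4 : (Fintype.card (Fin n → Bool) : ℝ) = 2 ^ n := by simp
  rw [h4]
  have h2 : (2:ℝ) ^ n ≠ 0 := by positivity
  field_simp
  ring

/-- The counterexample measure. -/
noncomputable def mm (n : ℕ) : Measure (EuclideanSpace ℝ (Fin n)) := dm (wt n) (at' n)

theorem convex_poincare (hn : 0 < n) (hg : ConvexOn ℝ Set.univ g) :
    evariance g (mm n) ≤ ENNReal.ofReal 3 * ∫⁻ x, slope g x ^ 2 ∂(mm n) := by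
  have hnn : (0:ℝ) < n := by exact_mod_cast hn
  have hnn1 : (1:ℝ) ≤ n := by exact_mod_cast hn
  have h2 : (0:ℝ) < 2 ^ n := by positivity
  have hp : (0:ℝ) ≤ 1 - 1 / n := by
    have : (1:ℝ) / n ≤ 1 := by rw [div_le_one hnn]; exact hnn1
    linarith
  unfold mm
  rw [dm_evariance _ (wt_nonneg hn) (wt_sum hn), dm_lintegral]
  have hlow : ENNReal.ofReal ((1 - 1 / n) / 2 ^ n * ∑ s, RR g s) ≤
      ∑ k, ENNReal.ofReal (wt n k) * slope g (at' n k) ^ 2 := by
    rw [Fintype.sum_option]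
    refine le_trans ?_ le_add_self
    rw [Finset.mul_sum, ENNReal.ofReal_sum_of_nonneg]
    · refine Finset.sum_le_sum fun s _ => ?_
      simp only [wt, at', Option.elim]
      rw [ENNReal.ofReal_mul (div_nonneg hp h2.le)]
      gcongr
      exact RR_le g hn hg s
    · intro s _
      exact mul_nonneg (div_nonneg hp h2.le) (RR_nonneg g s)
  refine le_trans ?_ (mul_le_mul_right hlow _)
  rw [← ENNReal.ofReal_mul (by norm_num)]
  apply ENNReal.ofReal_le_ofReal
  rw [Fintype.sum_option, Fintype.sum_option]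
  simp only [wt, at', Option.elim]
  rw [← Finset.mul_sum, ← Finset.mul_sum]
  have hv := var_cube g
  have hm := mean_sq g hn hg
  set A := ∑ s : Fin n → Bool, g (cpt s) with hA
  set B := ∑ s : Fin n → Bool, g (cpt s) ^ 2 with hB
  set R := ∑ s, RR g s with hR
  set b := g 0 with hb
  set N : ℝ := 2 ^ n with hN
  have e1 : 1 / (n:ℝ) * b ^ 2 + (1 - 1 / n) / N * B - (1 / n * b + (1 - 1 / n) / N * A) ^ 2 =
      (1 - 1 / n) * ((N * B - A ^ 2) / N ^ 2) + (1 - 1 / n) * (1 / n) * ((A - N * b) ^ 2 / N ^ 2) := by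
    field_simp
    ring
  rw [e1]
  have h3 : (N * B - A ^ 2) / N ^ 2 ≤ 2 * R / N := by
    rw [div_le_div_iff₀ (by positivity) h2]
    nlinarith [mul_le_mul_of_nonneg_right hv h2.le]
  have h4 : (A - N * b) ^ 2 / N ^ 2 ≤ n * R / N := by
    rw [div_le_div_iff₀ (by positivity) h2]
    nlinarith [mul_le_mul_of_nonneg_right hm h2.le]
  calc (1 - 1 / (n:ℝ)) * ((N * B - A ^ 2) / N ^ 2) + (1 - 1 / n) * (1 / n) * ((A - N * b) ^ 2 / N ^ 2)
      ≤ (1 - 1 / (n:ℝ)) * (2 * R / N) + (1 - 1 / n) * (1 / n) * (n * R / N) := by gcongr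
    _ = 3 * ((1 - 1 / n) / N * R) := by field_simp; ring

end Pool.Agent.H239R3
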