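import Mathlib

set_option autoImplicit false

/-!
Abstract form of a stationary 1-dependent 4-colouring: a linear functional on the free algebra.
-/

namespace Pool.Agent.H239R3.KC

abbrev W := FreeMonoid (Fin 4)
abbrev R := MonoidAlgebra ℝ W

noncomputable def wd (w : W) : R := MonoidAlgebra.of ℝ W w
noncomputable def x (a : Fin 4) : R := wd (FreeMonoid.of a)
noncomputable def s : R := x 0 + x 1 + x 2 + x 3

structure Sol (P : R →ₗ[ℝ] ℝ) : Prop where
  one : P 1 = 1
  split : ∀ p q : R, P (p * s * q) = P p * P q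
  sq : ∀ (a : Fin 4) (p q : R), P (p * x a * x a * q) = 0
  nonneg : ∀ w : W, 0 ≤ P (wd w)

lemma wd_mul (u v : W) : wd (u * v) = wd u * wd v := by simp [wd]
lemma wd_one : wd 1 = 1 := map_one (MonoidAlgebra.of ℝ W)

noncomputable def Cone : Subsemiring R := (MonoidHom.mrange (MonoidAlgebra.of ℝ W)).subsemiringClosure

lemma wd_mem (w : W) : wd w ∈ Cone := by
  have : (wd w) ∈ AddSubmonoid.closure ((MonoidHom.mrange (MonoidAlgebra.of ℝ W) : Submonoid R) : Set R) :=
    AddSubmonoid.subset_closure ⟨w, rfl⟩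
  exact this

lemma x_mem (a : Fin 4) : x a ∈ Cone := wd_mem _

lemma Sol.cone_nonneg {P : R →ₗ[ℝ] ℝ} (h : Sol P) {p : R} (hp : p ∈ Cone) : 0 ≤ P p := by
  have hp' : p ∈ AddSubmonoid.closure ((MonoidHom.mrange (MonoidAlgebra.of ℝ W) : Submonoid R) : Set R) := hp
  induction hp' using AddSubmonoid.closure_induction with
  | mem y hy => obtain ⟨w, rfl⟩ := hy; exact h.nonneg w
  | zero => simp
  | add y z hy hz h1 h2 =>
    rw [map_add]; exact add_nonneg (h1 hy) (h2 hz)

/-- the sum of the letters different from `a` -/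
noncomputable def B (a : Fin 4) : R := s - x a

lemma B_mem (a : Fin 4) : B a ∈ Cone := by
  have h : ∀ b, x b ∈ Cone := x_mem
  have key : B a = ∑ b ∈ Finset.univ.erase a, x b := by
    have : s = ∑ b, x b := by simp [s, Fin.sum_univ_four]
    rw [B, this, ← Finset.add_sum_erase _ _ (Finset.mem_univ a)]; abel
  rw [key]
  exact Subsemiring.sum_mem _ (fun b _ => h b)

lemma B_eq_sum (a : Fin 4) : B a = ∑ b ∈ Finset.univ.erase a, x b := by
  have : s = ∑ b, x b := by simp [s, Fin.sum_univ_four]
  rw [B, this, ← Finset.add_sum_erase _ _ (Finset.mem_univ a)]; abel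

section
variable {P : R →ₗ[ℝ] ℝ} (h : Sol P)
include h

lemma recR (a : Fin 4) (p q : R) (n : ℕ) :
    P (p * B a ^ (n + 2) * q) = P (p * B a ^ (n + 1)) * P q - P (p * B a ^ n) * P (x a * q) := by
  have e1 : p * B a ^ (n + 2) * q
      = (p * B a ^ (n + 1)) * s * q - (p * B a ^ n) * s * (x a * q) + (p * B a ^ n) * x a * x a * q := by
    have : B a ^ (n + 2) = B a ^ n * (B a * B a) := by rw [pow_add, pow_two]
    have h2 : B a ^ (n + 1) = B a ^ n * B a := pow_succ _ _
    rw [this, h2]
    have hB : B a = s - x a := rfl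
    generalize B a ^ n = Z
    rw [hB]
    noncomm_ring
  rw [e1, map_add, map_sub, h.split, h.split, h.sq]
  ring

lemma recL (a : Fin 4) (p q : R) (n : ℕ) :
    P (p * B a ^ (n + 2) * q) = P p * P (B a ^ (n + 1) * q) - P (p * x a) * P (B a ^ n * q) := by
  have e1 : p * B a ^ (n + 2) * q
      = p * s * (B a ^ (n + 1) * q) - (p * x a) * s * (B a ^ n * q) + p * x a * x a * (B a ^ n * q) := by
    have : B a ^ (n + 2) = (B a * B a) * B a ^ n := by rw [← pow_two, ← pow_add, add_comm]
    have h2 : B a ^ (n + 1) = B a * B a ^ n := pow_succ' _ _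
    rw [this, h2]
    have hB : B a = s - x a := rfl
    generalize B a ^ n = Z
    rw [hB]
    noncomm_ring
  rw [e1, map_add, map_sub, h.split, h.split, h.sq]
  ring

lemma s_val (p : R) : P (p * s) = P p := by
  have := h.split p 1
  rw [mul_one, h.one, mul_one] at this; exact this

lemma s_valL (p : R) : P (s * p) = P p := by
  have := h.split 1 p
  rw [one_mul, h.one, one_mul] at this; exact this

end

/-- A sequence with `y (n+2) = y (n+1) - ρ y n`, started at `1, 1 - ρ`, cannot stay nonnegative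
when `ρ > 1/4`. -/
lemma seq_bound (ρ : ℝ) (y : ℕ → ℝ) (h0 : y 0 = 1) (h1 : y 1 = 1 - ρ)
    (hr : ∀ n, y (n + 2) = y (n + 1) - ρ * y n) (hn : ∀ n, 0 ≤ y n) : ρ ≤ 1 / 4 := by
  by_contra hlt
  push Not at hlt
  -- all terms positive
  have hpos : ∀ n, 0 < y n := by
    intro n
    rcases Nat.eq_zero_or_pos n with rfl | hn0
    · rw [h0]; norm_num
    · rcases (hn n).lt_or_eq with hh | hh
      · exact hh
      · exfalso
        -- go down: y n = 0 implies y (n-1) = 0
        have hdown : ∀ m, y (m + 1) = 0 → y m = 0 := by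
          intro m hm
          have h2 := hn (m + 2)
          rw [hr m, hm] at h2
          have := hn m
          nlinarith
        have : ∀ k, y k = 0 → y 0 = 0 := by
          intro k
          induction k with
          | zero => exact id
          | succ k ih => intro hk; exact ih (hdown k hk)
        have h00 := this n hh.symm
        rw [h0] at h00; norm_num at h00
  -- ratios decrease by a fixed amount
  set c : ℝ := ρ - 1 / 4 with hc
  have hcpos : 0 < c := by linarith
  have hrat : ∀ n : ℕ, y (n + 1) / y n ≤ 1 - n * (min c (1/4)) := by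
    intro n
    induction n with
    | zero => simp [h0, h1]; linarith
    | succ n ih =>
      have hp := hpos n
      have hp1 := hpos (n + 1)
      have e : y (n + 2) / y (n + 1) = 1 - ρ / (y (n + 1) / y n) := by
        rw [hr n]; field_simp
      rw [show n + 1 + 1 = n + 2 from rfl, e]
      set r := y (n + 1) / y n with hr'
      have hrpos : 0 < r := div_pos hp1 hp
      have hr1 : r ≤ 1 := by
        have : (0:ℝ) ≤ n * (min c (1/4)) := by positivity
        linarith
      have : 1 - ρ / r ≤ r - min c (1/4) := by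
        have h3 : ρ / r ≥ 1 - r + c := by
          rw [ge_iff_le, le_div_iff₀ hrpos]
          have : ρ = 1 / 4 + c := by rw [hc]; ring
          rw [this]
          nlinarith [sq_nonneg (r - 1 / 2), mul_nonneg hcpos.le (sub_nonneg.mpr hr1)]
        have h4 : min c (1/4) ≤ c := min_le_left _ _
        linarith
      push_cast
      linarith
  obtain ⟨N, hN⟩ := exists_nat_gt (1 / (min c (1/4)))
  have hm : 0 < min c (1/4) := lt_min hcpos (by norm_num)
  have h5 : 1 < N * min c (1/4) := by
    rw [div_lt_iff₀ hm] at hN; exact hN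
  have h6 := hrat N
  have h7 : 0 < y (N + 1) / y N := div_pos (hpos _) (hpos _)
  linarith

lemma quad_bound (c0 c1 k : ℝ) (hh : ∀ n : ℕ, 0 ≤ c0 + c1 * n + k * n ^ 2) : 0 ≤ k := by
  by_contra hk
  push Not at hk
  obtain ⟨N, hN⟩ := exists_nat_gt ((|c0| + |c1| + 1) / (-k))
  have hk' : 0 < -k := by linarith
  rw [div_lt_iff₀ hk'] at hN
  have hN1 : (1:ℝ) ≤ N := by
    by_contra h1
    push Not at h1
    have : N = 0 := by
      have : (N:ℝ) < 1 := h1
      exact_mod_cast Nat.lt_one_iff.mp (by exact_mod_cast this)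
    rw [this] at hN
    simp at hN
    have := abs_nonneg c0; have := abs_nonneg c1
    linarith
  have h2 := hh N
  have h3 : c0 ≤ |c0| * N := by nlinarith [le_abs_self c0, abs_nonneg c0]
  have h4 : c1 * N ≤ |c1| * N := by nlinarith [le_abs_self c1]
  have h5 : (N:ℝ) * (|c0| + |c1| + 1) < N * (N * -k) := by
    apply mul_lt_mul_of_pos_left hN; linarith
  nlinarith

section
variable {P : R →ₗ[ℝ] ℝ} (h : Sol P)
include h

lemma dens_le (a : Fin 4) : P (x a) ≤ 1 / 4 := by
  apply seq_bound (P (x a)) (fun n => P (B a ^ n))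
  · simp [h.one]
  · have : P (B a) = P s - P (x a) := by rw [B, map_sub]
    have h2 := s_val h 1
    rw [one_mul, h.one] at h2
    simp only [pow_one]; rw [this, h2]
  · intro n
    have := recR h a 1 1 n
    simp only [one_mul, mul_one, h.one] at this
    rw [this]; ring
  · intro n
    exact h.cone_nonneg (pow_mem (B_mem a) n)

lemma dens (a : Fin 4) : P (x a) = 1 / 4 := by
  have h2 := s_val h 1
  rw [one_mul, h.one, s, map_add, map_add, map_add] at h2
  have h0 := dens_le h 0
  have h1 := dens_le h 1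
  have h22 := dens_le h 2
  have h3 := dens_le h 3
  fin_cases a
  · show P (x 0) = _; linarith
  · show P (x 1) = _; linarith
  · show P (x 2) = _; linarith
  · show P (x 3) = _; linarith

lemma pBn (a : Fin 4) (p : R) (n : ℕ) :
    P (p * B a ^ n) * 2 ^ n = P p + n * (P p - 2 * P (p * x a)) := by
  induction n using Nat.twoStepInduction with
  | zero => simp
  | one =>
    have : p * B a ^ 1 = p * s - p * x a := by rw [pow_one, B, mul_sub]
    rw [this, map_sub, s_val h]; push_cast; ring
  | more n ih1 ih2 =>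
    have := recR h a p 1 n
    simp only [mul_one, h.one, dens h] at this
    rw [this]
    have e : (P (p * B a ^ (n + 1)) - P (p * B a ^ n) * (1 / 4)) * 2 ^ (n + 2)
        = 2 * (P (p * B a ^ (n + 1)) * 2 ^ (n + 1)) - P (p * B a ^ n) * 2 ^ n := by ring
    rw [e, ih1, ih2]; push_cast; ring

lemma Bnp (a : Fin 4) (p : R) (n : ℕ) :
    P (B a ^ n * p) * 2 ^ n = P p + n * (P p - 2 * P (x a * p)) := by
  induction n using Nat.twoStepInduction with
  | zero => simp
  | one =>
    have : B a ^ 1 * p = s * p - x a * p := by rw [pow_one, B, sub_mul]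
    rw [this, map_sub, s_valL h]; push_cast; ring
  | more n ih1 ih2 =>
    have := recL h a 1 p n
    simp only [one_mul, h.one, dens h] at this
    rw [this]
    have e : (P (B a ^ (n + 1) * p) - 1 / 4 * P (B a ^ n * p)) * 2 ^ (n + 2)
        = 2 * (P (B a ^ (n + 1) * p) * 2 ^ (n + 1)) - P (B a ^ n * p) * 2 ^ n := by ring
    rw [e, ih1, ih2]; push_cast; ring

/-- the extremality functional -/
noncomputable def K (P : R →ₗ[ℝ] ℝ) (a : Fin 4) (v : R) : ℝ :=
  P v - 2 * P (x a * v) - 2 * P (v * x a) + 4 * P (x a * v * x a)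

omit h in
lemma K_add (a : Fin 4) (u v : R) : K P a (u + v) = K P a u + K P a v := by
  simp only [K, mul_add, add_mul, map_add]; ring

omit h in
lemma K_sum (a : Fin 4) {ι : Type} (t : Finset ι) (f : ι → R) :
    K P a (∑ i ∈ t, f i) = ∑ i ∈ t, K P a (f i) := by
  classical
  induction t using Finset.induction_on with
  | empty => simp [K]
  | insert i t hi ih => rw [Finset.sum_insert hi, Finset.sum_insert hi, K_add, ih]

lemma K_nonneg (a : Fin 4) {v : R} (hv : v ∈ Cone) : 0 ≤ K P a v := by
  apply quad_bound (P v) (P v - 2 * P (x a * v) + P v - 2 * P (v * x a)) (K P a v)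
  intro n
  have hmem : B a ^ n * v * B a ^ n ∈ Cone :=
    mul_mem (mul_mem (pow_mem (B_mem a) n) hv) (pow_mem (B_mem a) n)
  have h0 := h.cone_nonneg hmem
  have h1 := pBn h a (B a ^ n * v) n
  have h2 := Bnp h a v n
  have h3 := Bnp h a (v * x a) n
  rw [← mul_assoc] at h3
  have h4 : 0 ≤ P (B a ^ n * v * B a ^ n) * 2 ^ n * 2 ^ n := by positivity
  have h5 : P (B a ^ n * v * B a ^ n) * 2 ^ n * 2 ^ n
      = P (B a ^ n * v) * 2 ^ n + n * (P (B a ^ n * v) * 2 ^ n - 2 * (P (B a ^ n * v * x a) * 2 ^ n)) := by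
    rw [h1]; ring
  rw [h5, h2, h3] at h4
  have e : x a * (v * x a) = x a * v * x a := by rw [mul_assoc]
  rw [e] at h4
  have : P v + (P v - 2 * P (x a * v) + P v - 2 * P (v * x a)) * n + K P a v * n ^ 2
    = P v + n * (P v - 2 * P (x a * v)) + n * (P v + n * (P v - 2 * P (x a * v))
      - 2 * (P (v * x a) + n * (P (v * x a) - 2 * P (x a * v * x a)))) := by
    rw [K]; ring
  rw [this]; exact h4

lemma K_B (a : Fin 4) (n : ℕ) : K P a (B a ^ n) = 0 := by
  have h1 := pBn h a 1 n
  have h2 := pBn h a (x a) n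
  have h2' := pBn h a (x a) (n + 1)
  have h3 := Bnp h a (x a) n
  simp only [one_mul, h.one, dens h] at h1 h2 h3 h2'
  have hxx : P (x a * x a) = 0 := by
    have := h.sq a 1 1
    simpa using this
  rw [hxx] at h2 h3 h2'
  have h4 : P (x a * B a ^ n * x a) = P (x a * B a ^ n) - P (x a * B a ^ (n + 1)) := by
    have : x a * B a ^ n * x a = x a * B a ^ n * s - x a * B a ^ (n + 1) := by
      have hB : x a = s - B a := by rw [B]; abel
      have : B a ^ (n + 1) = B a ^ n * B a := pow_succ _ _
      rw [this]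
      conv_lhs => rw [show x a * B a ^ n * x a = x a * B a ^ n * (s - B a) by rw [← hB]]
      noncomm_ring
    rw [this, map_sub, s_val h]
  rw [K, h4]
  have hpos : (0:ℝ) < 2 ^ n := by positivity
  have g1 : P (B a ^ n) = (1 + n * (1 - 2 * (1/4))) / 2 ^ n := by rw [← h1]; field_simp
  have g2 : P (x a * B a ^ n) = (1 / 4 + n * (1 / 4 - 2 * 0)) / 2 ^ n := by rw [← h2]; field_simp
  have g3 : P (B a ^ n * x a) = (1 / 4 + n * (1 / 4 - 2 * 0)) / 2 ^ n := by rw [← h3]; field_simp
  have g4 : P (x a * B a ^ (n + 1)) = (1 / 4 + ((n + 1 : ℕ) : ℝ) * (1 / 4 - 2 * 0)) / 2 ^ (n + 1) := by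
    rw [← h2']; field_simp
  rw [g1, g2, g3, g4]
  push_cast
  field_simp
  ring

/-- words avoiding `a` -/
def Avoid (a : Fin 4) (w : List (Fin 4)) : Prop := ∀ b ∈ w, b ≠ a

lemma K_wordB (a : Fin 4) (w : List (Fin 4)) (hw : Avoid a w) (n : ℕ) :
    K P a (wd (FreeMonoid.ofList w) * B a ^ n) = 0 := by
  induction w using List.reverseRecOn generalizing n with
  | nil =>
    have : wd (FreeMonoid.ofList ([] : List (Fin 4))) = 1 := wd_one
    rw [this, one_mul]; exact K_B h a n
  | append_singleton w b ih =>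
    have hw' : Avoid a w := fun c hc => hw c (by simp [hc])
    have hb : b ≠ a := hw b (by simp)
    have h1 := ih hw' (n + 1)
    have e : wd (FreeMonoid.ofList w) * B a ^ (n + 1)
        = ∑ c ∈ Finset.univ.erase a, wd (FreeMonoid.ofList w) * x c * B a ^ n := by
      rw [pow_succ', ← mul_assoc]
      conv_lhs => rw [B_eq_sum a]
      rw [Finset.mul_sum, Finset.sum_mul]
      rw [← B_eq_sum a]
    rw [e, K_sum] at h1
    have h2 := (Finset.sum_eq_zero_iff_of_nonneg (fun c _ => K_nonneg h a
      (mul_mem (mul_mem (wd_mem _) (x_mem c)) (pow_mem (B_mem a) n)))).mp h1 b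
      (by simp [hb])
    have e2 : wd (FreeMonoid.ofList (w ++ [b])) = wd (FreeMonoid.ofList w) * x b := by
      rw [x, ← wd_mul]; rfl
    rw [e2]; exact h2

lemma K_word (a : Fin 4) (w : List (Fin 4)) (hw : Avoid a w) :
    K P a (wd (FreeMonoid.ofList w)) = 0 := by
  have := K_wordB h a w hw 0
  simpa using this

end

end Pool.Agent.H239R3.KC
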