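import Mathlib
import Pool.Agent.H239R3.KCa

set_option autoImplicit false

/-!
Two-colour words: generating function argument.
-/

namespace Pool.Agent.H239R3.KC

open PowerSeries

noncomputable def G (P : R →ₗ[ℝ] ℝ) (Z p q : R) : ℝ⟦X⟧ := PowerSeries.mk fun n => P (p * Z ^ n * q)
noncomputable def Gm (P : R →ₗ[ℝ] ℝ) (Z p q : R) : ℝ⟦X⟧ :=
  PowerSeries.mk fun n => (-1) ^ n * P (p * Z ^ n * q)

section
variable {P : R →ₗ[ℝ] ℝ} (h : Sol P)
include h

lemma G_rec (Z Y p q : R) (hs : s = Z + Y) :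
    G P Y p q = C (P (p * q)) + X * (C (P p) * G P Y 1 q - G P Y (p * Z) q) := by
  ext n
  cases n with
  | zero => simp [G]
  | succ n =>
    rw [map_add, coeff_succ_X_mul, map_sub, coeff_C_mul]
    simp only [G, coeff_mk, coeff_C, Nat.succ_ne_zero, if_false, zero_add, one_mul]
    have e : p * Y ^ (n + 1) * q = p * s * (Y ^ n * q) - p * Z * Y ^ n * q := by
      rw [hs, pow_succ']; noncomm_ring
    rw [e, map_sub, h.split]

omit h in
lemma Gm_rec (Z p q : R) :
    Gm P Z p q = C (P (p * q)) - X * Gm P Z (p * Z) q := by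
  ext n
  cases n with
  | zero => simp [Gm]
  | succ n =>
    rw [map_sub, coeff_succ_X_mul]
    simp only [Gm, coeff_mk, coeff_C, Nat.succ_ne_zero, if_false, zero_sub]
    have e : p * Z ^ (n + 1) * q = p * Z * Z ^ n * q := by
      rw [pow_succ']; noncomm_ring
    rw [e]; ring

lemma G_main (Z Y p q : R) (hs : s = Z + Y) :
    G P Y p q = Gm P Z p q + X * Gm P Z p 1 * G P Y 1 q := by
  have key : ∀ n : ℕ, ∀ p : R,
      coeff n (G P Y p q - Gm P Z p q - X * Gm P Z p 1 * G P Y 1 q) = 0 := by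
    have hF : ∀ p : R, G P Y p q - Gm P Z p q - X * Gm P Z p 1 * G P Y 1 q
        = - (X * (G P Y (p * Z) q - Gm P Z (p * Z) q - X * Gm P Z (p * Z) 1 * G P Y 1 q)) := by
      intro p
      have e1 := G_rec h Z Y p q hs
      have e2 := Gm_rec (P := P) Z p q
      have e3 := Gm_rec (P := P) Z p 1
      rw [mul_one] at e3
      rw [e1, e2, e3]
      ring
    intro n
    induction n with
    | zero => intro p; rw [hF]; simp
    | succ n ih => intro p; rw [hF, map_neg, coeff_succ_X_mul, ih, neg_zero]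
  have : G P Y p q - Gm P Z p q - X * Gm P Z p 1 * G P Y 1 q = 0 := by
    ext n; rw [key n p]; simp
  linear_combination this

lemma K_wordpow (a d b : Fin 4) (hab : a ≠ b) (hdb : d ≠ b) (n : ℕ) :
    ∀ w : List (Fin 4), Avoid b w → K P b (wd (FreeMonoid.ofList w) * (x a + x d) ^ n) = 0 := by
  induction n with
  | zero => intro w hw; rw [pow_zero, mul_one]; exact K_word h b w hw
  | succ n ih =>
    intro w hw
    have e : wd (FreeMonoid.ofList w) * (x a + x d) ^ (n + 1)
        = wd (FreeMonoid.ofList (w ++ [a])) * (x a + x d) ^ n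
          + wd (FreeMonoid.ofList (w ++ [d])) * (x a + x d) ^ n := by
      have e2 : ∀ c, wd (FreeMonoid.ofList (w ++ [c])) = wd (FreeMonoid.ofList w) * x c := by
        intro c; rw [x, ← wd_mul]; rfl
      rw [e2, e2, pow_succ']; noncomm_ring
    rw [e, K_add, ih, ih, add_zero]
    · intro c hc; simp at hc; rcases hc with hc | hc
      · exact hw c hc
      · rw [hc]; exact hdb
    · intro c hc; simp at hc; rcases hc with hc | hc
      · exact hw c hc
      · rw [hc]; exact hab

lemma K_pow (a d b : Fin 4) (hab : a ≠ b) (hdb : d ≠ b) (n : ℕ) :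
    K P b ((x a + x d) ^ n) = 0 := by
  have := K_wordpow h a d b hab hdb n [] (by intro c hc; simp at hc)
  have e : wd (FreeMonoid.ofList ([] : List (Fin 4))) = 1 := wd_one
  rw [e, one_mul] at this; exact this

/-- identity `(B_b)` -/
lemma ident (a b c d : Fin 4) (hab : a ≠ b) (hdb : d ≠ b) (hs : s = (x b + x c) + (x a + x d)) :
    (1 - X * Gm P (x b + x c) 1 1) * (Gm P (x b + x c) 1 1 - 2 * Gm P (x b + x c) (x b) 1
      - 2 * Gm P (x b + x c) 1 (x b) + 4 * Gm P (x b + x c) (x b) (x b))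
      + X * ((Gm P (x b + x c) 1 1 - 2 * Gm P (x b + x c) (x b) 1)
        * (Gm P (x b + x c) 1 1 - 2 * Gm P (x b + x c) 1 (x b))) = 0 := by
  set Z := x b + x c with hZ
  set Y := x a + x d with hY
  have hK : G P Y 1 1 - 2 * G P Y (x b) 1 - 2 * G P Y 1 (x b) + 4 * G P Y (x b) (x b) = 0 := by
    ext n
    have := K_pow h a d b hab hdb n
    rw [K] at this
    have e2 : ∀ f : ℝ⟦X⟧, coeff n (2 * f) = 2 * coeff n f := by
      intro f
      have : (2 : ℝ⟦X⟧) = C (2:ℝ) := (map_ofNat _ 2).symm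
      rw [this, coeff_C_mul]
    have e4 : ∀ f : ℝ⟦X⟧, coeff n (4 * f) = 4 * coeff n f := by
      intro f
      have : (4 : ℝ⟦X⟧) = C (4:ℝ) := (map_ofNat _ 4).symm
      rw [this, coeff_C_mul]
    rw [map_add, map_sub, map_sub, e2, e2, e4]
    simp only [G, coeff_mk, one_mul, mul_one, map_zero]
    linarith
  have m11 := G_main h Z Y 1 1 hs
  have mb1 := G_main h Z Y (x b) 1 hs
  have m1b := G_main h Z Y 1 (x b) hs
  have mbb := G_main h Z Y (x b) (x b) hs
  linear_combination (1 - X * Gm P Z 1 1) * hK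
    - (1 - X * Gm P Z 1 1) * m11 - X * Gm P Z 1 1 * m11
    + 2 * (1 - X * Gm P Z 1 1) * mb1 + 2 * X * Gm P Z (x b) 1 * m11
    + 2 * (1 - X * Gm P Z 1 1) * m1b + 2 * X * Gm P Z 1 1 * m1b
    - 4 * (1 - X * Gm P Z 1 1) * mbb - 4 * X * Gm P Z (x b) 1 * m1b

/-- relation between the two series of complementary pairs -/
lemma compl (Z Y : R) (hs : s = Z + Y) :
    (1 - X * Gm P Z 1 1) * (1 + X * G P Y 1 1) = 1 := by
  have m11 := G_main h Z Y 1 1 hs
  linear_combination X * m11

/-- alternating structure -/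
lemma alt_even (b c : Fin 4) (n : ℕ) : ∀ p q : R,
    P (p * x b * (x b + x c) ^ (2 * n) * x b * q) = 0 := by
  induction n with
  | zero => intro p q; simpa using h.sq b p q
  | succ n ih =>
    intro p q
    have e : p * x b * (x b + x c) ^ (2 * (n + 1)) * x b * q
        = p * x b * x b * ((x b + x c) ^ (2 * n + 1) * x b * q)
          + (p * x b) * x c * x c * ((x b + x c) ^ (2 * n) * x b * q)
          + (p * x b * x c) * x b * (x b + x c) ^ (2 * n) * x b * q := by
      rw [show 2 * (n + 1) = 2 * n + 1 + 1 from by ring, pow_succ' _ (2 * n + 1), pow_succ' _ (2 * n)]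
      generalize (x b + x c) ^ (2 * n) = T
      noncomm_ring
    rw [e, map_add, map_add, h.sq, h.sq, ih]; simp

lemma alt_odd (b c : Fin 4) (n : ℕ) : ∀ p q : R,
    P (p * x b * (x b + x c) ^ (2 * n + 1) * x c * q) = 0 := by
  induction n with
  | zero =>
    intro p q
    have e : p * x b * (x b + x c) ^ (2 * 0 + 1) * x c * q
      = p * x b * x b * (x c * q) + (p * x b) * x c * x c * q := by
      rw [Nat.mul_zero, Nat.zero_add, pow_one]; noncomm_ring
    rw [e, map_add, h.sq, h.sq, add_zero]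
  | succ n ih =>
    intro p q
    have e : p * x b * (x b + x c) ^ (2 * (n + 1) + 1) * x c * q
        = p * x b * x b * ((x b + x c) ^ (2 * n + 2) * x c * q)
          + (p * x b) * x c * x c * ((x b + x c) ^ (2 * n + 1) * x c * q)
          + (p * x b * x c) * x b * (x b + x c) ^ (2 * n + 1) * x c * q := by
      rw [show 2 * (n + 1) + 1 = 2 * n + 1 + 1 + 1 from by ring, pow_succ' _ (2 * n + 1 + 1),
        show 2 * n + 2 = 2 * n + 1 + 1 from rfl, pow_succ' _ (2 * n + 1)]
      generalize (x b + x c) ^ (2 * n + 1) = T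
      noncomm_ring
    rw [e, map_add, map_add, h.sq, h.sq, ih]; simp

end

/-- `beta b c n`: probability that `n+1` consecutive sites alternate `b c b c …`, starting with `b` -/
noncomputable def beta (P : R →ₗ[ℝ] ℝ) (b c : Fin 4) (n : ℕ) : ℝ := P (x b * (x b + x c) ^ n)

section
variable {P : R →ₗ[ℝ] ℝ} (h : Sol P)
include h

omit h in
lemma beta_add (b c : Fin 4) (n : ℕ) :
    P ((x b + x c) ^ (n + 1)) = beta P b c n + beta P c b n := by
  rw [beta, beta, add_comm (x c) (x b), ← map_add, ← add_mul, pow_succ']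

lemma bb_odd (b c : Fin 4) (n : ℕ) (hn : Odd n) :
    P (x b * (x b + x c) ^ n * x b) = beta P b c (n + 1) := by
  obtain ⟨k, rfl⟩ := hn
  have h1 := alt_odd h b c k 1 1
  simp only [one_mul, mul_one] at h1
  have e : x b * (x b + x c) ^ (2 * k + 1 + 1) = x b * (x b + x c) ^ (2 * k + 1) * x b
      + x b * (x b + x c) ^ (2 * k + 1) * x c := by
    rw [pow_succ _ (2 * k + 1)]; noncomm_ring
  rw [beta, e, map_add, h1, add_zero]

lemma bb_even (b c : Fin 4) (n : ℕ) (hn : Even n) :
    P (x b * (x b + x c) ^ n * x b) = 0 := by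
  obtain ⟨k, rfl⟩ := hn
  have h1 := alt_even h b c k 1 1
  simp only [one_mul, mul_one] at h1
  rw [← two_mul]; exact h1

lemma betar (b c : Fin 4) (n : ℕ) :
    P ((x b + x c) ^ n * x b) = if Even n then beta P b c n else beta P c b n := by
  cases n with
  | zero => simp [beta]
  | succ m =>
    have e : (x b + x c) ^ (m + 1) * x b = x b * (x b + x c) ^ m * x b
        + x c * (x b + x c) ^ m * x b := by
      rw [pow_succ']; noncomm_ring
    rw [e, map_add]
    by_cases hm : Even m
    · rw [bb_even h b c m hm, zero_add, if_neg (by simpa [Nat.even_add_one] using hm)]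
      have h1 := bb_even h c b m hm
      have e2 : x c * (x c + x b) ^ (m + 1) = x c * (x c + x b) ^ m * x c
          + x c * (x c + x b) ^ m * x b := by
        rw [pow_succ _ m]; noncomm_ring
      rw [beta, e2, map_add, h1, zero_add, add_comm (x c) (x b)]
    · have hm' : Odd m := Nat.not_even_iff_odd.mp hm
      rw [bb_odd h b c m hm', if_pos (by simpa [Nat.even_add_one] using hm)]
      obtain ⟨k, rfl⟩ := hm'
      have h1 := alt_odd h c b k 1 1
      simp only [one_mul, mul_one] at h1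
      rw [add_comm (x c) (x b)] at h1
      rw [h1, add_zero]

end

noncomputable def evS (f : ℕ → ℝ) : ℝ⟦X⟧ := PowerSeries.mk fun n => if Even n then f n else 0
noncomputable def odS (f : ℕ → ℝ) : ℝ⟦X⟧ := PowerSeries.mk fun n => if Even n then 0 else f n

section
variable {P : R →ₗ[ℝ] ℝ} (h : Sol P)
include h

omit h in
lemma gm_b1 (b c : Fin 4) : Gm P (x b + x c) (x b) 1 = evS (beta P b c) - odS (beta P b c) := by
  ext n
  simp only [Gm, evS, odS, coeff_mk, map_sub, mul_one]
  by_cases hn : Even n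
  · simp [hn, beta]
  · simp [hn, beta, Nat.not_even_iff_odd.mp hn |>.neg_one_pow]

lemma gm_1b (b c : Fin 4) : Gm P (x b + x c) 1 (x b) = evS (beta P b c) - odS (beta P c b) := by
  ext n
  simp only [Gm, evS, odS, coeff_mk, map_sub, one_mul]
  rw [betar h]
  by_cases hn : Even n
  · simp [hn]
  · simp [hn, Nat.not_even_iff_odd.mp hn |>.neg_one_pow]

lemma gm_bb (b c : Fin 4) : X * Gm P (x b + x c) (x b) (x b) = C (1/4 : ℝ) - evS (beta P b c) := by
  ext n
  cases n with
  | zero =>
    simp [evS, beta, dens h]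
  | succ m =>
    rw [coeff_succ_X_mul, map_sub]
    simp only [Gm, evS, coeff_mk, coeff_C, Nat.succ_ne_zero, if_false, zero_sub]
    by_cases hm : Even m
    · rw [bb_even h b c m hm, if_neg (by simpa [Nat.even_add_one] using hm)]; simp
    · have hm' : Odd m := Nat.not_even_iff_odd.mp hm
      rw [bb_odd h b c m hm', if_pos (by simpa [Nat.even_add_one] using hm), hm'.neg_one_pow]; ring

lemma gm_11 (b c : Fin 4) : Gm P (x b + x c) 1 1
    = 1 - X * (evS (beta P b c) - odS (beta P b c) + evS (beta P c b) - odS (beta P c b)) := by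
  ext n
  cases n with
  | zero => simp [Gm, h.one]
  | succ m =>
    rw [map_sub, coeff_succ_X_mul]
    simp only [Gm, evS, odS, coeff_mk, coeff_one, Nat.succ_ne_zero, if_false, zero_sub, map_sub,
      map_add, one_mul, mul_one]
    rw [beta_add]
    by_cases hm : Even m
    · simp [hm, pow_succ]
    · simp [hm, pow_succ, Nat.not_even_iff_odd.mp hm |>.neg_one_pow]; ring

lemma g_11 (b c : Fin 4) : G P (x b + x c) 1 1
    = 1 + X * (evS (beta P b c) + odS (beta P b c) + evS (beta P c b) + odS (beta P c b)) := by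
  ext n
  cases n with
  | zero => simp [G, h.one]
  | succ m =>
    rw [map_add, coeff_succ_X_mul]
    simp only [G, evS, odS, coeff_mk, coeff_one, Nat.succ_ne_zero, if_false, zero_add,
      map_add, one_mul, mul_one]
    rw [beta_add]
    by_cases hm : Even m
    · simp [hm]
    · simp [hm]

lemma ident2 (a b c d : Fin 4) (hab : a ≠ b) (hdb : d ≠ b)
    (hs : s = (x b + x c) + (x a + x d)) :
    4 * evS (beta P b c) = 1 + 2 * X * (odS (beta P b c) + odS (beta P c b))
      + 4 * X ^ 2 * odS (beta P b c) * odS (beta P c b)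
      - 4 * X ^ 2 * evS (beta P b c) * evS (beta P c b) := by
  have hI := ident h a b c d hab hdb hs
  have h1 := gm_b1 (P := P) b c
  have h2 := gm_1b h b c
  have h3 := gm_bb h b c
  have h4 := gm_11 h b c
  have h4c : (4 : ℝ⟦X⟧) * C (1/4 : ℝ) = 1 := by
    have : (4 : ℝ⟦X⟧) = C (4:ℝ) := (map_ofNat _ 4).symm
    rw [this, ← map_mul]; norm_num
  set e := evS (beta P b c)
  set o := odS (beta P b c)
  set e' := evS (beta P c b)
  set o' := odS (beta P c b)
  set gbb := Gm P (x b + x c) (x b) (x b)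
  rw [h1, h2, h4] at hI
  -- multiply by X and use h3
  have hX : X * ((1 - X * (1 - X * (e - o + e' - o'))) * ((1 - X * (e - o + e' - o')) - 2 * (e - o)
      - 2 * (e - o') + 4 * gbb)
      + X * (((1 - X * (e - o + e' - o')) - 2 * (e - o))
        * ((1 - X * (e - o + e' - o')) - 2 * (e - o')))) = 0 := by
    rw [hI, mul_zero]
  linear_combination (-1 : ℝ⟦X⟧) * hX + 4 * (1 - X * (1 - X * (e - o + e' - o'))) * h3
    + (1 - X * (1 - X * (e - o + e' - o'))) * h4c

end

lemma sumsq {u v : ℝ⟦X⟧} (huv : u ^ 2 + v ^ 2 = X ^ 4 * u ^ 2 * v ^ 2) : u = 0 ∧ v = 0 := by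
  have key : ∀ n : ℕ, X ^ n ∣ u ∧ X ^ n ∣ v := by
    intro n
    induction n with
    | zero => simp
    | succ n ih =>
      obtain ⟨⟨u', hu⟩, ⟨v', hv⟩⟩ := ih
      have hX : (X ^ (2 * n) : ℝ⟦X⟧) ≠ 0 := pow_ne_zero _ PowerSeries.X_ne_zero
      have h1 : X ^ (2 * n) * (u' ^ 2 + v' ^ 2) = X ^ (2 * n) * (X * (X ^ (2 * n + 3) * u' ^ 2 * v' ^ 2)) := by
        rw [hu, hv] at huv
        calc X ^ (2 * n) * (u' ^ 2 + v' ^ 2) = (X ^ n * u') ^ 2 + (X ^ n * v') ^ 2 := by ring
          _ = _ := huv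
          _ = _ := by ring
      have h2 := mul_left_cancel₀ hX h1
      have h3 := congrArg (coeff 0) h2
      rw [map_add] at h3
      simp only [coeff_zero_eq_constantCoeff, map_pow, map_mul, constantCoeff_X, zero_mul] at h3
      have hu0 : constantCoeff u' = 0 := by nlinarith [sq_nonneg (constantCoeff u'), sq_nonneg (constantCoeff v')]
      have hv0 : constantCoeff v' = 0 := by nlinarith [sq_nonneg (constantCoeff u'), sq_nonneg (constantCoeff v')]
      obtain ⟨u'', hu''⟩ := PowerSeries.X_dvd_iff.mpr hu0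
      obtain ⟨v'', hv''⟩ := PowerSeries.X_dvd_iff.mpr hv0
      exact ⟨⟨u'', by rw [hu, hu'', pow_succ]; ring⟩, ⟨v'', by rw [hv, hv'', pow_succ]; ring⟩⟩
  constructor
  · ext n
    have := (PowerSeries.X_pow_dvd_iff.mp (key (n + 1)).1) n (Nat.lt_succ_self n)
    rw [this]; simp
  · ext n
    have := (PowerSeries.X_pow_dvd_iff.mp (key (n + 1)).2) n (Nat.lt_succ_self n)
    rw [this]; simp

section
variable {P : R →ₗ[ℝ] ℝ} (h : Sol P)
include h

lemma pair_main (a b c d : Fin 4) (hab : a ≠ b) (hdb : d ≠ b) (hac : a ≠ c) (hdc : d ≠ c)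
    (hs : s = (x b + x c) + (x a + x d)) :
    (∀ n, beta P b c n = beta P c b n) ∧ (∀ n, P ((x b + x c) ^ n) = P ((x a + x d) ^ n)) := by
  have hs1 : s = (x c + x b) + (x a + x d) := by rw [hs]; abel
  have hs2 : s = (x a + x d) + (x b + x c) := by rw [hs]; abel
  have hs3 : s = (x d + x a) + (x b + x c) := by rw [hs]; abel
  have i1 := ident2 h a b c d hab hdb hs
  have i2 := ident2 h a c b d hac hdc hs1
  have i3 := ident2 h b a d c hab.symm hac.symm hs2
  have i4 := ident2 h b d a c hdb.symm hdc.symm hs3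
  have c1 := compl h (x b + x c) (x a + x d) hs
  have c2 := compl h (x a + x d) (x b + x c) hs2
  have m1 := gm_11 h b c
  have m2 := gm_11 h a d
  have g1 := g_11 h b c
  have g2 := g_11 h a d
  set e := evS (beta P b c) with he
  set o := odS (beta P b c) with ho
  set e' := evS (beta P c b) with he'
  set o' := odS (beta P c b) with ho'
  set f := evS (beta P a d) with hf
  set r := odS (beta P a d) with hr
  set f' := evS (beta P d a) with hf'
  set r' := odS (beta P d a) with hr'
  have h4 : (4 : ℝ⟦X⟧) ≠ 0 := by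
    have : (4 : ℝ⟦X⟧) = C (4:ℝ) := (map_ofNat _ 4).symm
    rw [this]; intro hh
    have := congrArg constantCoeff hh
    simp at this
  have hee : e = e' := by
    apply mul_left_cancel₀ h4
    linear_combination i1 - i2
  have hff : f = f' := by
    apply mul_left_cancel₀ h4
    linear_combination i3 - i4
  rw [← hee] at i1 m1 g1
  rw [← hff] at i3 m2 g2
  rw [m1, g2] at c1
  rw [m2, g1] at c2
  have p1 : (1 - X * (1 - X * (e - o + e - o'))) * (1 + X * (1 + X * (e + o + e + o')))
      = 1 - X ^ 4 * (o - o') ^ 2 := by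
    linear_combination X ^ 2 * i1
  have p2 : (1 - X * (1 - X * (f - r + f - r'))) * (1 + X * (1 + X * (f + r + f + r')))
      = 1 - X ^ 4 * (r - r') ^ 2 := by
    linear_combination X ^ 2 * i3
  have p3 : (1 - X ^ 4 * (o - o') ^ 2) * (1 - X ^ 4 * (r - r') ^ 2) = 1 := by
    rw [← p1, ← p2]
    calc _ = ((1 - X * (1 - X * (e - o + e - o'))) * (1 + X * (1 + X * (f + r + f + r'))))
          * ((1 - X * (1 - X * (f - r + f - r'))) * (1 + X * (1 + X * (e + o + e + o')))) := by ring
      _ = 1 := by rw [c1, c2, one_mul]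
  have hX4 : (X ^ 4 : ℝ⟦X⟧) ≠ 0 := pow_ne_zero _ PowerSeries.X_ne_zero
  have p4 : (o - o') ^ 2 + (r - r') ^ 2 = X ^ 4 * (o - o') ^ 2 * (r - r') ^ 2 := by
    apply mul_left_cancel₀ hX4
    linear_combination (-1 : ℝ⟦X⟧) * p3
  obtain ⟨ho0, hr0⟩ := sumsq p4
  have hoo : o = o' := sub_eq_zero.mp ho0
  have hrr : r = r' := sub_eq_zero.mp hr0
  have hbeta : ∀ n, beta P b c n = beta P c b n := by
    intro n
    by_cases hn : Even n
    · have := congrArg (coeff n) hee
      simpa [he, he', evS, hn] using this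
    · have := congrArg (coeff n) hoo
      simpa [ho, ho', odS, hn] using this
  refine ⟨hbeta, ?_⟩
  rw [← hoo] at p1 c2
  rw [← hrr] at c1
  have p1' : (1 - X * (1 - X * (e - o + e - o))) * (1 + X * (1 + X * (e + o + e + o))) = 1 := by
    rw [← hoo] at ho0
    linear_combination p1
  have hne : (1 - X * (1 - X * (e - o + e - o)) : ℝ⟦X⟧) ≠ 0 := by
    intro hh; rw [hh, zero_mul] at p1'; exact zero_ne_one p1'
  rw [← hoo] at c1
  have q1 : (1 + X * (1 + X * (e + o + e + o)) : ℝ⟦X⟧) = 1 + X * (1 + X * (f + r + f + r)) := by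
    apply mul_left_cancel₀ hne
    rw [p1', c1]
  have q2 : G P (x b + x c) 1 1 = G P (x a + x d) 1 1 := by
    rw [g1, g2, ← hoo, ← hrr]
    apply mul_left_cancel₀ (PowerSeries.X_ne_zero (R := ℝ))
    linear_combination q1
  intro n
  have := congrArg (coeff n) q2
  simpa [G] using this

end

end Pool.Agent.H239R3.KC
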