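import Mathlib
import Pool.Agent.H239R3.KCb

set_option autoImplicit false

/-!
Linear algebra of the difference of two solutions which agree on shorter words.
-/

namespace Pool.Agent.H239R3.KC

noncomputable def Lf (f : W → ℝ) : R →ₗ[ℝ] ℝ :=
  (Finsupp.linearCombination ℝ f) ∘ₗ (MonoidAlgebra.coeffLinearEquiv (S := ℝ) ℝ).toLinearMap

lemma Lf_wd (f : W → ℝ) (w : W) : Lf f (wd w) = f w := by
  simp [Lf, wd]

lemma lin_ext {f g : R →ₗ[ℝ] ℝ} (hfg : ∀ w, f (wd w) = g (wd w)) : f = g := by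
  apply MonoidAlgebra.lhom_ext'
  intro w
  ext
  simpa [wd] using hfg w

lemma bil (D : R →ₗ[ℝ] ℝ) (m : R) (hw : ∀ u v : W, D (wd u * m * wd v) = 0) (p q : R) :
    D (p * m * q) = 0 := by
  have h1 : ∀ v : W, ∀ p, D (p * m * wd v) = 0 := by
    intro v p
    have : D ∘ₗ (LinearMap.mulRight ℝ (m * wd v)) = 0 := by
      apply lin_ext; intro w
      show D (wd w * (m * wd v)) = 0
      rw [← mul_assoc]; exact hw w v
    have h2 : D (p * (m * wd v)) = 0 := congrArg (fun f : R →ₗ[ℝ] ℝ => f p) this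
    rw [mul_assoc]; exact h2
  have : D ∘ₗ (LinearMap.mulLeft ℝ (p * m)) = 0 := by
    apply lin_ext; intro w
    show D (p * m * wd w) = 0
    exact h1 w p
  have h2 : D (p * m * q) = 0 := congrArg (fun f : R →ₗ[ℝ] ℝ => f q) this
  exact h2

lemma sand (D : R →ₗ[ℝ] ℝ) (a b : R) (hw : ∀ u : W, D (a * wd u * b) = 0) (p : R) :
    D (a * p * b) = 0 := by
  have : D ∘ₗ (LinearMap.mulRight ℝ b) ∘ₗ (LinearMap.mulLeft ℝ a) = 0 := by
    apply lin_ext; intro w
    show D (a * wd w * b) = 0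
    exact hw w
  have h2 : D (a * p * b) = 0 := congrArg (fun f : R →ₗ[ℝ] ℝ => f p) this
  exact h2

noncomputable def Hm (k : ℕ) : Submodule ℝ R := Submodule.span ℝ (wd '' {w | w.length = k})

lemma wd_Hm (w : W) : wd w ∈ Hm w.length := Submodule.subset_span ⟨w, rfl, rfl⟩

lemma one_Hm : (1 : R) ∈ Hm 0 := by
  have := wd_Hm 1
  rwa [wd_one] at this

lemma x_Hm (a : Fin 4) : x a ∈ Hm 1 := by
  have h := wd_Hm (FreeMonoid.of a)
  rw [FreeMonoid.length_of] at h
  exact h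

lemma Hm_mul {k l : ℕ} {p q : R} (hp : p ∈ Hm k) (hq : q ∈ Hm l) : p * q ∈ Hm (k + l) := by
  have h1 : p * q ∈ Hm k * Hm l := Submodule.mul_mem_mul hp hq
  have h2 : Hm k * Hm l ≤ Hm (k + l) := by
    rw [Hm, Hm, Submodule.span_mul_span, Submodule.span_le]
    rintro _ ⟨_, ⟨u, hu, rfl⟩, _, ⟨v, hv, rfl⟩, rfl⟩
    have hu' : u.length = k := hu
    have hv' : v.length = l := hv
    have := wd_Hm (u * v)
    rw [FreeMonoid.length_mul, hu', hv', wd_mul] at this
    exact this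
  exact h2 h1

lemma Hm_pow {k : ℕ} {p : R} (hp : p ∈ Hm k) (n : ℕ) : p ^ n ∈ Hm (n * k) := by
  induction n with
  | zero => simpa using one_Hm
  | succ n ih =>
    rw [pow_succ, show (n + 1) * k = n * k + k by ring]
    exact Hm_mul ih hp

lemma s_Hm : s ∈ Hm 1 :=
  Submodule.add_mem _ (Submodule.add_mem _ (Submodule.add_mem _ (x_Hm 0) (x_Hm 1)) (x_Hm 2)) (x_Hm 3)

noncomputable def Dl (P P' : R →ₗ[ℝ] ℝ) (N : ℕ) : R →ₗ[ℝ] ℝ :=
  Lf (fun w => if w.length = N then P (wd w) - P' (wd w) else 0)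

section
variable {P P' : R →ₗ[ℝ] ℝ} {N : ℕ}

lemma Dl_hom {p : R} (hp : p ∈ Hm N) : Dl P P' N p = P p - P' p := by
  induction hp using Submodule.span_induction with
  | mem y hy =>
    obtain ⟨w, hw, rfl⟩ := hy
    have hw' : w.length = N := hw
    rw [Dl, Lf_wd, if_pos hw']
  | zero => simp
  | add y z _ _ h1 h2 => rw [map_add, h1, h2, map_add, map_add]; ring
  | smul c y _ h1 => rw [map_smul, h1, map_smul, map_smul, smul_eq_mul, smul_eq_mul, smul_eq_mul]; ring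

lemma Dl_hom0 {k : ℕ} {p : R} (hp : p ∈ Hm k) (hk : k ≠ N) : Dl P P' N p = 0 := by
  induction hp using Submodule.span_induction with
  | mem y hy =>
    obtain ⟨w, hw, rfl⟩ := hy
    have hw' : w.length = k := hw
    rw [Dl, Lf_wd, if_neg (by rw [hw']; exact hk)]
  | zero => simp
  | add y z _ _ h1 h2 => rw [map_add, h1, h2, add_zero]
  | smul c y _ h1 => rw [map_smul, h1, smul_zero]

/-- agreement on shorter words -/
def Agree (P P' : R →ₗ[ℝ] ℝ) (N : ℕ) : Prop := ∀ w : W, w.length < N → P (wd w) = P' (wd w)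

lemma Agree.hom {k : ℕ} (hA : Agree P P' N) (hk : k < N) {p : R} (hp : p ∈ Hm k) : P p = P' p := by
  induction hp using Submodule.span_induction with
  | mem y hy =>
    obtain ⟨w, hw, rfl⟩ := hy
    have hw' : w.length = k := hw
    exact hA w (by omega)
  | zero => simp
  | add y z _ _ h1 h2 => rw [map_add, h1, h2, map_add]
  | smul c y _ h1 => rw [map_smul, h1, map_smul]

variable (h : Sol P) (h' : Sol P') (hA : Agree P P' N)
include h h' hA

lemma Dl_s (p q : R) : Dl P P' N (p * s * q) = 0 := by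
  apply bil
  intro u v
  have hm : wd u * s * wd v ∈ Hm (u.length + 1 + v.length) :=
    Hm_mul (Hm_mul (wd_Hm u) s_Hm) (wd_Hm v)
  by_cases hN : u.length + 1 + v.length = N
  · rw [hN] at hm
    rw [Dl_hom hm, h.split, h'.split, hA u (by omega), hA v (by omega)]
    ring
  · exact Dl_hom0 hm hN

omit hA in
lemma Dl_sq (a : Fin 4) (p q : R) : Dl P P' N (p * (x a * x a) * q) = 0 := by
  apply bil
  intro u v
  have hm : wd u * (x a * x a) * wd v ∈ Hm (u.length + (1 + 1) + v.length) :=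
    Hm_mul (Hm_mul (wd_Hm u) (Hm_mul (x_Hm a) (x_Hm a))) (wd_Hm v)
  by_cases hN : u.length + (1 + 1) + v.length = N
  · rw [hN] at hm
    rw [Dl_hom hm]
    have e : wd u * (x a * x a) * wd v = wd u * x a * x a * wd v := by noncomm_ring
    rw [e, h.sq, h'.sq]; ring
  · exact Dl_hom0 hm hN

lemma Dl_I1_avoid (a : Fin 4) (w : List (Fin 4)) (hw : Avoid a w) :
    Dl P P' N (x a * wd (FreeMonoid.ofList w) * x a) = 0 := by
  set u : W := FreeMonoid.ofList w with hu
  have hm : x a * wd u * x a ∈ Hm (1 + u.length + 1) :=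
    Hm_mul (Hm_mul (x_Hm a) (wd_Hm u)) (x_Hm a)
  by_cases hN : 1 + u.length + 1 = N
  · rw [hN] at hm
    rw [Dl_hom hm]
    have k1 := K_word h a w hw
    have k2 := K_word h' a w hw
    rw [K] at k1 k2
    rw [← hu] at k1 k2
    have e1 := hA.hom (k := u.length) (by omega) (wd_Hm u)
    have e2 := hA.hom (k := 1 + u.length) (by omega) (Hm_mul (x_Hm a) (wd_Hm u))
    have e3 := hA.hom (k := u.length + 1) (by omega) (Hm_mul (wd_Hm u) (x_Hm a))
    rw [e1, e2, e3] at k1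
    linarith
  · exact Dl_hom0 hm hN

lemma Dl_I1_aux (a : Fin 4) (v : List (Fin 4)) : ∀ w : List (Fin 4), Avoid a w →
    Dl P P' N (x a * wd (FreeMonoid.ofList w) * wd (FreeMonoid.ofList v) * x a) = 0 := by
  induction v with
  | nil =>
    intro w hw
    have e : wd (FreeMonoid.ofList ([] : List (Fin 4))) = 1 := wd_one
    rw [e, mul_one]; exact Dl_I1_avoid h h' hA a w hw
  | cons b v ih =>
    intro w hw
    have ec : ∀ c, wd (FreeMonoid.ofList (w ++ [c])) = wd (FreeMonoid.ofList w) * x c := by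
      intro c; rw [x, ← wd_mul]; rfl
    have eb : wd (FreeMonoid.ofList (b :: v)) = x b * wd (FreeMonoid.ofList v) := by
      rw [x, ← wd_mul]; rfl
    have hstep : ∀ c, c ≠ a →
        Dl P P' N (x a * wd (FreeMonoid.ofList w) * x c * wd (FreeMonoid.ofList v) * x a) = 0 := by
      intro c hc
      have := ih (w ++ [c]) (by
        intro d hd; simp at hd; rcases hd with hd | hd
        · exact hw d hd
        · rw [hd]; exact hc)
      rw [ec] at this
      rw [← this]; congr 1; noncomm_ring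
    rw [eb]
    by_cases hb : b = a
    · subst hb
      have e : x b * wd (FreeMonoid.ofList w) * (x b * wd (FreeMonoid.ofList v)) * x b
          = (x b * wd (FreeMonoid.ofList w)) * s * (wd (FreeMonoid.ofList v) * x b)
            - ∑ c ∈ Finset.univ.erase b,
              x b * wd (FreeMonoid.ofList w) * x c * wd (FreeMonoid.ofList v) * x b := by
        have hB : x b = s - B b := by rw [B]; abel
        have e1 : ∑ c ∈ Finset.univ.erase b,
              x b * wd (FreeMonoid.ofList w) * x c * wd (FreeMonoid.ofList v) * x b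
            = x b * wd (FreeMonoid.ofList w) * B b * (wd (FreeMonoid.ofList v) * x b) := by
          rw [B_eq_sum, Finset.mul_sum, Finset.sum_mul]
          apply Finset.sum_congr rfl
          intro c _; noncomm_ring
        rw [e1]
        generalize wd (FreeMonoid.ofList w) = U
        generalize wd (FreeMonoid.ofList v) = V
        rw [B]; noncomm_ring
      rw [e, map_sub, Dl_s h h' hA, map_sum, Finset.sum_eq_zero, sub_zero]
      intro c hc
      exact hstep c (Finset.ne_of_mem_erase hc)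
    · rw [← hstep b hb]; congr 1; noncomm_ring

lemma Dl_I1 (a : Fin 4) (p : R) : Dl P P' N (x a * p * x a) = 0 := by
  apply sand
  intro u
  have := Dl_I1_aux h h' hA a (FreeMonoid.toList u) [] (by intro c hc; simp at hc)
  have e : wd (FreeMonoid.ofList ([] : List (Fin 4))) = 1 := wd_one
  rw [e, mul_one, FreeMonoid.ofList_toList] at this
  exact this

end

/-- characters: `Y 0, Y 1, Y 2` are the three nontrivial ones -/
noncomputable def Y : Fin 3 → R
  | 0 => x 0 - x 1 + x 2 - x 3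
  | 1 => x 0 + x 1 - x 2 - x 3
  | 2 => x 0 - x 1 - x 2 + x 3

lemma Y_Hm (i : Fin 3) : Y i ∈ Hm 1 := by
  have h0 := x_Hm 0
  have h1 := x_Hm 1
  have h2 := x_Hm 2
  have h3 := x_Hm 3
  fin_cases i
  · exact Submodule.sub_mem _ (Submodule.add_mem _ (Submodule.sub_mem _ h0 h1) h2) h3
  · exact Submodule.sub_mem _ (Submodule.sub_mem _ (Submodule.add_mem _ h0 h1) h2) h3
  · exact Submodule.add_mem _ (Submodule.sub_mem _ (Submodule.sub_mem _ h0 h1) h2) h3

/-- The list of homogeneous relations used below. -/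
structure Rel (D : R →ₗ[ℝ] ℝ) : Prop where
  s : ∀ p q, D (p * s * q) = 0
  anti : ∀ i j : Fin 3, i ≠ j → ∀ p q, D (p * (Y i * Y j + Y j * Y i) * q) = 0
  sum : ∀ p q, D (p * (Y 0 * Y 0 + Y 1 * Y 1 + Y 2 * Y 2) * q) = 0
  outer : ∀ i j : Fin 3, i ≠ j → ∀ p, D (Y i * p * Y j + Y j * p * Y i) = 0
  pw : ∀ i j : Fin 3, i ≠ j → ∀ n : ℕ, D (Y i ^ n * Y j) = 0

section
variable {D : R →ₗ[ℝ] ℝ} (H : Rel D)
include H

lemma comm1 {i j : Fin 3} (hij : i ≠ j) (n : ℕ) : ∀ p q : R,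
    D (p * Y i ^ n * Y j * q) = (-1) ^ n * D (p * Y j * Y i ^ n * q) := by
  induction n with
  | zero => intro p q; simp
  | succ n ih =>
    intro p q
    have h1 := H.anti i j hij (p * Y i ^ n) q
    have h2 := ih p (Y i * q)
    have e1 : p * Y i ^ n * (Y i * Y j + Y j * Y i) * q
        = p * Y i ^ (n + 1) * Y j * q + p * Y i ^ n * Y j * (Y i * q) := by
      rw [pow_succ]; noncomm_ring
    have e2 : p * Y j * Y i ^ n * (Y i * q) = p * Y j * Y i ^ (n + 1) * q := by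
      rw [pow_succ]; noncomm_ring
    rw [e1, map_add, h2, e2] at h1
    rw [show (-1 : ℝ) ^ (n + 1) = -((-1) ^ n) by ring]
    linarith

lemma comm2 {i j : Fin 3} (hij : i ≠ j) (n m : ℕ) : ∀ p q : R,
    D (p * Y i ^ n * Y j ^ m * q) = (-1) ^ (n * m) * D (p * Y j ^ m * Y i ^ n * q) := by
  induction m with
  | zero => intro p q; simp
  | succ m ih =>
    intro p q
    have h1 := ih p (Y j * q)
    have h2 := comm1 H hij n (p * Y j ^ m) q
    have e1 : p * Y i ^ n * Y j ^ (m + 1) * q = p * Y i ^ n * Y j ^ m * (Y j * q) := by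
      rw [pow_succ]; noncomm_ring
    have e2 : p * Y j ^ m * Y i ^ n * (Y j * q) = p * Y j ^ m * Y i ^ n * Y j * q := by
      noncomm_ring
    have e3 : p * Y j ^ m * Y j * Y i ^ n * q = p * Y j ^ (m + 1) * Y i ^ n * q := by
      rw [pow_succ]; noncomm_ring
    rw [e1, h1, e2, h2, e3, Nat.mul_succ, pow_add]
    ring

/-- zero set is invariant under exchanging blocks -/
lemma swapZ {i j : Fin 3} (hij : i ≠ j) (n m : ℕ) (p q : R)
    (hz : D (p * Y j ^ m * Y i ^ n * q) = 0) : D (p * Y i ^ n * Y j ^ m * q) = 0 := by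
  rw [comm2 H hij, hz, mul_zero]

lemma outerZ {i j k : Fin 3} (hij : i ≠ j) (hik : i ≠ k) (hjk : j ≠ k) (a b c : ℕ)
    (ha : 1 ≤ a) (hb : 1 ≤ b) (hab : Odd (a + b)) :
    D (Y i ^ a * Y k ^ c * Y j ^ b) = 0 := by
  obtain ⟨a', rfl⟩ : ∃ a', a = a' + 1 := ⟨a - 1, by omega⟩
  obtain ⟨b', rfl⟩ : ∃ b', b = b' + 1 := ⟨b - 1, by omega⟩
  have h1 := H.outer i j hij (Y i ^ a' * Y k ^ c * Y j ^ b')
  rw [map_add] at h1
  have e1 : Y i * (Y i ^ a' * Y k ^ c * Y j ^ b') * Y j = Y i ^ (a' + 1) * Y k ^ c * Y j ^ (b' + 1) := by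
    rw [pow_succ' _ a', pow_succ _ b']; noncomm_ring
  -- move the first Y j to the right
  have s1 := comm1 H hij a' 1 (Y k ^ c * Y j ^ b' * Y i)
  have s2 := comm1 H (Ne.symm hjk) c (Y i ^ a') (Y j ^ b' * Y i)
  -- move the last Y i to the left
  have s3 := comm1 H (Ne.symm hij) (b' + 1) (Y i ^ a' * Y k ^ c) 1
  have s4 := comm1 H (Ne.symm hik) c (Y i ^ a') (Y j ^ (b' + 1))
  have t1 : Y j * (Y i ^ a' * Y k ^ c * Y j ^ b') * Y i
      = 1 * Y j * Y i ^ a' * (Y k ^ c * Y j ^ b' * Y i) := by noncomm_ring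
  have t2 : 1 * Y i ^ a' * Y j * (Y k ^ c * Y j ^ b' * Y i)
      = Y i ^ a' * Y j * Y k ^ c * (Y j ^ b' * Y i) := by noncomm_ring
  have t3 : Y i ^ a' * Y k ^ c * Y j * (Y j ^ b' * Y i)
      = Y i ^ a' * Y k ^ c * Y j ^ (b' + 1) * Y i * 1 := by
    rw [pow_succ' _ b']; noncomm_ring
  have t4 : Y i ^ a' * Y k ^ c * Y i * Y j ^ (b' + 1) * 1
      = Y i ^ a' * Y k ^ c * Y i * Y j ^ (b' + 1) := by noncomm_ring
  have t5 : Y i ^ a' * Y i * Y k ^ c * Y j ^ (b' + 1)
      = Y i ^ (a' + 1) * Y k ^ c * Y j ^ (b' + 1) := by rw [pow_succ _ a']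
  rw [t2] at s1
  rw [t3] at s2
  rw [t4] at s3
  rw [t5] at s4
  rw [e1, t1] at h1
  set Q := D (Y i ^ (a' + 1) * Y k ^ c * Y j ^ (b' + 1)) with hQ
  have sg : ∀ n : ℕ, ((-1 : ℝ) ^ n) * (-1) ^ n = 1 := by
    intro n; rw [← mul_pow]; norm_num
  -- D(Yj Yi^a' ...) = (-1)^a' * D(Yi^a' Yj ...)
  have r1 : D (1 * Y j * Y i ^ a' * (Y k ^ c * Y j ^ b' * Y i))
      = (-1) ^ a' * D (Y i ^ a' * Y j * Y k ^ c * (Y j ^ b' * Y i)) := by
    rw [s1, ← mul_assoc ((-1 : ℝ) ^ a'), sg]; ring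
  have r2 : D (Y i ^ a' * Y j * Y k ^ c * (Y j ^ b' * Y i))
      = (-1) ^ c * D (Y i ^ a' * Y k ^ c * Y j ^ (b' + 1) * Y i * 1) := by
    rw [s2, ← mul_assoc ((-1 : ℝ) ^ c), sg, one_mul]
  have r3 : D (Y i ^ a' * Y k ^ c * Y i * Y j ^ (b' + 1)) = (-1) ^ c * Q := s4
  rw [s3, r3] at r2
  rw [r2] at r1
  rw [r1] at h1
  have hsign : (-1 : ℝ) ^ a' * ((-1) ^ c * ((-1) ^ (b' + 1) * ((-1) ^ c * Q))) = Q := by
    have h2 : (-1 : ℝ) ^ a' * (-1) ^ (b' + 1) = 1 := by
      rw [← pow_add]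
      apply Even.neg_one_pow
      have : a' + 1 + (b' + 1) = (a' + (b' + 1)) + 1 := by ring
      rw [this] at hab
      rcases Nat.even_or_odd (a' + (b' + 1)) with he | ho
      · exact he
      · exfalso; exact (Nat.not_even_iff_odd.mpr hab) (Odd.add_one ho)
    calc (-1 : ℝ) ^ a' * ((-1) ^ c * ((-1) ^ (b' + 1) * ((-1) ^ c * Q)))
        = ((-1 : ℝ) ^ a' * (-1) ^ (b' + 1)) * ((-1) ^ c * (-1) ^ c) * Q := by ring
      _ = Q := by rw [h2, sg, one_mul, one_mul]
  rw [hsign] at h1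
  linarith

lemma Z_ab {i j k : Fin 3} (hij : i ≠ j) (hik : i ≠ k) (hjk : j ≠ k) (a b c : ℕ)
    (ha : 1 ≤ a) (hb : 1 ≤ b) (hab : Odd (a + b)) :
    D (Y i ^ a * Y j ^ b * Y k ^ c) = 0 := by
  have h1 := outerZ H hij hik hjk a b c ha hb hab
  have h2 := swapZ H hjk b c (Y i ^ a) 1 (by rw [mul_one]; exact h1)
  rwa [mul_one] at h2

lemma Z_ac {i j k : Fin 3} (hij : i ≠ j) (hik : i ≠ k) (hjk : j ≠ k) (a b c : ℕ)
    (ha : 1 ≤ a) (hc : 1 ≤ c) (hac : Odd (a + c)) :
    D (Y i ^ a * Y j ^ b * Y k ^ c) = 0 :=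
  outerZ H hik hij (Ne.symm hjk) a c b ha hc hac

lemma sum3 {i j k : Fin 3} (hij : i ≠ j) (hik : i ≠ k) (hjk : j ≠ k) (p q : R) :
    D (p * (Y i * Y i) * q) + D (p * (Y j * Y j) * q) + D (p * (Y k * Y k) * q) = 0 := by
  have h0 := H.sum p q
  have e : p * (Y 0 * Y 0 + Y 1 * Y 1 + Y 2 * Y 2) * q
      = p * (Y 0 * Y 0) * q + p * (Y 1 * Y 1) * q + p * (Y 2 * Y 2) * q := by noncomm_ring
  rw [e, map_add, map_add] at h0
  fin_cases i <;> fin_cases j <;> fin_cases k <;>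
    first
      | exact absurd rfl hij
      | exact absurd rfl hik
      | exact absurd rfl hjk
      | (simp only [Fin.zero_eta, Fin.mk_one, Fin.reduceFinMk, Fin.isValue] at *; linarith)

lemma Z_single {i j k : Fin 3} (hij : i ≠ j) (hik : i ≠ k) (hjk : j ≠ k) (a : ℕ) (ha : Odd a) :
    D (Y i ^ a) = 0 := by
  obtain ⟨n, rfl⟩ := ha
  cases n with
  | zero =>
    have := H.pw j i (Ne.symm hij) 0
    simpa using this
  | succ n =>
    have h1 := sum3 H hij hik hjk (Y i ^ (2 * n + 1)) 1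
    have e1 : Y i ^ (2 * n + 1) * (Y i * Y i) * 1 = Y i ^ (2 * (n + 1) + 1) := by
      rw [mul_one, ← pow_two, ← pow_add]; congr 1
    have e2 : Y i ^ (2 * n + 1) * (Y j * Y j) * 1 = Y i ^ (2 * n + 1) * Y j ^ 2 * Y k ^ 0 := by
      rw [pow_two, pow_zero]
    have e3 : Y i ^ (2 * n + 1) * (Y k * Y k) * 1 = Y i ^ (2 * n + 1) * Y k ^ 2 * Y j ^ 0 := by
      rw [pow_two, pow_zero]
    rw [e1, e2, e3, Z_ab H hij hik hjk _ _ _ (by omega) (by omega) (by
        exact ⟨n + 1, by ring⟩),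
      Z_ab H hik hij (Ne.symm hjk) _ _ _ (by omega) (by omega) (by exact ⟨n + 1, by ring⟩)] at h1
    linarith

lemma Z_two {i j k : Fin 3} (hij : i ≠ j) (hik : i ≠ k) (hjk : j ≠ k) (n : ℕ) :
    ∀ b : ℕ, Odd b → D (Y j ^ b * Y k ^ (2 * n + 1)) = 0 := by
  induction n with
  | zero => intro b hb; simpa using H.pw j k hjk b
  | succ n ih =>
    intro b hb
    have h1 := sum3 H hij hik hjk (Y j ^ b) (Y k ^ (2 * n + 1))
    have e1 : Y j ^ b * (Y i * Y i) * Y k ^ (2 * n + 1) = Y j ^ b * Y i ^ 2 * Y k ^ (2 * n + 1) := by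
      rw [pow_two]
    have e2 : Y j ^ b * (Y j * Y j) * Y k ^ (2 * n + 1) = Y j ^ (b + 2) * Y k ^ (2 * n + 1) := by
      rw [← pow_two, ← pow_add]
    have e3 : Y j ^ b * (Y k * Y k) * Y k ^ (2 * n + 1) = Y j ^ b * Y k ^ (2 * (n + 1) + 1) := by
      rw [mul_assoc, ← pow_two, ← pow_add]; congr 2; ring
    have hb1 : 1 ≤ b := hb.pos
    rw [e1, e2, e3, Z_ab H (Ne.symm hij) hjk hik b 2 (2 * n + 1) hb1 (by omega)
      (by obtain ⟨m, rfl⟩ := hb; exact ⟨m + 1, by ring⟩),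
      ih (b + 2) (by obtain ⟨m, rfl⟩ := hb; exact ⟨m + 1, by ring⟩)] at h1
    linarith

/-- the index `i` has the odd one out parity -/
lemma Z_main {i j k : Fin 3} (hij : i ≠ j) (hik : i ≠ k) (hjk : j ≠ k) (a b c : ℕ)
    (hab : Odd (a + b)) (hac : Odd (a + c)) :
    D (Y i ^ a * Y j ^ b * Y k ^ c) = 0 := by
  rcases Nat.eq_zero_or_pos a with rfl | ha
  · rw [zero_add] at hab hac
    obtain ⟨n, rfl⟩ := hac
    rw [pow_zero, one_mul]
    exact Z_two H hij hik hjk n b hab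
  · rcases Nat.eq_zero_or_pos b with rfl | hb
    · rcases Nat.eq_zero_or_pos c with rfl | hc
      · rw [pow_zero, pow_zero, mul_one, mul_one]
        exact Z_single H hij hik hjk a (by simpa using hab)
      · exact Z_ac H hij hik hjk a 0 c ha hc hac
    · exact Z_ab H hij hik hjk a b c ha hb hab

end

end Pool.Agent.H239R3.KC
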