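import Mathlib
import Pool.Agent.H239R3.KCc

set_option autoImplicit false

/-!
Invariance of an abstract solution under the Klein four-group.
-/

namespace Pool.Agent.H239R3.KC

/-- fixed point free involutions of the four colours -/
def V4 (π : Equiv.Perm (Fin 4)) : Prop := (∀ a, π a ≠ a) ∧ ∀ a, π (π a) = a

noncomputable def tau (π : Equiv.Perm (Fin 4)) : R →ₐ[ℝ] R :=
  MonoidAlgebra.mapDomainAlgHom ℝ ℝ (FreeMonoid.map π)

lemma tau_wd (π : Equiv.Perm (Fin 4)) (w : W) : tau π (wd w) = wd (FreeMonoid.map π w) := by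
  simp [tau, wd]

lemma tau_x (π : Equiv.Perm (Fin 4)) (a : Fin 4) : tau π (x a) = x (π a) := by
  rw [x, tau_wd, x, FreeMonoid.map_of]

lemma s_eq_sum : s = ∑ b, x b := by simp [s, Fin.sum_univ_four]

lemma tau_s (π : Equiv.Perm (Fin 4)) : tau π s = s := by
  rw [s_eq_sum, map_sum]
  simp only [tau_x]
  exact Equiv.sum_comp π x

noncomputable def Pt (P : R →ₗ[ℝ] ℝ) (π : Equiv.Perm (Fin 4)) : R →ₗ[ℝ] ℝ :=
  P ∘ₗ (tau π).toLinearMap

lemma Pt_apply (P : R →ₗ[ℝ] ℝ) (π : Equiv.Perm (Fin 4)) (p : R) : Pt P π p = P (tau π p) := rfl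

lemma Sol.tau {P : R →ₗ[ℝ] ℝ} (h : Sol P) (π : Equiv.Perm (Fin 4)) : Sol (Pt P π) where
  one := by rw [Pt_apply, map_one, h.one]
  split p q := by
    have e : KC.tau π (p * s * q) = KC.tau π p * s * KC.tau π q := by
      rw [map_mul (KC.tau π), map_mul (KC.tau π), tau_s]
    rw [Pt_apply, e, h.split]; rfl
  sq a p q := by
    have e : KC.tau π (p * x a * x a * q) = KC.tau π p * x (π a) * x (π a) * KC.tau π q := by
      rw [map_mul (KC.tau π), map_mul (KC.tau π), map_mul (KC.tau π), tau_x]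
    rw [Pt_apply, e, h.sq]
  nonneg w := by
    rw [Pt_apply, tau_wd]; exact h.nonneg _

lemma cover {a b c d : Fin 4} (hab : a ≠ b) (hac : a ≠ c) (had : a ≠ d) (hbc : b ≠ c) (hbd : b ≠ d)
    (hcd : c ≠ d) (z : Fin 4) : z = a ∨ z = b ∨ z = c ∨ z = d := by
  revert a b c d z; decide

lemma s_four {a b c d : Fin 4} (hab : a ≠ b) (hac : a ≠ c) (had : a ≠ d) (hbc : b ≠ c) (hbd : b ≠ d)
    (hcd : c ≠ d) : s = (x b + x c) + (x a + x d) := by
  have hU : (Finset.univ : Finset (Fin 4)) = {b, c, a, d} := by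
    ext z
    have := cover hab hac had hbc hbd hcd z
    simp only [Finset.mem_univ, Finset.mem_insert, Finset.mem_singleton, true_iff]
    tauto
  rw [s_eq_sum, hU, Finset.sum_insert, Finset.sum_insert, Finset.sum_insert, Finset.sum_singleton]
  · abel
  · simpa using had
  · simp only [Finset.mem_insert, Finset.mem_singleton, not_or]
    exact ⟨hac.symm, hcd⟩
  · simp only [Finset.mem_insert, Finset.mem_singleton, not_or]
    exact ⟨hbc, hab.symm, hbd⟩

section
variable {P : R →ₗ[ℝ] ℝ} (h : Sol P)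
include h

lemma half {a b c d : Fin 4} (hab : a ≠ b) (hac : a ≠ c) (had : a ≠ d) (hbc : b ≠ c) (hbd : b ≠ d)
    (hcd : c ≠ d) (n : ℕ) :
    P ((x b + x c) ^ n * x b) = P ((x b + x c) ^ (n + 1)) / 2 := by
  have hm := (pair_main h a b c d hab hbd.symm hac hcd.symm
    (s_four hab hac had hbc hbd hcd)).1 n
  rw [betar h, beta_add, ← hm]
  split_ifs <;> ring

lemma comp_pow {a b c d : Fin 4} (hab : a ≠ b) (hac : a ≠ c) (had : a ≠ d) (hbc : b ≠ c) (hbd : b ≠ d)
    (hcd : c ≠ d) (n : ℕ) :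
    P ((x b + x c) ^ n) = P ((x a + x d) ^ n) :=
  (pair_main h a b c d hab hbd.symm hac hcd.symm (s_four hab hac had hbc hbd hcd)).2 n

lemma tau_pow {π : Equiv.Perm (Fin 4)} (hπ : V4 π) {a b c d : Fin 4} (hab : a ≠ b) (hac : a ≠ c)
    (had : a ≠ d) (hbc : b ≠ c) (hbd : b ≠ d) (hcd : c ≠ d) (n : ℕ) :
    Pt P π ((x b + x c) ^ n) = P ((x b + x c) ^ n) := by
  rw [Pt_apply, map_pow, map_add, tau_x, tau_x]
  obtain ⟨hf, hi⟩ := hπ
  have hb := cover hab hac had hbc hbd hcd (π b)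
  have hc := cover hab hac had hbc hbd hcd (π c)
  rcases hb with hb | hb | hb | hb
  · -- π b = a
    rcases hc with hc | hc | hc | hc
    · exact absurd (π.injective (hb.trans hc.symm)) hbc
    · exfalso; have := hi c; rw [hc, hb] at this; exact hac this
    · exact absurd hc (hf c)
    · rw [hb, hc, comp_pow h hab hac had hbc hbd hcd]
  · exact absurd hb (hf b)
  · -- π b = c
    have : π c = b := by rw [← hb, hi]
    rw [hb, this, add_comm]
  · -- π b = d
    rcases hc with hc | hc | hc | hc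
    · rw [hb, hc, comp_pow h hab hac had hbc hbd hcd, add_comm (x d)]
    · exfalso; have := hi c; rw [hc, hb] at this; exact hcd this.symm
    · exact absurd hc (hf c)
    · exact absurd (π.injective (hb.trans hc.symm)) hbc

lemma Dl_Cx {π : Equiv.Perm (Fin 4)} (hπ : V4 π) {N : ℕ} {a b c d : Fin 4} (hab : a ≠ b)
    (hac : a ≠ c) (had : a ≠ d) (hbc : b ≠ c) (hbd : b ≠ d) (hcd : c ≠ d) (n : ℕ) :
    Dl P (Pt P π) N ((x b + x c) ^ n * x b) = 0 := by
  have hm : (x b + x c) ^ n * x b ∈ Hm (n * 1 + 1) :=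
    Hm_mul (Hm_pow (Submodule.add_mem _ (x_Hm b) (x_Hm c)) n) (x_Hm b)
  by_cases hN : n * 1 + 1 = N
  · rw [hN] at hm
    rw [Dl_hom hm, half h hab hac had hbc hbd hcd, half (h.tau π) hab hac had hbc hbd hcd,
      tau_pow h hπ hab hac had hbc hbd hcd]
    ring
  · exact Dl_hom0 hm hN

end

section
variable {D : R →ₗ[ℝ] ℝ} (hDs : ∀ p q, D (p * s * q) = 0)
include hDs

lemma s_pow_repl (Z q : R) (n : ℕ) : ∀ p : R, D (p * (s + Z) ^ n * q) = D (p * Z ^ n * q) := by
  induction n with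
  | zero => intro p; simp
  | succ n ih =>
    intro p
    have e : p * (s + Z) ^ (n + 1) * q = p * s * ((s + Z) ^ n * q) + (p * Z) * (s + Z) ^ n * q := by
      rw [pow_succ']; noncomm_ring
    rw [e, map_add, hDs, zero_add, ih]
    congr 1
    rw [pow_succ']; noncomm_ring

lemma Y_pow_x (Z : R) (b c : Fin 4) (ε : ℝ) (hε : ε * ε = 1)
    (hZ : (2 : ℝ) • (x b + x c) = s + ε • Z) (n : ℕ)
    (hD : D ((x b + x c) ^ n * x b) = 0) : D (Z ^ n * x b) = 0 := by
  have h1 := s_pow_repl hDs (ε • Z) (x b) n 1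
  rw [← hZ, smul_pow, smul_pow, mul_smul_comm, mul_smul_comm, smul_mul_assoc, smul_mul_assoc,
    map_smul, map_smul, one_mul, one_mul, hD, smul_zero] at h1
  have hne : ε ^ n ≠ 0 := by
    apply pow_ne_zero; intro h0; rw [h0] at hε; norm_num at hε
  rw [smul_eq_mul] at h1
  exact (mul_eq_zero.mp h1.symm).resolve_left hne

end

section
variable {P : R →ₗ[ℝ] ℝ} (h : Sol P) {π : Equiv.Perm (Fin 4)} (hπ : V4 π) {N : ℕ}
  (hA : Agree P (Pt P π) N)
include h hπ hA

lemma Dl_Yx (i : Fin 3) (n : ℕ) (l : Fin 4) : Dl P (Pt P π) N (Y i ^ n * x l) = 0 := by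
  have hs : ∀ p q, Dl P (Pt P π) N (p * s * q) = 0 := Dl_s h (h.tau π) hA
  have key : ∀ (a b c d : Fin 4) (hab : a ≠ b) (hac : a ≠ c) (had : a ≠ d) (hbc : b ≠ c)
      (hbd : b ≠ d) (hcd : c ≠ d) (ε : ℝ) (hε : ε * ε = 1)
      (hZ : (2 : ℝ) • (x b + x c) = s + ε • Y i), Dl P (Pt P π) N (Y i ^ n * x b) = 0 := by
    intro a b c d hab hac had hbc hbd hcd ε hε hZ
    exact Y_pow_x hs (Y i) b c ε hε hZ n (Dl_Cx h hπ hab hac had hbc hbd hcd n)
  fin_cases i <;> fin_cases l
  · exact key 1 0 2 3 (by decide) (by decide) (by decide) (by decide) (by decide) (by decide) 1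
      (by norm_num) (by simp only [Y, s, one_smul, two_smul]; abel)
  · exact key 0 1 3 2 (by decide) (by decide) (by decide) (by decide) (by decide) (by decide) (-1)
      (by norm_num) (by simp only [Y, s, neg_smul, one_smul, two_smul]; abel)
  · exact key 1 2 0 3 (by decide) (by decide) (by decide) (by decide) (by decide) (by decide) 1
      (by norm_num) (by simp only [Y, s, one_smul, two_smul]; abel)
  · exact key 0 3 1 2 (by decide) (by decide) (by decide) (by decide) (by decide) (by decide) (-1)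
      (by norm_num) (by simp only [Y, s, neg_smul, one_smul, two_smul]; abel)
  · exact key 2 0 1 3 (by decide) (by decide) (by decide) (by decide) (by decide) (by decide) 1
      (by norm_num) (by simp only [Y, s, one_smul, two_smul]; abel)
  · exact key 2 1 0 3 (by decide) (by decide) (by decide) (by decide) (by decide) (by decide) 1
      (by norm_num) (by simp only [Y, s, one_smul, two_smul]; abel)
  · exact key 0 2 3 1 (by decide) (by decide) (by decide) (by decide) (by decide) (by decide) (-1)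
      (by norm_num) (by simp only [Y, s, neg_smul, one_smul, two_smul]; abel)
  · exact key 0 3 2 1 (by decide) (by decide) (by decide) (by decide) (by decide) (by decide) (-1)
      (by norm_num) (by simp only [Y, s, neg_smul, one_smul, two_smul]; abel)
  · exact key 1 0 3 2 (by decide) (by decide) (by decide) (by decide) (by decide) (by decide) 1
      (by norm_num) (by simp only [Y, s, one_smul, two_smul]; abel)
  · exact key 0 1 2 3 (by decide) (by decide) (by decide) (by decide) (by decide) (by decide) (-1)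
      (by norm_num) (by simp only [Y, s, neg_smul, one_smul, two_smul]; abel)
  · exact key 0 2 1 3 (by decide) (by decide) (by decide) (by decide) (by decide) (by decide) (-1)
      (by norm_num) (by simp only [Y, s, neg_smul, one_smul, two_smul]; abel)
  · exact key 1 3 0 2 (by decide) (by decide) (by decide) (by decide) (by decide) (by decide) 1
      (by norm_num) (by simp only [Y, s, one_smul, two_smul]; abel)

lemma Dl_Rel : Rel (Dl P (Pt P π) N) := by
  have hs : ∀ p q, Dl P (Pt P π) N (p * s * q) = 0 := Dl_s h (h.tau π) hA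
  have hq : ∀ a p q, Dl P (Pt P π) N (p * (x a * x a) * q) = 0 := Dl_sq h (h.tau π)
  have ho : ∀ a p, Dl P (Pt P π) N (x a * p * x a) = 0 := Dl_I1 h (h.tau π) hA
  set D := Dl P (Pt P π) N with hD
  have a01 : ∀ p q, D (p * (Y 0 * Y 1 + Y 1 * Y 0) * q) = 0 := by
    intro p q
    have e : p * (Y 0 * Y 1 + Y 1 * Y 0) * q = (4 : ℤ) • (p * (x 0 * x 0) * q)
        - (4 : ℤ) • (p * (x 1 * x 1) * q) - (4 : ℤ) • (p * (x 2 * x 2) * q)
        + (4 : ℤ) • (p * (x 3 * x 3) * q) - p * s * (Y 2 * q) - (p * Y 2) * s * q := by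
      simp only [Y, s]; noncomm_ring
    rw [e]; simp only [map_add, map_sub, map_zsmul, hs, hq]; simp
  have a02 : ∀ p q, D (p * (Y 0 * Y 2 + Y 2 * Y 0) * q) = 0 := by
    intro p q
    have e : p * (Y 0 * Y 2 + Y 2 * Y 0) * q = (4 : ℤ) • (p * (x 0 * x 0) * q)
        + (4 : ℤ) • (p * (x 1 * x 1) * q) - (4 : ℤ) • (p * (x 2 * x 2) * q)
        - (4 : ℤ) • (p * (x 3 * x 3) * q) - p * s * (Y 1 * q) - (p * Y 1) * s * q := by
      simp only [Y, s]; noncomm_ring
    rw [e]; simp only [map_add, map_sub, map_zsmul, hs, hq]; simp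
  have a12 : ∀ p q, D (p * (Y 1 * Y 2 + Y 2 * Y 1) * q) = 0 := by
    intro p q
    have e : p * (Y 1 * Y 2 + Y 2 * Y 1) * q = (4 : ℤ) • (p * (x 0 * x 0) * q)
        - (4 : ℤ) • (p * (x 1 * x 1) * q) + (4 : ℤ) • (p * (x 2 * x 2) * q)
        - (4 : ℤ) • (p * (x 3 * x 3) * q) - p * s * (Y 0 * q) - (p * Y 0) * s * q := by
      simp only [Y, s]; noncomm_ring
    rw [e]; simp only [map_add, map_sub, map_zsmul, hs, hq]; simp
  have hs1 : ∀ q, D (s * q) = 0 := by intro q; have := hs 1 q; rwa [one_mul] at this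
  have hs2 : ∀ p, D (p * s) = 0 := by intro p; have := hs p 1; rwa [mul_one] at this
  have o01 : ∀ p, D (Y 0 * p * Y 1 + Y 1 * p * Y 0) = 0 := by
    intro p
    have e : Y 0 * p * Y 1 + Y 1 * p * Y 0 = (4 : ℤ) • (x 0 * p * x 0)
        - (4 : ℤ) • (x 1 * p * x 1) - (4 : ℤ) • (x 2 * p * x 2)
        + (4 : ℤ) • (x 3 * p * x 3) - s * (p * Y 2) - (Y 2 * p) * s := by
      simp only [Y, s]; noncomm_ring
    rw [e]; simp only [map_add, map_sub, map_zsmul, hs1, hs2, ho]; simp
  have o02 : ∀ p, D (Y 0 * p * Y 2 + Y 2 * p * Y 0) = 0 := by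
    intro p
    have e : Y 0 * p * Y 2 + Y 2 * p * Y 0 = (4 : ℤ) • (x 0 * p * x 0)
        + (4 : ℤ) • (x 1 * p * x 1) - (4 : ℤ) • (x 2 * p * x 2)
        - (4 : ℤ) • (x 3 * p * x 3) - s * (p * Y 1) - (Y 1 * p) * s := by
      simp only [Y, s]; noncomm_ring
    rw [e]; simp only [map_add, map_sub, map_zsmul, hs1, hs2, ho]; simp
  have o12 : ∀ p, D (Y 1 * p * Y 2 + Y 2 * p * Y 1) = 0 := by
    intro p
    have e : Y 1 * p * Y 2 + Y 2 * p * Y 1 = (4 : ℤ) • (x 0 * p * x 0)
        - (4 : ℤ) • (x 1 * p * x 1) + (4 : ℤ) • (x 2 * p * x 2)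
        - (4 : ℤ) • (x 3 * p * x 3) - s * (p * Y 0) - (Y 0 * p) * s := by
      simp only [Y, s]; noncomm_ring
    rw [e]; simp only [map_add, map_sub, map_zsmul, hs1, hs2, ho]; simp
  refine ⟨hs, ?_, ?_, ?_, ?_⟩
  · intro i j hij p q
    fin_cases i <;> fin_cases j
    · exact absurd rfl hij
    · exact a01 p q
    · exact a02 p q
    · have := a01 p q; rwa [add_comm (Y 0 * Y 1)] at this
    · exact absurd rfl hij
    · exact a12 p q
    · have := a02 p q; rwa [add_comm (Y 0 * Y 2)] at this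
    · have := a12 p q; rwa [add_comm (Y 1 * Y 2)] at this
    · exact absurd rfl hij
  · intro p q
    have e : p * (Y 0 * Y 0 + Y 1 * Y 1 + Y 2 * Y 2) * q = (4 : ℤ) • (p * (x 0 * x 0) * q)
        + (4 : ℤ) • (p * (x 1 * x 1) * q) + (4 : ℤ) • (p * (x 2 * x 2) * q)
        + (4 : ℤ) • (p * (x 3 * x 3) * q) - p * s * (s * q) := by
      simp only [Y, s]; noncomm_ring
    rw [e]; simp only [map_add, map_sub, map_zsmul, hs, hq]; simp
  · intro i j hij p
    fin_cases i <;> fin_cases j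
    · exact absurd rfl hij
    · exact o01 p
    · exact o02 p
    · have := o01 p; rwa [add_comm (Y 0 * p * Y 1)] at this
    · exact absurd rfl hij
    · exact o12 p
    · have := o02 p; rwa [add_comm (Y 0 * p * Y 2)] at this
    · have := o12 p; rwa [add_comm (Y 1 * p * Y 2)] at this
    · exact absurd rfl hij
  · intro i j _ n
    have h1 := Dl_Yx h hπ hA i n
    fin_cases j
    · show D (Y i ^ n * (x 0 - x 1 + x 2 - x 3)) = 0
      rw [mul_sub, mul_add, mul_sub, map_sub, map_add, map_sub, h1, h1, h1, h1]; ring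
    · show D (Y i ^ n * (x 0 + x 1 - x 2 - x 3)) = 0
      rw [mul_sub, mul_sub, mul_add, map_sub, map_sub, map_add, h1, h1, h1, h1]; ring
    · show D (Y i ^ n * (x 0 - x 1 - x 2 + x 3)) = 0
      rw [mul_add, mul_sub, mul_sub, map_add, map_sub, map_sub, h1, h1, h1, h1]; ring

end

lemma V4_cases {π : Equiv.Perm (Fin 4)} (hπ : V4 π) :
    (π 0 = 1 ∧ π 1 = 0 ∧ π 2 = 3 ∧ π 3 = 2) ∨ (π 0 = 2 ∧ π 1 = 3 ∧ π 2 = 0 ∧ π 3 = 1)
      ∨ (π 0 = 3 ∧ π 1 = 2 ∧ π 2 = 1 ∧ π 3 = 0) := by
  obtain ⟨hf, hi⟩ := hπ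
  have key : ∀ p0 p1 p2 p3 : Fin 4, p0 ≠ 0 → p1 ≠ 1 → p2 ≠ 2 → p3 ≠ 3 →
      p0 ≠ p1 → p0 ≠ p2 → p0 ≠ p3 → p1 ≠ p2 → p1 ≠ p3 → p2 ≠ p3 →
      (p0 = 1 → p1 = 0) → (p0 = 2 → p2 = 0) → (p0 = 3 → p3 = 0) →
      (p0 = 1 ∧ p1 = 0 ∧ p2 = 3 ∧ p3 = 2) ∨ (p0 = 2 ∧ p1 = 3 ∧ p2 = 0 ∧ p3 = 1)
      ∨ (p0 = 3 ∧ p1 = 2 ∧ p2 = 1 ∧ p3 = 0) := by
    intro p0 p1 p2 p3
    fin_cases p0 <;> fin_cases p1 <;> fin_cases p2 <;> fin_cases p3 <;> simp
  apply key (π 0) (π 1) (π 2) (π 3) (hf 0) (hf 1) (hf 2) (hf 3)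
  · exact fun e => absurd (π.injective e) (by decide)
  · exact fun e => absurd (π.injective e) (by decide)
  · exact fun e => absurd (π.injective e) (by decide)
  · exact fun e => absurd (π.injective e) (by decide)
  · exact fun e => absurd (π.injective e) (by decide)
  · exact fun e => absurd (π.injective e) (by decide)
  · intro e; have := hi 0; rwa [e] at this
  · intro e; have := hi 0; rwa [e] at this
  · intro e; have := hi 0; rwa [e] at this

lemma tau_Y {π : Equiv.Perm (Fin 4)} (hπ : V4 π) : ∃ σ : Fin 3 → ℝ,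
    (∀ i, σ i * σ i = 1) ∧ σ 0 * σ 1 * σ 2 = 1 ∧ ∀ i, tau π (Y i) = σ i • Y i := by
  rcases V4_cases hπ with ⟨h0, h1, h2, h3⟩ | ⟨h0, h1, h2, h3⟩ | ⟨h0, h1, h2, h3⟩
  · refine ⟨![-1, 1, -1], ?_, ?_, ?_⟩
    · intro i; fin_cases i <;> simp
    · simp
    · intro i; fin_cases i <;> simp [Y, tau_x, h0, h1, h2, h3] <;> abel
  · refine ⟨![1, -1, -1], ?_, ?_, ?_⟩
    · intro i; fin_cases i <;> simp
    · simp
    · intro i; fin_cases i <;> simp [Y, tau_x, h0, h1, h2, h3] <;> abel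
  · refine ⟨![-1, -1, 1], ?_, ?_, ?_⟩
    · intro i; fin_cases i <;> simp
    · simp
    · intro i; fin_cases i <;> simp [Y, tau_x, h0, h1, h2, h3] <;> abel

section
variable {P : R →ₗ[ℝ] ℝ} (h : Sol P) {π : Equiv.Perm (Fin 4)} (hπ : V4 π) {N : ℕ}
  (hA : Agree P (Pt P π) N)
include h hπ hA

lemma Dl_mono (a b c : ℕ) : Dl P (Pt P π) N (Y 0 ^ a * Y 1 ^ b * Y 2 ^ c) = 0 := by
  have H := Dl_Rel h hπ hA
  have h01 : (0 : Fin 3) ≠ 1 := by decide
  have h02 : (0 : Fin 3) ≠ 2 := by decide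
  have h12 : (1 : Fin 3) ≠ 2 := by decide
  by_cases hab : Odd (a + b)
  · by_cases hac : Odd (a + c)
    · exact Z_main H h01 h02 h12 a b c hab hac
    · have hbc : Odd (b + c) := by
        rw [Nat.not_odd_iff_even] at hac
        have : b + c + (a + a) = (a + b) + (a + c) := by ring
        have h3 : Odd ((a + b) + (a + c)) := Odd.add_even hab hac
        rw [← this] at h3
        rcases Nat.even_or_odd (b + c) with he | ho
        · exact absurd (Even.add he ⟨a, rfl⟩) (Nat.not_even_iff_odd.mpr h3)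
        · exact ho
      have h1 := Z_main H h01.symm h12 h02 b a c (by rwa [add_comm] at hab) hbc
      have h2 := swapZ H h01 a b 1 (Y 2 ^ c) (by rw [one_mul]; exact h1)
      rwa [one_mul] at h2
  · by_cases hac : Odd (a + c)
    · have hbc : Odd (c + b) := by
        rw [Nat.not_odd_iff_even] at hab
        have : c + b + (a + a) = (a + c) + (a + b) := by ring
        have h3 : Odd ((a + c) + (a + b)) := Odd.add_even hac hab
        rw [← this] at h3
        rcases Nat.even_or_odd (c + b) with he | ho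
        · exact absurd (Even.add he ⟨a, rfl⟩) (Nat.not_even_iff_odd.mpr h3)
        · exact ho
      have h1 := Z_main H h02.symm h12.symm h01 c a b (by rwa [add_comm] at hac) hbc
      have h2 := swapZ H h02 a c 1 (Y 1 ^ b) (by rw [one_mul]; exact h1)
      rw [one_mul] at h2
      have h3 := swapZ H h12 b c (Y 0 ^ a) 1 (by rw [mul_one]; exact h2)
      rwa [mul_one] at h3
    · -- all parities equal
      have hm : Y 0 ^ a * Y 1 ^ b * Y 2 ^ c ∈ Hm (a * 1 + b * 1 + c * 1) :=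
        Hm_mul (Hm_mul (Hm_pow (Y_Hm 0) a) (Hm_pow (Y_Hm 1) b)) (Hm_pow (Y_Hm 2) c)
      by_cases hN : a * 1 + b * 1 + c * 1 = N
      · rw [hN] at hm
        rw [Dl_hom hm]
        obtain ⟨σ, hσ, hσ3, hY⟩ := tau_Y hπ
        have e : tau π (Y 0 ^ a * Y 1 ^ b * Y 2 ^ c)
            = (σ 0 ^ a * σ 1 ^ b * σ 2 ^ c) • (Y 0 ^ a * Y 1 ^ b * Y 2 ^ c) := by
          rw [map_mul, map_mul, map_pow, map_pow, map_pow, hY, hY, hY, smul_pow, smul_pow, smul_pow]
          simp only [smul_mul_assoc, mul_smul_comm, smul_smul]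
          congr 1; ring
        have e2 : σ 0 ^ a * σ 1 ^ b * σ 2 ^ c = 1 := by
          rw [Nat.not_odd_iff_even] at hab hac
          have hev : ∀ i, ∀ m : ℕ, σ i ^ (m + m) = 1 := by
            intro i m; rw [← two_mul, pow_mul, pow_two, hσ, one_pow]
          rcases Nat.even_or_odd a with ha | ha
          · have hb : Even b := (Nat.even_add.mp hab).mp ha
            have hc : Even c := (Nat.even_add.mp hac).mp ha
            obtain ⟨a', rfl⟩ := ha
            obtain ⟨b', rfl⟩ := hb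
            obtain ⟨c', rfl⟩ := hc
            rw [hev, hev, hev]; ring
          · have hna : ¬ Even a := Nat.not_even_iff_odd.mpr ha
            have hb : Odd b := Nat.not_even_iff_odd.mp (fun hb => hna ((Nat.even_add.mp hab).mpr hb))
            have hc : Odd c := Nat.not_even_iff_odd.mp (fun hc => hna ((Nat.even_add.mp hac).mpr hc))
            obtain ⟨a', rfl⟩ := ha
            obtain ⟨b', rfl⟩ := hb
            obtain ⟨c', rfl⟩ := hc
            have ho : ∀ i, ∀ m : ℕ, σ i ^ (2 * m + 1) = σ i := by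
              intro i m; rw [pow_succ, two_mul, hev, one_mul]
            rw [ho, ho, ho]; exact hσ3
        rw [Pt_apply, e, e2, one_smul, sub_self]
      · exact Dl_hom0 hm hN

lemma Dl_all (w : List (Fin 4)) : ∀ a b c : ℕ,
    Dl P (Pt P π) N (Y 0 ^ a * Y 1 ^ b * Y 2 ^ c * wd (FreeMonoid.ofList w)) = 0 := by
  have H := Dl_Rel h hπ hA
  have h01 : (0 : Fin 3) ≠ 1 := by decide
  have h02 : (0 : Fin 3) ≠ 2 := by decide
  have h12 : (1 : Fin 3) ≠ 2 := by decide
  induction w with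
  | nil =>
    intro a b c
    have e : wd (FreeMonoid.ofList ([] : List (Fin 4))) = 1 := wd_one
    rw [e, mul_one]; exact Dl_mono h hπ hA a b c
  | cons l w ih =>
    intro a b c
    have eb : wd (FreeMonoid.ofList (l :: w)) = x l * wd (FreeMonoid.ofList w) := by
      rw [x, ← wd_mul]; rfl
    rw [eb]
    set V := wd (FreeMonoid.ofList w) with hV
    set M := Y 0 ^ a * Y 1 ^ b * Y 2 ^ c with hM
    have d2 : Dl P (Pt P π) N (M * Y 2 * V) = 0 := by
      have := ih a b (c + 1)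
      rw [pow_succ] at this
      rw [← this, hM]; congr 1; noncomm_ring
    have d1 : Dl P (Pt P π) N (M * Y 1 * V) = 0 := by
      have h1 := comm1 H h12.symm c (Y 0 ^ a * Y 1 ^ b) V
      have h2 := ih a (b + 1) c
      have e : Y 0 ^ a * Y 1 ^ b * Y 1 * Y 2 ^ c * V = Y 0 ^ a * Y 1 ^ (b + 1) * Y 2 ^ c * V := by
        rw [pow_succ]; noncomm_ring
      rw [e, h2, mul_zero] at h1
      exact h1
    have d0 : Dl P (Pt P π) N (M * Y 0 * V) = 0 := by
      have h1 := comm1 H h02.symm c (Y 0 ^ a * Y 1 ^ b) V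
      have h2 := comm1 H h01.symm b (Y 0 ^ a) (Y 2 ^ c * V)
      have h3 := ih (a + 1) b c
      have e : Y 0 ^ a * Y 1 ^ b * Y 0 * Y 2 ^ c * V = Y 0 ^ a * Y 1 ^ b * Y 0 * (Y 2 ^ c * V) := by
        noncomm_ring
      have e2 : Y 0 ^ a * Y 0 * Y 1 ^ b * (Y 2 ^ c * V) = Y 0 ^ (a + 1) * Y 1 ^ b * Y 2 ^ c * V := by
        rw [pow_succ]; noncomm_ring
      rw [e2, h3, mul_zero] at h2
      rw [e, h2, mul_zero] at h1
      exact h1
    have ds : Dl P (Pt P π) N (M * s * V) = 0 := H.s M V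
    have key : (4 : ℝ) * Dl P (Pt P π) N (M * (x l * V)) = 0 := by
      have e : ∃ ε0 ε1 ε2 : ℤ, (4 : ℤ) • (M * (x l * V)) = M * s * V + ε0 • (M * Y 0 * V)
          + ε1 • (M * Y 1 * V) + ε2 • (M * Y 2 * V) := by
        fin_cases l
        · exact ⟨1, 1, 1, by simp only [Y, s]; noncomm_ring⟩
        · exact ⟨-1, 1, -1, by simp only [Y, s]; noncomm_ring⟩
        · exact ⟨1, -1, -1, by simp only [Y, s]; noncomm_ring⟩
        · exact ⟨-1, -1, 1, by simp only [Y, s]; noncomm_ring⟩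
      obtain ⟨ε0, ε1, ε2, e⟩ := e
      have e' := congrArg (Dl P (Pt P π) N) e
      simp only [map_add, map_zsmul, ds, d0, d1, d2, smul_zero, add_zero] at e'
      simpa using e'
    linarith

lemma Dl_zero (w : W) : Dl P (Pt P π) N (wd w) = 0 := by
  have := Dl_all h hπ hA (FreeMonoid.toList w) 0 0 0
  simpa using this

end

theorem invariance {P : R →ₗ[ℝ] ℝ} (h : Sol P) {π : Equiv.Perm (Fin 4)} (hπ : V4 π) (w : W) :
    P (wd w) = P (wd (FreeMonoid.map π w)) := by
  have key : ∀ N, Agree P (Pt P π) N := by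
    intro N
    induction N with
    | zero => intro w hw; exact absurd hw (Nat.not_lt_zero _)
    | succ N ih =>
      intro w hw
      rcases Nat.lt_succ_iff_lt_or_eq.mp hw with h1 | h1
      · exact ih w h1
      · have h2 := Dl_zero h hπ ih w
        rw [Dl, Lf_wd, if_pos h1] at h2
        linarith
  have := key (w.length + 1) w (Nat.lt_succ_self _)
  rw [this, Pt_apply, tau_wd]

end Pool.Agent.H239R3.KC
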