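import Mathlib
import Pool.Agent.H239R3.KCd

set_option autoImplicit false

/-!
From measures on `ℤ → Fin 4` to functionals on the free algebra.
-/

open MeasureTheory ProbabilityTheory

namespace Pool.Agent.H239R3.KC

/-- cylinder: the word `l` is read from site `n` on -/
def cyl : ℤ → List (Fin 4) → Set (ℤ → Fin 4)
  | _, [] => Set.univ
  | n, a :: l => {x | x n = a} ∩ cyl (n + 1) l

lemma cyl_nil (n : ℤ) : cyl n [] = Set.univ := rfl
lemma cyl_cons (n : ℤ) (a : Fin 4) (l : List (Fin 4)) :
    cyl n (a :: l) = {x | x n = a} ∩ cyl (n + 1) l := rfl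

lemma cyl_append (l l' : List (Fin 4)) : ∀ n : ℤ,
    cyl n (l ++ l') = cyl n l ∩ cyl (n + l.length) l' := by
  induction l with
  | nil => intro n; simp [cyl_nil]
  | cons a l ih =>
    intro n
    rw [List.cons_append, cyl_cons, cyl_cons, ih, Set.inter_assoc]
    have : n + 1 + (l.length : ℤ) = n + ((a :: l).length : ℤ) := by
      simp only [List.length_cons]; push_cast; ring
    rw [this]

lemma cyl_shift (l : List (Fin 4)) : ∀ n : ℤ,
    (fun x : ℤ → Fin 4 => fun n : ℤ => x (n + 1)) ⁻¹' (cyl n l) = cyl (n + 1) l := by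
  induction l with
  | nil => intro n; rfl
  | cons a l ih =>
    intro n
    rw [cyl_cons, cyl_cons, Set.preimage_inter, ih]
    rfl

lemma cyl_map (σ : Fin 4 → Fin 4) (hσ : ∀ a, σ (σ a) = a) (l : List (Fin 4)) : ∀ n : ℤ,
    (fun x : ℤ → Fin 4 => fun n : ℤ => σ (x n)) ⁻¹' (cyl n l) = cyl n (l.map σ) := by
  induction l with
  | nil => intro n; rfl
  | cons a l ih =>
    intro n
    rw [cyl_cons, List.map_cons, cyl_cons, Set.preimage_inter, ih]
    congr 1
    ext x
    simp only [Set.mem_preimage, Set.mem_ofPred_eq]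
    constructor
    · intro h; rw [← h, hσ]
    · intro h; rw [h, hσ]

lemma mem_cyl (l : List (Fin 4)) : ∀ (n : ℤ) (x : ℤ → Fin 4),
    x ∈ cyl n l ↔ ∀ (i : ℕ) (hi : i < l.length), x (n + i) = l[i] := by
  induction l with
  | nil => intro n x; simp [cyl_nil]
  | cons a l ih =>
    intro n x
    rw [cyl_cons, Set.mem_inter_iff, ih]
    constructor
    · rintro ⟨h1, h2⟩ i hi
      cases i with
      | zero => simpa using h1
      | succ i =>
        have := h2 i (by simpa using hi)
        rw [show n + ((i + 1 : ℕ) : ℤ) = n + 1 + i by push_cast; ring, this]; simp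
    · intro h
      refine ⟨by
        have h0 := h 0 (by simp)
        have e0 : n + ((0 : ℕ) : ℤ) = n := by simp
        rw [e0] at h0
        exact h0, ?_⟩
      intro i hi
      have := h (i + 1) (by simpa using hi)
      rw [show n + 1 + (i : ℤ) = n + ((i + 1 : ℕ) : ℤ) by push_cast; ring, this]; simp

/-- sigma algebra of a set of sites -/
@[reducible] def sg (A : Set ℤ) : MeasurableSpace (ℤ → Fin 4) :=
  ⨆ a ∈ A, MeasurableSpace.comap (fun x : ℤ → Fin 4 => x a) (⊤ : MeasurableSpace (Fin 4))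

lemma meas_site {A : Set ℤ} {k : ℤ} (hk : k ∈ A) (c : Fin 4) :
    MeasurableSet[sg A] {x : ℤ → Fin 4 | x k = c} := by
  have h1 : MeasurableSpace.comap (fun x : ℤ → Fin 4 => x k) (⊤ : MeasurableSpace (Fin 4)) ≤ sg A :=
    le_iSup₂_of_le k hk le_rfl
  apply h1
  exact ⟨{c}, trivial, rfl⟩

lemma meas_cyl (l : List (Fin 4)) : ∀ (A : Set ℤ) (n : ℤ),
    (∀ i : ℕ, i < l.length → n + i ∈ A) → MeasurableSet[sg A] (cyl n l) := by
  induction l with
  | nil => intro A n _; exact @MeasurableSet.univ _ (sg A)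
  | cons a l ih =>
    intro A n h
    rw [cyl_cons]
    refine @MeasurableSet.inter _ (sg A) _ _ (meas_site (by simpa using h 0 (by simp)) a) (ih A (n + 1) ?_)
    intro i hi
    have := h (i + 1) (by simpa using hi)
    rwa [show n + 1 + (i : ℤ) = n + ((i + 1 : ℕ) : ℤ) by push_cast; ring]

lemma meas_site' (k : ℤ) (c : Fin 4) : MeasurableSet {x : ℤ → Fin 4 | x k = c} := by
  have h1 : Measurable (fun x : ℤ → Fin 4 => x k) := measurable_pi_apply k
  exact h1 (MeasurableSet.singleton c)

lemma meas_cyl' (l : List (Fin 4)) : ∀ n : ℤ, MeasurableSet (cyl n l) := by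
  induction l with
  | nil => intro n; exact MeasurableSet.univ
  | cons a l ih => intro n; exact (meas_site' n a).inter (ih (n + 1))

section
variable {μ : Measure (ℤ → Fin 4)} [IsProbabilityMeasure μ]

lemma sum_site (E : Set (ℤ → Fin 4)) (hE : MeasurableSet E) (k : ℤ) :
    ∑ c : Fin 4, μ.real (E ∩ {x | x k = c}) = μ.real E := by
  have h1 : E = ⋃ c ∈ (Finset.univ : Finset (Fin 4)), (E ∩ {x | x k = c}) := by
    ext x; simp
  conv_rhs => rw [h1]
  rw [measureReal_biUnion_finset]
  · intro a _ b _ hab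
    rw [Function.onFun, Set.disjoint_left]
    rintro x ⟨_, h1⟩ ⟨_, h2⟩
    exact hab (h1.symm.trans h2)
  · intro c _
    exact hE.inter (meas_site' k c)

omit [IsProbabilityMeasure μ] in
lemma shift_T (hs : Measure.map (fun x : ℤ → Fin 4 => fun n : ℤ => x (n + 1)) μ = μ)
    (l : List (Fin 4)) (n : ℤ) : μ.real (cyl (n + 1) l) = μ.real (cyl n l) := by
  have hT : Measurable (fun x : ℤ → Fin 4 => fun n : ℤ => x (n + 1)) :=
    measurable_pi_lambda _ (fun n => measurable_pi_apply (n + 1))
  have h1 : μ (cyl n l) = μ (cyl (n + 1) l) := by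
    conv_lhs => rw [← hs]
    rw [Measure.map_apply hT (meas_cyl' l n), cyl_shift]
  rw [measureReal_def, measureReal_def, h1]

omit [IsProbabilityMeasure μ] in
lemma shift_all (hs : Measure.map (fun x : ℤ → Fin 4 => fun n : ℤ => x (n + 1)) μ = μ)
    (l : List (Fin 4)) (n : ℤ) : μ.real (cyl n l) = μ.real (cyl 0 l) := by
  induction n using Int.induction_on with
  | zero => rfl
  | succ n ih => rw [shift_T hs, ih]
  | pred n ih =>
    have := shift_T hs l (-(n : ℤ) - 1)
    rw [sub_add_cancel] at this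
    rw [← this, ih]

/-- the functional attached to a law -/
noncomputable def Pm (μ : Measure (ℤ → Fin 4)) : R →ₗ[ℝ] ℝ :=
  Lf (fun w => μ.real (cyl 0 (FreeMonoid.toList w)))

lemma Pm_wd (μ : Measure (ℤ → Fin 4)) (w : W) : Pm μ (wd w) = μ.real (cyl 0 (FreeMonoid.toList w)) :=
  Lf_wd _ _

lemma Pm_sol (hs : Measure.map (fun x : ℤ → Fin 4 => fun n : ℤ => x (n + 1)) μ = μ)
    (hp : ∀ᵐ x ∂μ, ∀ n : ℤ, x n ≠ x (n + 1))
    (hi : ∀ A B : Set ℤ, (∀ a ∈ A, ∀ b ∈ B, 1 < |a - b|) →
        Indep (⨆ a ∈ A, MeasurableSpace.comap (fun x : ℤ → Fin 4 => x a) (⊤ : MeasurableSpace (Fin 4)))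
          (⨆ b ∈ B, MeasurableSpace.comap (fun x : ℤ → Fin 4 => x b) (⊤ : MeasurableSpace (Fin 4))) μ) :
    Sol (Pm μ) := by
  have hw : ∀ u v : W, Pm μ (wd u * s * wd v) = Pm μ (wd u) * Pm μ (wd v) := by
    intro u v
    set l := FreeMonoid.toList u with hl
    set l' := FreeMonoid.toList v with hl'
    have e : wd u * s * wd v = ∑ c, wd (u * FreeMonoid.of c * v) := by
      rw [s_eq_sum, Finset.mul_sum, Finset.sum_mul]
      apply Finset.sum_congr rfl
      intro c _
      rw [wd_mul, wd_mul]; rfl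
    rw [e, map_sum]
    have e2 : ∀ c, Pm μ (wd (u * FreeMonoid.of c * v))
        = μ.real ((cyl 0 l ∩ cyl (l.length + 1) l') ∩ {x | x (l.length : ℤ) = c}) := by
      intro c
      rw [Pm_wd]
      have : FreeMonoid.toList (u * FreeMonoid.of c * v) = l ++ (c :: l') := by
        rw [FreeMonoid.toList_mul, FreeMonoid.toList_mul, FreeMonoid.toList_of, ← hl, ← hl']
        simp
      rw [this, cyl_append, cyl_cons, zero_add]
      congr 1
      ext x; simp only [Set.mem_inter_iff]; tauto
    rw [Finset.sum_congr rfl (fun c _ => e2 c), sum_site _ ((meas_cyl' _ _).inter (meas_cyl' _ _))]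
    rw [Pm_wd, Pm_wd, ← hl, ← hl', ← shift_all hs l' (l.length + 1)]
    have hind := hi {k | k < (l.length : ℤ)} {k | (l.length : ℤ) + 1 ≤ k} (by
      intro a ha b hb
      have ha' : a < (l.length : ℤ) := ha
      have hb' : (l.length : ℤ) + 1 ≤ b := hb
      rw [abs_sub_comm, lt_abs]; left; omega)
    rw [Indep_iff] at hind
    have h3 := hind (cyl 0 l) (cyl (l.length + 1) l')
      (meas_cyl l _ 0 (by intro i hi; show (0 : ℤ) + i < l.length; omega))
      (meas_cyl l' _ _ (by intro i hi; show (l.length : ℤ) + 1 ≤ (l.length : ℤ) + 1 + i; omega))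
    rw [measureReal_def, h3, ENNReal.toReal_mul]; rfl
  refine ⟨?_, ?_, ?_, ?_⟩
  · rw [← wd_one, Pm_wd]
    show μ.real (cyl 0 []) = 1
    rw [cyl_nil]; simp
  · intro p q
    have h1 : ∀ v : W, ∀ p, Pm μ (p * s * wd v) = Pm μ p * Pm μ (wd v) := by
      intro v p
      have : Pm μ ∘ₗ (LinearMap.mulRight ℝ (s * wd v)) = (Pm μ (wd v)) • Pm μ := by
        apply lin_ext; intro w
        show Pm μ (wd w * (s * wd v)) = Pm μ (wd v) * Pm μ (wd w)
        rw [← mul_assoc, hw]; ring
      have h2 : Pm μ (p * (s * wd v)) = Pm μ (wd v) * Pm μ p :=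
        congrArg (fun f : R →ₗ[ℝ] ℝ => f p) this
      rw [mul_assoc, h2]; ring
    have : Pm μ ∘ₗ (LinearMap.mulLeft ℝ (p * s)) = (Pm μ p) • Pm μ := by
      apply lin_ext; intro w
      show Pm μ (p * s * wd w) = Pm μ p * Pm μ (wd w)
      exact h1 w p
    exact congrArg (fun f : R →ₗ[ℝ] ℝ => f q) this
  · intro a p q
    have h1 := bil (Pm μ) (x a * x a) (by
      intro u v
      have e : wd u * (x a * x a) * wd v = wd (u * (FreeMonoid.of a * FreeMonoid.of a) * v) := by
        rw [wd_mul, wd_mul, wd_mul]; rfl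
      rw [e, Pm_wd]
      have e2 : FreeMonoid.toList (u * (FreeMonoid.of a * FreeMonoid.of a) * v)
          = FreeMonoid.toList u ++ (a :: a :: FreeMonoid.toList v) := by
        rw [FreeMonoid.toList_mul, FreeMonoid.toList_mul, FreeMonoid.toList_mul, FreeMonoid.toList_of]
        simp
      rw [e2, cyl_append, cyl_cons, cyl_cons, measureReal_def]
      have h0 : μ (cyl 0 (FreeMonoid.toList u) ∩ ({x | x (0 + ((FreeMonoid.toList u).length : ℤ)) = a} ∩
          ({x | x (0 + ((FreeMonoid.toList u).length : ℤ) + 1) = a} ∩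
            cyl (0 + ((FreeMonoid.toList u).length : ℤ) + 1 + 1) (FreeMonoid.toList v)))) = 0 := by
        rw [← nonpos_iff_eq_zero]
        rw [ae_iff] at hp
        rw [← hp]
        apply measure_mono
        rintro y ⟨_, h1, h2, _⟩
        simp only [Set.mem_ofPred_eq] at h1 h2 ⊢
        intro hc
        exact hc _ (h1.trans h2.symm)
      rw [h0]; rfl) p q
    rw [← h1]; congr 1; noncomm_ring
  · intro w
    rw [Pm_wd]; exact measureReal_nonneg

end

/-- Two probability measures agreeing on cylinders are equal. -/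
lemma ext_cyl {μ ν : Measure (ℤ → Fin 4)} [IsProbabilityMeasure μ] [IsProbabilityMeasure ν]
    (h : ∀ n l, μ.real (cyl n l) = ν.real (cyl n l)) : μ = ν := by
  have hwin : ∀ (n : ℤ) (k : ℕ), Measurable (fun (x : ℤ → Fin 4) (i : Fin k) => x (n + i)) :=
    fun n k => measurable_pi_lambda _ (fun i => measurable_pi_apply _)
  have h1 : ∀ (n : ℤ) (k : ℕ), μ.map (fun (x : ℤ → Fin 4) (i : Fin k) => x (n + i))
      = ν.map (fun (x : ℤ → Fin 4) (i : Fin k) => x (n + i)) := by
    intro n k
    apply Measure.ext_of_singleton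
    intro f
    rw [Measure.map_apply (hwin n k) (MeasurableSet.singleton f),
      Measure.map_apply (hwin n k) (MeasurableSet.singleton f)]
    have e : (fun (x : ℤ → Fin 4) (i : Fin k) => x (n + i)) ⁻¹' {f} = cyl n (List.ofFn f) := by
      ext x
      rw [mem_cyl]
      simp only [Set.mem_preimage, Set.mem_singleton_iff, List.length_ofFn, List.getElem_ofFn]
      constructor
      · intro hx i hi
        rw [← hx]
      · intro hx
        funext i
        exact hx i i.2
    rw [e]
    have := h n (List.ofFn f)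
    rw [measureReal_def, measureReal_def,
      ENNReal.toReal_eq_toReal_iff' (measure_ne_top _ _) (measure_ne_top _ _)] at this
    exact this
  have key : IsProjectiveLimit μ (fun I => ν.map I.restrict) := by
    intro I
    -- I is contained in a window
    obtain ⟨N, hN⟩ : ∃ N : ℕ, ∀ i ∈ I, -(N : ℤ) ≤ i ∧ i < N := by
      refine ⟨(∑ i ∈ I, i.natAbs) + 1, ?_⟩
      intro i hi
      have : i.natAbs ≤ ∑ j ∈ I, j.natAbs := Finset.single_le_sum (f := fun j : ℤ => j.natAbs)
        (fun _ _ => Nat.zero_le _) hi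
      generalize (∑ j ∈ I, j.natAbs) = M at this
      constructor <;> omega
    let g : (Fin (2 * N) → Fin 4) → (I → Fin 4) := fun f i => f ⟨(i.1 + N).toNat, by
      have := hN i.1 i.2; omega⟩
    have hg : Measurable g := measurable_pi_lambda _ (fun i => measurable_pi_apply _)
    have e : (I.restrict : (ℤ → Fin 4) → (I → Fin 4))
        = g ∘ (fun (x : ℤ → Fin 4) (i : Fin (2 * N)) => x (-(N : ℤ) + i)) := by
      funext x i
      simp only [Finset.restrict, Function.comp, g]
      congr 1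
      have := hN i.1 i.2
      rw [Int.toNat_of_nonneg (by omega)]; ring
    show μ.map I.restrict = ν.map I.restrict
    rw [e, ← Measure.map_map hg (hwin _ _), ← Measure.map_map hg (hwin _ _), h1]
  exact key.unique (fun I => rfl)

theorem klein {μ : Measure (ℤ → Fin 4)} [IsProbabilityMeasure μ]
    (hs : Measure.map (fun x : ℤ → Fin 4 => fun n : ℤ => x (n + 1)) μ = μ)
    (hp : ∀ᵐ x ∂μ, ∀ n : ℤ, x n ≠ x (n + 1))
    (hi : ∀ A B : Set ℤ, (∀ a ∈ A, ∀ b ∈ B, 1 < |a - b|) →
        Indep (⨆ a ∈ A, MeasurableSpace.comap (fun x : ℤ → Fin 4 => x a) (⊤ : MeasurableSpace (Fin 4)))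
          (⨆ b ∈ B, MeasurableSpace.comap (fun x : ℤ → Fin 4 => x b) (⊤ : MeasurableSpace (Fin 4))) μ)
    (σ : Equiv.Perm (Fin 4)) (hσ : V4 σ) :
    Measure.map (fun x : ℤ → Fin 4 => fun n : ℤ => σ (x n)) μ = μ := by
  have hm : Measurable (fun x : ℤ → Fin 4 => fun n : ℤ => σ (x n)) :=
    measurable_pi_lambda _ (fun n => (measurable_of_countable σ).comp (measurable_pi_apply n))
  have : IsProbabilityMeasure (Measure.map (fun x : ℤ → Fin 4 => fun n : ℤ => σ (x n)) μ) :=
    Measure.isProbabilityMeasure_map hm.aemeasurable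
  apply ext_cyl
  intro n l
  have h1 : (Measure.map (fun x : ℤ → Fin 4 => fun n : ℤ => σ (x n)) μ).real (cyl n l)
      = μ.real (cyl n (l.map σ)) := by
    rw [measureReal_def, Measure.map_apply hm (meas_cyl' l n), cyl_map σ hσ.2]; rfl
  rw [h1, shift_all hs, shift_all hs l n]
  have h2 := invariance (Pm_sol hs hp hi) hσ (FreeMonoid.ofList l)
  rw [Pm_wd, Pm_wd] at h2
  have e : FreeMonoid.toList (FreeMonoid.map σ (FreeMonoid.ofList l)) = l.map σ := by
    rw [FreeMonoid.toList_map, FreeMonoid.toList_ofList]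
  rw [e, FreeMonoid.toList_ofList] at h2
  exact h2.symm

end Pool.Agent.H239R3.KC
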