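import Mathlib
import Pool.Agent.H239R3.KCe

set_option autoImplicit false

/-!
Construction of a law on `ℤ → Fin 4` from a consistent family of cylinder probabilities.
-/

open MeasureTheory ProbabilityTheory Filter Topology

namespace Pool.Agent.H239R3.KC

/-- sum over all words of length `m` -/
def sw {M : Type} [AddCommMonoid M] : ℕ → (List (Fin 4) → M) → M
  | 0, φ => φ []
  | m + 1, φ => ∑ c : Fin 4, sw m (fun l => φ (c :: l))

section
variable {M : Type} [AddCommMonoid M]

lemma sw_congr (m : ℕ) : ∀ (φ ψ : List (Fin 4) → M), (∀ l, l.length = m → φ l = ψ l) →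
    sw m φ = sw m ψ := by
  induction m with
  | zero => intro φ ψ h; exact h [] rfl
  | succ m ih =>
    intro φ ψ h
    apply Finset.sum_congr rfl
    intro c _
    apply ih
    intro l hl
    exact h (c :: l) (by simp [hl])

lemma sw_add (p m : ℕ) : ∀ φ : List (Fin 4) → M,
    sw (p + m) φ = sw p (fun u => sw m (fun v => φ (u ++ v))) := by
  induction p with
  | zero => intro φ; simp [sw]
  | succ p ih =>
    intro φ
    rw [Nat.succ_add]
    show ∑ c : Fin 4, sw (p + m) (fun l => φ (c :: l)) = _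
    apply Finset.sum_congr rfl
    intro c _
    rw [ih]; rfl

lemma sw_ind (ψ : M) (l : List (Fin 4)) :
    sw l.length (fun l' => if l' = l then ψ else 0) = ψ := by
  induction l with
  | nil => simp [sw]
  | cons a l ih =>
    show ∑ c : Fin 4, sw l.length (fun l' => if c :: l' = a :: l then ψ else 0) = ψ
    rw [Finset.sum_eq_single a]
    · simpa using ih
    · intro c _ hc
      have : sw l.length (fun l' => if c :: l' = a :: l then ψ else 0)
          = sw l.length (fun _ => (0 : M)) := by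
        apply sw_congr
        intro l' _
        rw [if_neg]; intro h; exact hc (List.cons.inj h).1
      rw [this]
      have hz : ∀ m, sw m (fun _ : List (Fin 4) => (0 : M)) = 0 := by
        intro m
        induction m with
        | zero => rfl
        | succ m ih => show ∑ _ : Fin 4, sw m (fun _ => (0 : M)) = 0; simp [ih]
      exact hz _
    · intro h; exact absurd (Finset.mem_univ a) h

lemma sw_zero (m : ℕ) : sw m (fun _ : List (Fin 4) => (0 : M)) = 0 := by
  induction m with
  | zero => rfl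
  | succ m ih => show ∑ _ : Fin 4, sw m (fun _ => (0 : M)) = 0; simp [ih]

lemma sw_hom {N : Type} [AddCommMonoid N] (f : M →+ N) (m : ℕ) : ∀ φ : List (Fin 4) → M,
    f (sw m φ) = sw m (fun l => f (φ l)) := by
  induction m with
  | zero => intro φ; rfl
  | succ m ih =>
    intro φ
    show f (∑ c : Fin 4, sw m (fun l => φ (c :: l))) = _
    rw [map_sum]
    apply Finset.sum_congr rfl
    intro c _
    exact ih _

lemma sw_sum (m : ℕ) : ∀ φ : Fin 4 → List (Fin 4) → M,
    sw m (fun l => ∑ c, φ c l) = ∑ c, sw m (φ c) := by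
  induction m with
  | zero => intro φ; rfl
  | succ m ih =>
    intro φ
    show ∑ d : Fin 4, sw m (fun l => ∑ c, φ c (d :: l)) = ∑ c, ∑ d : Fin 4, sw m (fun l => φ c (d :: l))
    rw [Finset.sum_comm]
    apply Finset.sum_congr rfl
    intro d _
    exact ih _

end

lemma sw_nonneg (m : ℕ) : ∀ φ : List (Fin 4) → ℝ, (∀ l, 0 ≤ φ l) → 0 ≤ sw m φ := by
  induction m with
  | zero => intro φ h; exact h []
  | succ m ih =>
    intro φ h
    exact Finset.sum_nonneg (fun c _ => ih _ (fun l => h _))

lemma sw_ofReal (m : ℕ) : ∀ φ : List (Fin 4) → ℝ, (∀ l, 0 ≤ φ l) →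
    sw m (fun l => ENNReal.ofReal (φ l)) = ENNReal.ofReal (sw m φ) := by
  induction m with
  | zero => intro φ h; rfl
  | succ m ih =>
    intro φ h
    show ∑ c : Fin 4, sw m (fun l => ENNReal.ofReal (φ (c :: l))) = ENNReal.ofReal (∑ c : Fin 4, sw m (fun l => φ (c :: l)))
    rw [ENNReal.ofReal_sum_of_nonneg (fun c _ => sw_nonneg _ _ (fun l => h _))]
    apply Finset.sum_congr rfl
    intro c _
    exact ih _ (fun l => h _)

section
variable {Q : List (Fin 4) → ℝ} (hr : ∀ l, ∑ c, Q (l ++ [c]) = Q l) (hl : ∀ l, ∑ c, Q (c :: l) = Q l)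

include hr in
lemma sw_right (q : ℕ) : ∀ u, sw q (fun v => Q (u ++ v)) = Q u := by
  induction q with
  | zero => intro u; simp [sw]
  | succ q ih =>
    intro u
    show ∑ c : Fin 4, sw q (fun v => Q (u ++ (c :: v))) = Q u
    rw [← hr u]
    apply Finset.sum_congr rfl
    intro c _
    rw [← ih (u ++ [c])]
    congr 1; funext v; simp

include hl in
lemma sw_left (p : ℕ) : ∀ l, sw p (fun u => Q (u ++ l)) = Q l := by
  induction p with
  | zero => intro u; simp [sw]
  | succ q ih =>
    intro l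
    show ∑ c : Fin 4, sw q (fun u => Q ((c :: u) ++ l)) = Q l
    rw [← sw_sum, ← ih l]
    congr 1; funext u
    exact hl (u ++ l)

end

/-- extension of a word, placed on `[-N, ...)`, to a configuration -/
def exn (N : ℕ) (l : List (Fin 4)) : ℤ → Fin 4 :=
  fun i => if 0 ≤ i + N then l.getD (i + N).toNat 0 else 0

lemma exn_mem (N : ℕ) (n : ℤ) (l u l' v : List (Fin 4)) (hn : 0 ≤ n + N)
    (hu : u.length = (n + N).toNat) (hl : l'.length = l.length) :
    exn N (u ++ (l' ++ v)) ∈ cyl n l ↔ l' = l := by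
  rw [mem_cyl]
  have key : ∀ (i : ℕ) (hi : i < l'.length), exn N (u ++ (l' ++ v)) (n + i) = l'[i] := by
    intro i hi
    rw [exn, if_pos (by omega)]
    have e : (n + (i : ℤ) + N).toNat = u.length + i := by omega
    rw [e, List.getD_append_right _ _ _ _ (by omega)]
    have e2 : u.length + i - u.length = i := by omega
    rw [e2, List.getD_append _ _ _ _ hi, List.getD_eq_getElem _ _ hi]
  constructor
  · intro h
    apply List.ext_getElem hl
    intro i h1 h2
    rw [← key i h1, h i h2]
  · rintro rfl i hi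
    exact key i hi

/-- the approximating measures -/
noncomputable def muN (Q : List (Fin 4) → ℝ) (N : ℕ) : Measure (ℤ → Fin 4) :=
  sw (2 * N) (fun l => ENNReal.ofReal (Q l) • Measure.dirac (exn N l))

lemma sw_meas (m : ℕ) (C : Set (ℤ → Fin 4)) : ∀ φ : List (Fin 4) → Measure (ℤ → Fin 4),
    (sw m φ) C = sw m (fun l => φ l C) := by
  induction m with
  | zero => intro φ; rfl
  | succ m ih =>
    intro φ
    show (∑ c : Fin 4, sw m (fun l => φ (c :: l))) C = ∑ c : Fin 4, sw m (fun l => φ (c :: l) C)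
    rw [Measure.finsetSum_apply]
    apply Finset.sum_congr rfl
    intro c _
    exact ih _

lemma muN_apply {Q : List (Fin 4) → ℝ} (hQ : ∀ l, 0 ≤ Q l) (N : ℕ) {C : Set (ℤ → Fin 4)}
    (hC : MeasurableSet C) [∀ l, Decidable (exn N l ∈ C)] :
    muN Q N C = ENNReal.ofReal (sw (2 * N) (fun l => if exn N l ∈ C then Q l else 0)) := by
  rw [muN, sw_meas, ← sw_ofReal]
  · apply sw_congr
    intro l _
    rw [Measure.smul_apply, Measure.dirac_apply' _ hC, smul_eq_mul]
    by_cases h : exn N l ∈ C
    · simp [h]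
    · simp [h]
  · intro l; split_ifs
    · exact hQ l
    · exact le_rfl

lemma muN_cyl {Q : List (Fin 4) → ℝ} (hQ : ∀ l, 0 ≤ Q l) (hr : ∀ l, ∑ c, Q (l ++ [c]) = Q l)
    (hl : ∀ l, ∑ c, Q (c :: l) = Q l) (n : ℤ) (l : List (Fin 4)) (N : ℕ)
    (h1 : 0 ≤ n + N) (h2 : n + l.length ≤ N) : muN Q N (cyl n l) = ENNReal.ofReal (Q l) := by
  classical
  rw [muN_apply hQ N (meas_cyl' l n)]
  congr 1
  obtain ⟨q, hq⟩ : ∃ q, 2 * N = (n + N).toNat + (l.length + q) := ⟨2 * N - (n + N).toNat - l.length, by omega⟩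
  rw [hq, sw_add, ← sw_left hl (n + N).toNat l]
  apply sw_congr
  intro u hu
  rw [sw_add]
  have : sw l.length (fun l' => sw q (fun v => if exn N (u ++ (l' ++ v)) ∈ cyl n l
      then Q (u ++ (l' ++ v)) else 0)) = sw l.length (fun l' => if l' = l then Q (u ++ l) else 0) := by
    apply sw_congr
    intro l' hl'
    by_cases h : l' = l
    · rw [if_pos h, ← sw_right hr q (u ++ l)]
      apply sw_congr
      intro v _
      rw [if_pos ((exn_mem N n l u l' v h1 hu hl').mpr h), h]; simp
    · rw [if_neg h]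
      have : (fun v => if exn N (u ++ (l' ++ v)) ∈ cyl n l then Q (u ++ (l' ++ v)) else 0)
          = fun _ => (0 : ℝ) := by
        funext v
        rw [if_neg (fun h' => h ((exn_mem N n l u l' v h1 hu hl').mp h'))]
      rw [this, sw_zero]
  rw [this, sw_ind]

instance : BorelSpace (Fin 4) := ⟨borel_eq_top_of_discrete.symm⟩

lemma clopen_cyl (l : List (Fin 4)) : ∀ n : ℤ, IsClopen (cyl n l) := by
  induction l with
  | nil => intro n; exact isClopen_univ
  | cons a l ih =>
    intro n
    have h1 : IsClopen {x : ℤ → Fin 4 | x n = a} :=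
      (isClopen_discrete {a}).preimage (continuous_apply n)
    exact h1.inter (ih (n + 1))

theorem exists_law {Q : List (Fin 4) → ℝ} (h0 : Q [] = 1) (hQ : ∀ l, 0 ≤ Q l)
    (hr : ∀ l, ∑ c, Q (l ++ [c]) = Q l) (hl : ∀ l, ∑ c, Q (c :: l) = Q l) :
    ∃ μ : Measure (ℤ → Fin 4), IsProbabilityMeasure μ ∧ ∀ n l, μ.real (cyl n l) = Q l := by
  have hp : ∀ N, IsProbabilityMeasure (muN Q N) := by
    intro N
    constructor
    have := muN_cyl hQ hr hl 0 [] N (by simp) (by simp)
    rw [cyl_nil, h0, ENNReal.ofReal_one] at this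
    exact this
  let m : ℕ → ProbabilityMeasure (ℤ → Fin 4) := fun N => ⟨muN Q N, hp N⟩
  let U : Ultrafilter ℕ := Ultrafilter.of atTop
  have hU : (U : Filter ℕ) ≤ atTop := Ultrafilter.of_le atTop
  obtain ⟨μ, -, hμ⟩ := isCompact_univ.ultrafilter_le_nhds (U.map m) (by simp)
  have hμ' : Tendsto m U (𝓝 μ) := hμ
  refine ⟨μ, inferInstance, ?_⟩
  intro n l
  have h1 : Tendsto (fun i => (m i : Measure (ℤ → Fin 4)) (cyl n l)) U
      (𝓝 ((μ : Measure (ℤ → Fin 4)) (cyl n l))) :=
    ProbabilityMeasure.tendsto_measure_of_null_frontier_of_tendsto' hμ' (by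
      rw [(clopen_cyl l n).frontier_eq]; simp)
  have h2 : Tendsto (fun i => (m i : Measure (ℤ → Fin 4)) (cyl n l)) U (𝓝 (ENNReal.ofReal (Q l))) := by
    apply Tendsto.congr' (f₁ := fun _ => ENNReal.ofReal (Q l)) _ tendsto_const_nhds
    apply hU
    rw [mem_atTop_sets]
    refine ⟨n.natAbs + l.length, ?_⟩
    intro N hN
    exact (muN_cyl hQ hr hl n l N (by omega) (by omega)).symm
  have h3 := tendsto_nhds_unique h1 h2
  rw [measureReal_def, h3, ENNReal.toReal_ofReal (hQ l)]

end Pool.Agent.H239R3.KC
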