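import Mathlib
import Pool.Agent.H239R3.KCf

set_option autoImplicit false

/-!
Stationary k-dependent colourings as laws, and their construction from cylinder probabilities.
-/

open MeasureTheory ProbabilityTheory Filter Topology

namespace Pool.Agent.H239R3.KC

/-- `k`-dependence: for every `j` the families `(X_i)_{i < j}` and `(X_i)_{i ≥ j + k}` are
independent. -/
def KDep (k : ℕ) (μ : Measure (ℤ → Fin 4)) : Prop :=
  ∀ j : ℤ, Indep
    (⨆ i ∈ Set.Iio j, MeasurableSpace.comap (fun x : ℤ → Fin 4 => x i) (⊤ : MeasurableSpace (Fin 4)))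
    (⨆ i ∈ Set.Ici (j + k), MeasurableSpace.comap (fun x : ℤ → Fin 4 => x i)
      (⊤ : MeasurableSpace (Fin 4))) μ

/-- `μ` is the law of a stationary `k`-dependent proper colouring of `ℤ` with colours in `S`. -/
structure Col (k : ℕ) (S : Set (Fin 4)) (μ : Measure (ℤ → Fin 4)) : Prop where
  prob : IsProbabilityMeasure μ
  stat : Measure.map (fun x : ℤ → Fin 4 => fun n : ℤ => x (n + 1)) μ = μ
  proper : ∀ᵐ x ∂μ, ∀ n : ℤ, x n ≠ x (n + 1)
  supp : ∀ᵐ x ∂μ, ∀ n : ℤ, x n ∈ S
  dep : KDep k μ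

def pR (j : ℤ) : Set (Set (ℤ → Fin 4)) := {C | C = ∅ ∨ ∃ l, C = cyl j l}
def pL (j : ℤ) : Set (Set (ℤ → Fin 4)) := {C | C = ∅ ∨ ∃ l : List (Fin 4), C = cyl (j - l.length) l}

lemma sub_R {j : ℤ} {l l' : List (Fin 4)} {x : ℤ → Fin 4} (h1 : x ∈ cyl j l) (h2 : x ∈ cyl j l')
    (h : l.length ≤ l'.length) : cyl j l' ⊆ cyl j l := by
  intro y hy
  rw [mem_cyl] at *
  intro i hi
  rw [hy i (by omega), ← h2 i (by omega), h1 i hi]

lemma sub_L {j : ℤ} {l l' : List (Fin 4)} {x : ℤ → Fin 4} (h1 : x ∈ cyl (j - l.length) l)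
    (h2 : x ∈ cyl (j - l'.length) l') (h : l.length ≤ l'.length) :
    cyl (j - l'.length) l' ⊆ cyl (j - l.length) l := by
  intro y hy
  rw [mem_cyl] at *
  intro i hi
  have e : j - (l.length : ℤ) + i = j - (l'.length : ℤ) + ((l'.length - l.length + i : ℕ) : ℤ) := by
    omega
  have g1 := hy (l'.length - l.length + i) (by omega)
  have g2 := h2 (l'.length - l.length + i) (by omega)
  have g3 := h1 i hi
  rw [e] at g3 ⊢
  rw [g1, ← g2, g3]

lemma piR (j : ℤ) : IsPiSystem (pR j) := by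
  rintro C hC D hD hne
  rcases hC with rfl | ⟨l, rfl⟩
  · simp at hne
  rcases hD with rfl | ⟨l', rfl⟩
  · simp at hne
  obtain ⟨x, hx1, hx2⟩ := hne
  right
  rcases le_total l.length l'.length with h | h
  · exact ⟨l', Set.inter_eq_right.mpr (sub_R hx1 hx2 h)⟩
  · exact ⟨l, Set.inter_eq_left.mpr (sub_R hx2 hx1 h)⟩

lemma piL (j : ℤ) : IsPiSystem (pL j) := by
  rintro C hC D hD hne
  rcases hC with rfl | ⟨l, rfl⟩
  · simp at hne
  rcases hD with rfl | ⟨l', rfl⟩
  · simp at hne
  obtain ⟨x, hx1, hx2⟩ := hne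
  right
  rcases le_total l.length l'.length with h | h
  · exact ⟨l', Set.inter_eq_right.mpr (sub_L hx1 hx2 h)⟩
  · exact ⟨l, Set.inter_eq_left.mpr (sub_L hx2 hx1 h)⟩

lemma sg_le {A : Set ℤ} {m : MeasurableSpace (ℤ → Fin 4)}
    (h : ∀ k ∈ A, ∀ c, MeasurableSet[m] {x : ℤ → Fin 4 | x k = c}) :
    (⨆ i ∈ A, MeasurableSpace.comap (fun x : ℤ → Fin 4 => x i) (⊤ : MeasurableSpace (Fin 4))) ≤ m := by
  apply iSup₂_le
  intro k hk
  rintro _ ⟨S, -, rfl⟩
  have e : (fun x : ℤ → Fin 4 => x k) ⁻¹' S = ⋃ c : S, {x : ℤ → Fin 4 | x k = c} := by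
    ext x; simp
  rw [e]
  exact MeasurableSet.iUnion (fun c => h k hk c)

lemma sgR (j : ℤ) : (⨆ i ∈ Set.Ici j, MeasurableSpace.comap (fun x : ℤ → Fin 4 => x i)
    (⊤ : MeasurableSpace (Fin 4))) ≤ MeasurableSpace.generateFrom (pR j) := by
  apply sg_le
  intro k hk c
  have hk' : j ≤ k := hk
  have e : {x : ℤ → Fin 4 | x k = c}
      = ⋃ f : Fin (k - j).toNat → Fin 4, cyl j (List.ofFn f ++ [c]) := by
    ext x
    simp only [Set.mem_ofPred_eq, Set.mem_iUnion]
    have hlen : ∀ f : Fin (k - j).toNat → Fin 4, j + ((List.ofFn f).length : ℤ) = k := by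
      intro f; rw [List.length_ofFn]; omega
    constructor
    · intro hx
      refine ⟨fun i => x (j + i), ?_⟩
      rw [cyl_append]
      refine ⟨?_, ?_⟩
      · rw [mem_cyl]; intro i hi; simp
      · rw [hlen]; exact ⟨hx, trivial⟩
    · rintro ⟨f, hf⟩
      rw [cyl_append] at hf
      have := hf.2
      rw [hlen] at this
      exact this.1
  rw [e]
  apply MeasurableSet.iUnion
  intro f
  exact MeasurableSpace.measurableSet_generateFrom (Or.inr ⟨_, rfl⟩)

lemma sgL (j : ℤ) : (⨆ i ∈ Set.Iio j, MeasurableSpace.comap (fun x : ℤ → Fin 4 => x i)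
    (⊤ : MeasurableSpace (Fin 4))) ≤ MeasurableSpace.generateFrom (pL j) := by
  apply sg_le
  intro k hk c
  have hk' : k < j := hk
  have e : {x : ℤ → Fin 4 | x k = c}
      = ⋃ f : Fin (j - k - 1).toNat → Fin 4, cyl (j - (c :: List.ofFn f).length) (c :: List.ofFn f) := by
    ext x
    simp only [Set.mem_ofPred_eq, Set.mem_iUnion]
    have hlen : ∀ f : Fin (j - k - 1).toNat → Fin 4, j - ((c :: List.ofFn f).length : ℤ) = k := by
      intro f; rw [List.length_cons, List.length_ofFn]; omega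
    constructor
    · intro hx
      refine ⟨fun i => x (k + 1 + i), ?_⟩
      rw [hlen, cyl_cons]
      refine ⟨hx, ?_⟩
      rw [mem_cyl]; intro i hi; simp
    · rintro ⟨f, hf⟩
      rw [hlen, cyl_cons] at hf
      exact hf.1
  rw [e]
  apply MeasurableSet.iUnion
  intro f
  exact MeasurableSpace.measurableSet_generateFrom (Or.inr ⟨_, rfl⟩)

section
variable {μ : Measure (ℤ → Fin 4)} [IsProbabilityMeasure μ]

lemma sw_cyl (k : ℕ) (v : List (Fin 4)) (n : ℤ) : ∀ u : List (Fin 4),
    sw k (fun m => μ.real (cyl n (u ++ (m ++ v)))) = μ.real (cyl n u ∩ cyl (n + u.length + k) v) := by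
  induction k with
  | zero => intro u; simp [sw, cyl_append]
  | succ k ih =>
    intro u
    show ∑ c : Fin 4, sw k (fun m => μ.real (cyl n (u ++ ((c :: m) ++ v)))) = _
    rw [← sum_site (cyl n u ∩ cyl (n + u.length + (k + 1 : ℕ)) v)
      ((meas_cyl' _ _).inter (meas_cyl' _ _)) (n + u.length)]
    apply Finset.sum_congr rfl
    intro c _
    have h1 := ih (u ++ [c])
    have h2 : (fun m => μ.real (cyl n (u ++ ((c :: m) ++ v))))
        = fun m => μ.real (cyl n ((u ++ [c]) ++ (m ++ v))) := by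
      funext m; simp
    rw [h2, h1, cyl_append, cyl_cons]
    congr 1
    have e : n + ((u ++ [c]).length : ℤ) + k = n + u.length + (k + 1 : ℕ) := by
      rw [List.length_append, List.length_singleton]; push_cast; ring
    rw [e]
    ext x
    simp only [Set.mem_inter_iff, cyl_nil, Set.mem_univ, and_true]
    tauto

lemma dep_of_split (k : ℕ) (Q : List (Fin 4) → ℝ) (hQ : ∀ n l, μ.real (cyl n l) = Q l)
    (hs : ∀ u v, sw k (fun m => Q (u ++ (m ++ v))) = Q u * Q v) : KDep k μ := by
  intro j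
  have h1 : Indep (MeasurableSpace.generateFrom (pL j)) (MeasurableSpace.generateFrom (pR (j + k))) μ := by
    apply IndepSets.indep' _ _ (piL j) (piR (j + k))
    · rw [IndepSets_iff]
      rintro C D hC hD
      rcases hC with rfl | ⟨l, rfl⟩
      · simp
      rcases hD with rfl | ⟨l', rfl⟩
      · simp
      have h2 := sw_cyl (μ := μ) k l' (j - l.length) l
      have e : j - (l.length : ℤ) + l.length + k = j + k := by ring
      rw [e] at h2
      have h3 : (fun m => μ.real (cyl (j - l.length) (l ++ (m ++ l'))))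
          = fun m => Q (l ++ (m ++ l')) := by funext m; rw [hQ]
      rw [h3, hs, ← hQ (j - l.length) l, ← hQ (j + k) l', measureReal_def, measureReal_def,
        measureReal_def, ← ENNReal.toReal_mul,
        ENNReal.toReal_eq_toReal_iff' (ENNReal.mul_ne_top (measure_ne_top _ _) (measure_ne_top _ _))
          (measure_ne_top _ _)] at h2
      exact h2.symm
    · rintro C (rfl | ⟨l, rfl⟩)
      · exact MeasurableSet.empty
      · exact meas_cyl' _ _
    · rintro C (rfl | ⟨l, rfl⟩)
      · exact MeasurableSet.empty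
      · exact meas_cyl' _ _
  exact indep_of_indep_of_le_left (indep_of_indep_of_le_right h1 (sgR (j + k))) (sgL j)

end

/-- Construction of a colouring law from cylinder probabilities. -/
theorem exists_col (k : ℕ) (S : Set (Fin 4)) {Q : List (Fin 4) → ℝ} (h0 : Q [] = 1)
    (hQ : ∀ l, 0 ≤ Q l) (hr : ∀ l, ∑ c, Q (l ++ [c]) = Q l) (hl : ∀ l, ∑ c, Q (c :: l) = Q l)
    (hp : ∀ a, Q [a, a] = 0) (hS : ∀ a, a ∉ S → Q [a] = 0)
    (hs : ∀ u v, sw k (fun m => Q (u ++ (m ++ v))) = Q u * Q v) :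
    ∃ μ : Measure (ℤ → Fin 4), Col k S μ ∧ ∀ n l, μ.real (cyl n l) = Q l := by
  obtain ⟨μ, hμ, hc⟩ := exists_law h0 hQ hr hl
  refine ⟨μ, ⟨hμ, ?_, ?_, ?_, dep_of_split k Q hc hs⟩, hc⟩
  · have hm : Measurable (fun x : ℤ → Fin 4 => fun n : ℤ => x (n + 1)) :=
      measurable_pi_lambda _ (fun n => measurable_pi_apply (n + 1))
    have : IsProbabilityMeasure (Measure.map (fun x : ℤ → Fin 4 => fun n : ℤ => x (n + 1)) μ) :=
      Measure.isProbabilityMeasure_map hm.aemeasurable
    apply ext_cyl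
    intro n l
    rw [measureReal_def, Measure.map_apply hm (meas_cyl' l n), cyl_shift, ← measureReal_def, hc, hc]
  · rw [ae_all_iff]
    intro n
    rw [ae_iff]
    have e : {x : ℤ → Fin 4 | ¬ x n ≠ x (n + 1)} = ⋃ a : Fin 4, cyl n [a, a] := by
      ext x
      simp only [Set.mem_ofPred_eq, not_not, Set.mem_iUnion, cyl_cons, cyl_nil, Set.inter_univ,
        Set.mem_inter_iff]
      constructor
      · intro h; exact ⟨x n, rfl, h.symm⟩
      · rintro ⟨a, h1, h2⟩; exact h1.trans h2.symm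
    rw [e, measure_iUnion_null_iff]
    intro a
    have := hc n [a, a]
    rw [hp, measureReal_def, ENNReal.toReal_eq_zero_iff] at this
    exact this.resolve_right (measure_ne_top _ _)
  · rw [ae_all_iff]
    intro n
    rw [ae_iff]
    have e : {x : ℤ → Fin 4 | ¬ x n ∈ S} = ⋃ a : (Sᶜ : Set (Fin 4)), cyl n [(a : Fin 4)] := by
      ext x
      simp only [Set.mem_ofPred_eq, Set.mem_iUnion, cyl_cons, cyl_nil, Set.inter_univ]
      constructor
      · intro h; exact ⟨⟨x n, h⟩, rfl⟩
      · rintro ⟨a, h1⟩ h2; exact a.2 (h1 ▸ h2)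
    rw [e, measure_iUnion_null_iff]
    intro a
    have := hc n [(a : Fin 4)]
    rw [hS _ a.2, measureReal_def, ENNReal.toReal_eq_zero_iff] at this
    exact this.resolve_right (measure_ne_top _ _)

/-- the abstract functional of a colouring law -/
lemma Col.sol {S : Set (Fin 4)} {μ : Measure (ℤ → Fin 4)} (h : Col 1 S μ) : Sol (Pm μ) := by
  have := h.prob
  have hs := h.stat
  have hp := h.proper
  have hw : ∀ u v : W, Pm μ (wd u * s * wd v) = Pm μ (wd u) * Pm μ (wd v) := by
    intro u v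
    set l := FreeMonoid.toList u with hl
    set l' := FreeMonoid.toList v with hl'
    have e : wd u * s * wd v = ∑ c, wd (u * FreeMonoid.of c * v) := by
      rw [s_eq_sum, Finset.mul_sum, Finset.sum_mul]
      apply Finset.sum_congr rfl
      intro c _
      rw [wd_mul, wd_mul]; rfl
    rw [e, map_sum]
    have e2 : ∀ c, Pm μ (wd (u * FreeMonoid.of c * v))
        = μ.real ((cyl 0 l ∩ cyl (l.length + 1) l') ∩ {x | x (l.length : ℤ) = c}) := by
      intro c
      rw [Pm_wd]
      have : FreeMonoid.toList (u * FreeMonoid.of c * v) = l ++ (c :: l') := by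
        rw [FreeMonoid.toList_mul, FreeMonoid.toList_mul, FreeMonoid.toList_of, ← hl, ← hl']
        simp
      rw [this, cyl_append, cyl_cons, zero_add]
      congr 1
      ext x; simp only [Set.mem_inter_iff]; tauto
    rw [Finset.sum_congr rfl (fun c _ => e2 c), sum_site _ ((meas_cyl' _ _).inter (meas_cyl' _ _))]
    rw [Pm_wd, Pm_wd, ← hl, ← hl', ← shift_all hs l' (l.length + 1)]
    have hind := h.dep l.length
    rw [Indep_iff] at hind
    have h3 := hind (cyl 0 l) (cyl (l.length + 1) l')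
      (meas_cyl l _ 0 (by intro i hi; show (0 : ℤ) + i < l.length; omega))
      (meas_cyl l' _ _ (by
        intro i hi; show (l.length : ℤ) + (1 : ℕ) ≤ (l.length : ℤ) + 1 + i; push_cast; omega))
    rw [measureReal_def, h3, ENNReal.toReal_mul]; rfl
  refine ⟨?_, ?_, ?_, ?_⟩
  · rw [← wd_one, Pm_wd]
    show μ.real (cyl 0 []) = 1
    rw [cyl_nil]; simp
  · intro p q
    have h1 : ∀ v : W, ∀ p, Pm μ (p * s * wd v) = Pm μ p * Pm μ (wd v) := by
      intro v p
      have : Pm μ ∘ₗ (LinearMap.mulRight ℝ (s * wd v)) = (Pm μ (wd v)) • Pm μ := by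
        apply lin_ext; intro w
        show Pm μ (wd w * (s * wd v)) = Pm μ (wd v) * Pm μ (wd w)
        rw [← mul_assoc, hw]; ring
      have h2 : Pm μ (p * (s * wd v)) = Pm μ (wd v) * Pm μ p :=
        congrArg (fun f : R →ₗ[ℝ] ℝ => f p) this
      rw [mul_assoc, h2]; ring
    have : Pm μ ∘ₗ (LinearMap.mulLeft ℝ (p * s)) = (Pm μ p) • Pm μ := by
      apply lin_ext; intro w
      show Pm μ (p * s * wd w) = Pm μ p * Pm μ (wd w)
      exact h1 w p
    exact congrArg (fun f : R →ₗ[ℝ] ℝ => f q) this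
  · intro a p q
    have h1 := bil (Pm μ) (x a * x a) (by
      intro u v
      have e : wd u * (x a * x a) * wd v = wd (u * (FreeMonoid.of a * FreeMonoid.of a) * v) := by
        rw [wd_mul, wd_mul, wd_mul]; rfl
      rw [e, Pm_wd]
      have e2 : FreeMonoid.toList (u * (FreeMonoid.of a * FreeMonoid.of a) * v)
          = FreeMonoid.toList u ++ (a :: a :: FreeMonoid.toList v) := by
        rw [FreeMonoid.toList_mul, FreeMonoid.toList_mul, FreeMonoid.toList_mul, FreeMonoid.toList_of]
        simp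
      rw [e2, cyl_append, cyl_cons, cyl_cons, measureReal_def]
      have h0 : μ (cyl 0 (FreeMonoid.toList u) ∩ ({x | x (0 + ((FreeMonoid.toList u).length : ℤ)) = a} ∩
          ({x | x (0 + ((FreeMonoid.toList u).length : ℤ) + 1) = a} ∩
            cyl (0 + ((FreeMonoid.toList u).length : ℤ) + 1 + 1) (FreeMonoid.toList v)))) = 0 := by
        rw [← nonpos_iff_eq_zero]
        rw [ae_iff] at hp
        rw [← hp]
        apply measure_mono
        rintro y ⟨_, h1, h2, _⟩
        simp only [Set.mem_ofPred_eq] at h1 h2 ⊢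
        intro hc
        exact hc _ (h1.trans h2.symm)
      rw [h0]; rfl) p q
    rw [← h1]; congr 1; noncomm_ring
  · intro w
    rw [Pm_wd]; exact measureReal_nonneg

lemma Pm_list (μ : Measure (ℤ → Fin 4)) (l : List (Fin 4)) :
    Pm μ (wd (FreeMonoid.ofList l)) = μ.real (cyl 0 l) := by
  rw [Pm_wd, FreeMonoid.toList_ofList]

/-- two colourings with the same functional are equal -/
lemma Col.ext {k k' : ℕ} {S S' : Set (Fin 4)} {μ ν : Measure (ℤ → Fin 4)} (h : Col k S μ)
    (h' : Col k' S' ν) (he : ∀ l, μ.real (cyl 0 l) = ν.real (cyl 0 l)) : μ = ν := by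
  have := h.prob
  have := h'.prob
  apply ext_cyl
  intro n l
  rw [shift_all h.stat, shift_all h'.stat, he]

end Pool.Agent.H239R3.KC
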