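import Mathlib
import Pool.Agent.H239R3.KCg

set_option autoImplicit false

/-!
Conditioning a stationary 1-dependent 4-colouring on the absence of colour `0` gives a stationary
2-dependent 3-colouring, and the map is injective.
-/

open MeasureTheory ProbabilityTheory Filter Topology

namespace Pool.Agent.H239R3.KC

/-- the element of the free algebra attached to a list -/
noncomputable def wl (l : List (Fin 4)) : R := wd (FreeMonoid.ofList l)

lemma wl_nil : wl [] = 1 := wd_one
lemma wl_cons (a : Fin 4) (l : List (Fin 4)) : wl (a :: l) = x a * wl l := by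
  rw [wl, wl, x, ← wd_mul]; rfl
lemma wl_append (l l' : List (Fin 4)) : wl (l ++ l') = wl l * wl l' := by
  rw [wl, wl, wl, ← wd_mul]; rfl
lemma wl_single (a : Fin 4) : wl [a] = x a := by rw [wl_cons, wl_nil, mul_one]

lemma lin_bound (c0 c1 : ℝ) (hh : ∀ n : ℕ, 0 ≤ c0 + n * c1) : 0 ≤ c1 := by
  by_contra h
  push Not at h
  obtain ⟨N, hN⟩ := exists_nat_gt (c0 / (-c1))
  rw [div_lt_iff₀ (by linarith)] at hN
  have := hh N
  nlinarith

section
variable {P : R →ₗ[ℝ] ℝ} (h : Sol P)
include h

lemma cond_nonneg (a : Fin 4) (l : List (Fin 4)) : 0 ≤ P (wl l) - 2 * P (x a * wl l) := by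
  apply lin_bound (P (wl l))
  intro n
  have h1 := Bnp h a (wl l) n
  rw [← h1]
  have : 0 ≤ P (B a ^ n * wl l) := h.cone_nonneg (mul_mem (pow_mem (B_mem a) n) (wd_mem _))
  positivity

lemma xx_zero (a : Fin 4) (p : R) : P (x a * (x a * p)) = 0 := by
  have := h.sq a 1 p
  rw [one_mul] at this
  rw [← mul_assoc]; exact this

/-- the conditioned probabilities -/
noncomputable def QQ (P : R →ₗ[ℝ] ℝ) (a : Fin 4) (l : List (Fin 4)) : ℝ :=
  if a ∈ l then 0 else 2 ^ (l.length + 1) * (P (wl l) - 2 * P (x a * wl l))

lemma K_list (a : Fin 4) {l : List (Fin 4)} (hl : a ∉ l) :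
    P (wl l) - 2 * P (x a * wl l) - 2 * P (wl l * x a) + 4 * P (x a * wl l * x a) = 0 :=
  K_word h a l (fun _ hb hba => hl (hba ▸ hb))

lemma QQ_left (a : Fin 4) (l : List (Fin 4)) : ∑ c, QQ P a (c :: l) = QQ P a l := by
  by_cases hl : a ∈ l
  · rw [QQ, if_pos hl]
    apply Finset.sum_eq_zero
    intro c _
    rw [QQ, if_pos (List.mem_cons_of_mem _ hl)]
  · rw [← Finset.add_sum_erase _ _ (Finset.mem_univ a)]
    have h1 : QQ P a (a :: l) = 0 := by rw [QQ, if_pos List.mem_cons_self]
    have h2 : ∑ c ∈ Finset.univ.erase a, QQ P a (c :: l)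
        = 2 ^ (l.length + 2) * (P (B a * wl l) - 2 * P (x a * (B a * wl l))) := by
      have e1 : P (B a * wl l) = ∑ c ∈ Finset.univ.erase a, P (x c * wl l) := by
        rw [B_eq_sum, Finset.sum_mul, map_sum]
      have e2 : P (x a * (B a * wl l)) = ∑ c ∈ Finset.univ.erase a, P (x a * (x c * wl l)) := by
        rw [B_eq_sum, Finset.sum_mul, Finset.mul_sum, map_sum]
      rw [e1, e2, Finset.mul_sum, ← Finset.sum_sub_distrib, Finset.mul_sum]
      apply Finset.sum_congr rfl
      intro c hc
      have hca : ¬ a ∈ c :: l := by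
        intro hm
        rcases List.mem_cons.mp hm with hm | hm
        · exact (Finset.ne_of_mem_erase hc) hm.symm
        · exact hl hm
      rw [QQ, if_neg hca, wl_cons, List.length_cons]
    rw [h1, h2, zero_add, QQ, if_neg hl]
    have e3 : P (B a * wl l) = P (wl l) - P (x a * wl l) := by
      rw [B, sub_mul, map_sub, s_valL h]
    have e4 : P (x a * (B a * wl l)) = 1 / 4 * P (wl l) := by
      rw [B, sub_mul, mul_sub, map_sub, xx_zero h, sub_zero, ← mul_assoc, h.split, dens h]
    rw [e3, e4]; ring

lemma QQ_right (a : Fin 4) (l : List (Fin 4)) : ∑ c, QQ P a (l ++ [c]) = QQ P a l := by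
  by_cases hl : a ∈ l
  · rw [QQ, if_pos hl]
    apply Finset.sum_eq_zero
    intro c _
    rw [QQ, if_pos (List.mem_append_left _ hl)]
  · rw [← Finset.add_sum_erase _ _ (Finset.mem_univ a)]
    have h1 : QQ P a (l ++ [a]) = 0 := by rw [QQ, if_pos (by simp)]
    have h2 : ∑ c ∈ Finset.univ.erase a, QQ P a (l ++ [c])
        = 2 ^ (l.length + 2) * (P (wl l * B a) - 2 * P (x a * wl l * B a)) := by
      have e1 : P (wl l * B a) = ∑ c ∈ Finset.univ.erase a, P (wl l * x c) := by
        rw [B_eq_sum, Finset.mul_sum, map_sum]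
      have e2 : P (x a * wl l * B a) = ∑ c ∈ Finset.univ.erase a, P (x a * wl l * x c) := by
        rw [B_eq_sum, Finset.mul_sum, map_sum]
      rw [e1, e2, Finset.mul_sum, ← Finset.sum_sub_distrib, Finset.mul_sum]
      apply Finset.sum_congr rfl
      intro c hc
      have hca : ¬ a ∈ l ++ [c] := by
        intro hm
        rcases List.mem_append.mp hm with hm | hm
        · exact hl hm
        · exact (Finset.ne_of_mem_erase hc) (List.mem_singleton.mp hm).symm
      rw [QQ, if_neg hca, wl_append, wl_single, List.length_append, List.length_singleton, mul_assoc]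
    rw [h1, h2, zero_add, QQ, if_neg hl]
    have e3 : P (wl l * B a) = P (wl l) - P (wl l * x a) := by
      rw [B, mul_sub, map_sub, s_val h]
    have e4 : P (x a * wl l * B a) = P (x a * wl l) - P (x a * wl l * x a) := by
      rw [B, mul_sub, map_sub, s_val h]
    have hK := K_list h a hl
    rw [e3, e4]
    have : P (wl l) - P (wl l * x a) - 2 * (P (x a * wl l) - P (x a * wl l * x a))
        = (P (wl l) - 2 * P (x a * wl l)) / 2 := by linarith
    rw [this]; ring

lemma QQ_split (a : Fin 4) (u v : List (Fin 4)) :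
    sw 2 (fun m => QQ P a (u ++ (m ++ v))) = QQ P a u * QQ P a v := by
  show ∑ c : Fin 4, ∑ d : Fin 4, QQ P a (u ++ ((c :: d :: []) ++ v)) = _
  by_cases hu : a ∈ u
  · rw [QQ, if_pos hu, zero_mul]
    apply Finset.sum_eq_zero; intro c _
    apply Finset.sum_eq_zero; intro d _
    rw [QQ, if_pos (List.mem_append_left _ hu)]
  by_cases hv : a ∈ v
  · rw [QQ.eq_1 P a v, if_pos hv, mul_zero]
    apply Finset.sum_eq_zero; intro c _
    apply Finset.sum_eq_zero; intro d _
    rw [QQ, if_pos (List.mem_append_right _ (List.mem_append_right _ hv))]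
  have h1 : ∑ c : Fin 4, ∑ d : Fin 4, QQ P a (u ++ ((c :: d :: []) ++ v))
      = 2 ^ (u.length + v.length + 3) * (P (wl u * (B a * B a) * wl v)
        - 2 * P (x a * wl u * (B a * B a) * wl v)) := by
    have e1 : ∀ p : R, P (p * (B a * B a) * wl v)
        = ∑ c ∈ Finset.univ.erase a, ∑ d ∈ Finset.univ.erase a, P (p * (x c * x d) * wl v) := by
      intro p
      rw [B_eq_sum, Finset.sum_mul_sum, Finset.mul_sum, Finset.sum_mul, map_sum]
      apply Finset.sum_congr rfl; intro c _
      rw [Finset.mul_sum, Finset.sum_mul, map_sum]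
    rw [e1, e1, Finset.mul_sum, ← Finset.sum_sub_distrib, Finset.mul_sum,
      ← Finset.add_sum_erase _ _ (Finset.mem_univ a)]
    have hz : ∑ d : Fin 4, QQ P a (u ++ ((a :: d :: []) ++ v)) = 0 := by
      apply Finset.sum_eq_zero; intro d _
      rw [QQ, if_pos (by simp)]
    rw [hz, zero_add]
    apply Finset.sum_congr rfl; intro c hc
    rw [← Finset.add_sum_erase _ _ (Finset.mem_univ a)]
    have hz : QQ P a (u ++ ((c :: a :: []) ++ v)) = 0 := by
      rw [QQ, if_pos (by simp)]
    rw [hz, zero_add, Finset.mul_sum, ← Finset.sum_sub_distrib, Finset.mul_sum]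
    apply Finset.sum_congr rfl; intro d hd
    have hc' := Finset.ne_of_mem_erase hc
    have hd' := Finset.ne_of_mem_erase hd
    have hm : ¬ a ∈ u ++ ((c :: d :: []) ++ v) := by
      simp only [List.mem_append, List.mem_cons, List.not_mem_nil, or_false, not_or]
      exact ⟨hu, ⟨hc'.symm, hd'.symm⟩, hv⟩
    rw [QQ, if_neg hm, wl_append, wl_append, wl_cons, wl_single]
    have e2 : (u ++ ([c, d] ++ v)).length + 1 = u.length + v.length + 3 := by
      simp only [List.length_append, List.length_cons, List.length_nil]; ring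
    have e3 : wl u * (x c * x d * wl v) = wl u * (x c * x d) * wl v := by noncomm_ring
    have e4 : x a * (wl u * (x c * x d) * wl v) = x a * wl u * (x c * x d) * wl v := by noncomm_ring
    rw [e2, e3, e4]
  have h2 : ∀ p : R, P (p * (B a * B a) * wl v)
      = (P p - P (p * x a)) * P (wl v) - P p * P (x a * wl v) := by
    intro p
    have := recR h a p (wl v) 0
    rw [zero_add, pow_two, pow_one, pow_zero, mul_one] at this
    rw [this]
    have e : P (p * B a) = P p - P (p * x a) := by rw [B, mul_sub, map_sub, s_val h]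
    rw [e]
  rw [h1, h2, h2, QQ, if_neg hu, QQ, if_neg hv]
  have hK := K_list h a hu
  have e5 : P (x a * wl u * x a) = (2 * P (x a * wl u) + 2 * P (wl u * x a) - P (wl u)) / 4 := by
    linarith
  rw [e5]
  have e6 : (2 : ℝ) ^ (u.length + v.length + 3) = 2 * (2 ^ (u.length + 1) * 2 ^ (v.length + 1)) := by
    ring
  rw [e6]; ring

end

/-- The conditioned law exists and is a stationary 2-dependent 3-colouring. -/
theorem cond_law {μ : Measure (ℤ → Fin 4)} (hμ : Col 1 Set.univ μ) (a : Fin 4) :
    ∃ ν : Measure (ℤ → Fin 4), Col 2 {c | c ≠ a} ν ∧ ∀ (n : ℤ) (l : List (Fin 4)), a ∉ l →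
      ν.real (cyl n l) = 2 ^ (l.length + 1) * (μ.real (cyl 0 l) - 2 * μ.real (cyl 0 (a :: l))) := by
  have h := hμ.sol
  obtain ⟨ν, hν, hc⟩ := exists_col 2 {c | c ≠ a} (Q := QQ (Pm μ) a)
    (by
      rw [QQ, if_neg (by simp), wl_nil, mul_one, h.one, dens h]; norm_num)
    (by
      intro l; rw [QQ]; split_ifs
      · exact le_rfl
      · exact mul_nonneg (by positivity) (cond_nonneg h a l))
    (QQ_right h a) (QQ_left h a)
    (by
      intro b
      rw [QQ]; split_ifs
      · rfl
      · rw [wl_cons, wl_single]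
        have h1 : Pm μ (x b * x b) = 0 := by
          have := h.sq b 1 1; simpa using this
        have h2 : Pm μ (x a * (x b * x b)) = 0 := by
          have := h.sq b (x a) 1
          rwa [mul_one, mul_assoc] at this
        rw [h1, h2]; ring)
    (by
      intro b hb
      have : b = a := by simpa using hb
      rw [QQ, if_pos (by simp [this])])
    (QQ_split h a)
  refine ⟨ν, hν, ?_⟩
  intro n l hl
  rw [hc, QQ, if_neg hl, wl, Pm_list]
  have : x a * wd (FreeMonoid.ofList l) = wd (FreeMonoid.ofList (a :: l)) := by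
    rw [x, ← wd_mul]; rfl
  rw [this, Pm_list]

lemma exists_V4 : ∀ a b : Fin 4, a ≠ b → ∃ π : Equiv.Perm (Fin 4), (∀ c, π c ≠ c) ∧
    (∀ c, π (π c) = c) ∧ π a = b := by decide

section
variable {P P' : R →ₗ[ℝ] ℝ} (h : Sol P) (h' : Sol P') {N : ℕ} (hA : Agree P P' N) (a : Fin 4)
  (hc : ∀ l : List (Fin 4), a ∉ l →
    P (wl l) - 2 * P (x a * wl l) = P' (wl l) - 2 * P' (x a * wl l))
include h h' hA hc

lemma Dl_first (v : List (Fin 4)) : ∀ w : List (Fin 4), a ∉ w →
    Dl P P' N (x a * wl w * wl v) = 0 := by
  induction v with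
  | nil =>
    intro w hw
    rw [wl_nil, mul_one]
    have hm : x a * wl w ∈ Hm (1 + w.length) := Hm_mul (x_Hm a) (wd_Hm _)
    by_cases hN : 1 + w.length = N
    · rw [hN] at hm
      rw [Dl_hom hm]
      have h1 := hc w hw
      have h2 : P (wl w) = P' (wl w) := hA _ (by
        show w.length < N
        omega)
      linarith
    · exact Dl_hom0 hm hN
  | cons b v ih =>
    intro w hw
    have hstep : ∀ c, c ≠ a → Dl P P' N (x a * wl w * (x c * wl v)) = 0 := by
      intro c hca
      have := ih (w ++ [c]) (by
        simp only [List.mem_append, List.mem_singleton, not_or]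
        exact ⟨hw, fun e => hca e.symm⟩)
      rw [wl_append, wl_single] at this
      rw [← this]; congr 1; noncomm_ring
    rw [wl_cons]
    by_cases hb : b = a
    · subst hb
      have e : x b * wl w * (x b * wl v) = (x b * wl w) * s * wl v
          - ∑ c ∈ Finset.univ.erase b, x b * wl w * (x c * wl v) := by
        have e1 : ∑ c ∈ Finset.univ.erase b, x b * wl w * (x c * wl v)
            = x b * wl w * (B b * wl v) := by
          rw [B_eq_sum, Finset.sum_mul, Finset.mul_sum]
        rw [e1, B]; noncomm_ring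
      rw [e, map_sub, Dl_s h h' hA, map_sum, Finset.sum_eq_zero, sub_zero]
      intro c hcb
      exact hstep c (Finset.ne_of_mem_erase hcb)
    · exact hstep b hb

end

/-- Injectivity at the level of functionals. -/
theorem cond_inj {P P' : R →ₗ[ℝ] ℝ} (h : Sol P) (h' : Sol P') (a : Fin 4)
    (hc : ∀ l : List (Fin 4), a ∉ l →
      P (wl l) - 2 * P (x a * wl l) = P' (wl l) - 2 * P' (x a * wl l)) (w : W) :
    P (wd w) = P' (wd w) := by
  have key : ∀ N, Agree P P' N := by
    intro N
    induction N with
    | zero => intro w hw; exact absurd hw (Nat.not_lt_zero _)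
    | succ N ih =>
      intro w hw
      rcases Nat.lt_succ_iff_lt_or_eq.mp hw with h1 | h1
      · exact ih w h1
      · -- first letter equal to a
        have hfirst : ∀ l : List (Fin 4), (a :: l).length = N →
            P (wl (a :: l)) = P' (wl (a :: l)) := by
          intro l hl
          have h2 := Dl_first h h' ih a hc l [] (by simp)
          rw [wl_nil, mul_one, ← wl_cons] at h2
          rw [wl, Dl, Lf_wd, if_pos (show (FreeMonoid.ofList (a :: l)).length = N from hl)] at h2
          rw [wl]; linarith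
        suffices hall : ∀ l : List (Fin 4), l.length = N →
            P (wd (FreeMonoid.ofList l)) = P' (wd (FreeMonoid.ofList l)) by
          exact hall (FreeMonoid.toList w) h1
        clear h1 hw w
        intro l h1
        cases l with
        | nil =>
          show P (wl []) = P' (wl [])
          rw [wl_nil, h.one, h'.one]
        | cons b l =>
          by_cases hb : b = a
          · subst hb
            exact hfirst l h1
          · obtain ⟨π, hπ1, hπ2, hπ⟩ := exists_V4 b a hb
            have g1 := invariance h (π := π) ⟨hπ1, hπ2⟩ (FreeMonoid.ofList (b :: l))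
            have g2 := invariance h' (π := π) ⟨hπ1, hπ2⟩ (FreeMonoid.ofList (b :: l))
            have e : FreeMonoid.map π (FreeMonoid.ofList (b :: l))
                = FreeMonoid.ofList (a :: l.map π) := by
              rw [← hπ]; rfl
            rw [g1, g2, e]
            apply hfirst
            have : (b :: l).length = N := h1
            simpa using this
  exact key (w.length + 1) w (Nat.lt_succ_self _)

end Pool.Agent.H239R3.KC
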