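import Mathlib
import Pool.Agent.H239R3.KCh

set_option autoImplicit false

/-!
The deletion flow on stationary 1-dependent 4-colourings.
-/

open MeasureTheory ProbabilityTheory Filter Topology

namespace Pool.Agent.H239R3.KC

/-- sum over all deletions of one letter -/
def dl {M : Type} [AddCommMonoid M] : (List (Fin 4) → M) → List (Fin 4) → M
  | _, [] => 0
  | F, a :: l => F l + dl (fun t => F (a :: t)) l

section
variable {M : Type} [AddCommMonoid M]

lemma dl_congr (l : List (Fin 4)) : ∀ F G : List (Fin 4) → M,
    (∀ t, t.length + 1 = l.length → F t = G t) → dl F l = dl G l := by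
  induction l with
  | nil => intro F G _; rfl
  | cons a l ih =>
    intro F G h
    show F l + dl (fun t => F (a :: t)) l = G l + dl (fun t => G (a :: t)) l
    rw [h l rfl, ih _ _ (fun t ht => h (a :: t) (by simp only [List.length_cons]; omega))]

lemma dl_zero (l : List (Fin 4)) : dl (fun _ => (0 : M)) l = 0 := by
  induction l with
  | nil => rfl
  | cons a l ih => show (0 : M) + dl (fun _ => (0 : M)) l = 0; rw [ih, add_zero]

lemma dl_append (u : List (Fin 4)) : ∀ (F : List (Fin 4) → M) (v : List (Fin 4)),
    dl F (u ++ v) = dl (fun t => F (t ++ v)) u + dl (fun t => F (u ++ t)) v := by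
  induction u with
  | nil => intro F v; show dl F v = 0 + dl F v; rw [zero_add]
  | cons a u ih =>
    intro F v
    show F (u ++ v) + dl (fun t => F (a :: t)) (u ++ v)
      = (F (u ++ v) + dl (fun t => F (a :: t ++ v)) u) + dl (fun t => F (a :: u ++ t)) v
    rw [ih, add_assoc]
    rfl

lemma dl_add (l : List (Fin 4)) : ∀ F G : List (Fin 4) → M,
    dl (fun t => F t + G t) l = dl F l + dl G l := by
  induction l with
  | nil => intro F G; show (0 : M) = 0 + 0; rw [zero_add]
  | cons a l ih =>
    intro F G
    show (F l + G l) + dl (fun t => F (a :: t) + G (a :: t)) l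
      = (F l + dl (fun t => F (a :: t)) l) + (G l + dl (fun t => G (a :: t)) l)
    rw [ih]; abel

lemma dl_sum {ι : Type} (s : Finset ι) (l : List (Fin 4)) (F : ι → List (Fin 4) → M) :
    dl (fun t => ∑ i ∈ s, F i t) l = ∑ i ∈ s, dl (F i) l := by
  classical
  induction s using Finset.induction_on with
  | empty => simp [dl_zero]
  | insert i s hi ih =>
    rw [Finset.sum_insert hi, ← ih, ← dl_add]
    congr 1; funext t; rw [Finset.sum_insert hi]

end

lemma dl_mul_right (l : List (Fin 4)) (c : ℝ) : ∀ F : List (Fin 4) → ℝ,
    dl (fun t => F t * c) l = dl F l * c := by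
  induction l with
  | nil => intro F; show (0 : ℝ) = 0 * c; rw [zero_mul]
  | cons a l ih =>
    intro F
    show F l * c + dl (fun t => F (a :: t) * c) l = (F l + dl (fun t => F (a :: t)) l) * c
    rw [ih, add_mul]

lemma dl_mul_left (l : List (Fin 4)) (c : ℝ) (F : List (Fin 4) → ℝ) :
    dl (fun t => c * F t) l = c * dl F l := by
  rw [mul_comm c, ← dl_mul_right]; congr 1; funext t; rw [mul_comm]

lemma dl_nonneg (l : List (Fin 4)) : ∀ F : List (Fin 4) → ℝ, (∀ t, 0 ≤ F t) → 0 ≤ dl F l := by
  induction l with
  | nil => intro F _; exact le_rfl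
  | cons a l ih => intro F h; exact add_nonneg (h l) (ih _ (fun t => h _))

/-- proper words -/
def Prp (l : List (Fin 4)) : Prop := l.IsChain (· ≠ ·)

instance (l : List (Fin 4)) : Decidable (Prp l) := inferInstanceAs (Decidable (l.IsChain (· ≠ ·)))

lemma not_prp_mid (u v : List (Fin 4)) (e : Fin 4) : ¬ Prp (u ++ e :: e :: v) := by
  intro h
  rw [Prp, List.isChain_append] at h
  have := h.2.1
  rw [List.isChain_cons_cons] at this
  exact this.1 rfl

lemma exists_mid (l : List (Fin 4)) (h : ¬ Prp l) : ∃ u e v, l = u ++ e :: e :: v := by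
  induction l with
  | nil => exact absurd List.isChain_nil h
  | cons a l ih =>
    cases l with
    | nil => exact absurd (List.isChain_singleton a) h
    | cons b l =>
      by_cases hab : a = b
      · subst hab; exact ⟨[], a, l, rfl⟩
      · have : ¬ Prp (b :: l) := by
          intro hp; apply h
          rw [Prp, List.isChain_cons_cons]; exact ⟨hab, hp⟩
        obtain ⟨u, e, v, hv⟩ := ih this
        exact ⟨a :: u, e, v, by rw [hv]; rfl⟩

section
variable {F : List (Fin 4) → ℝ} (hF : ∀ l, ¬ Prp l → F l = 0)
include hF

lemma del_id {u v : List (Fin 4)} (hu : Prp u) (hv : Prp v) (e : Fin 4) :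
    (if Prp (u ++ e :: v) then dl F (u ++ e :: v) else 0)
      = dl (fun t => F (t ++ e :: v)) u + dl (fun t => F (u ++ e :: t)) v
        + F (u ++ v) * (1 - 2 * (if u.getLast? = some e then 1 else 0)
          - 2 * (if v.head? = some e then 1 else 0)) := by
  by_cases h1 : u.getLast? = some e
  · obtain ⟨u', rfl⟩ : ∃ u', u = u' ++ [e] := by
      rw [List.getLast?_eq_some_iff] at h1; exact h1
    have hnp : ∀ t, ¬ Prp (u' ++ [e] ++ e :: t) := by
      intro t; rw [List.append_assoc]; exact not_prp_mid u' t e
    rw [if_neg (hnp v)]
    have z2 : dl (fun t => F (u' ++ [e] ++ e :: t)) v = 0 := by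
      rw [← dl_zero (M := ℝ) v]; apply dl_congr; intro t _; exact hF _ (hnp t)
    rw [z2, if_pos h1]
    by_cases h2 : v.head? = some e
    · obtain ⟨v', rfl⟩ : ∃ v', v = e :: v' := by
        cases v with
        | nil => simp at h2
        | cons b v => simp at h2; exact ⟨v, by rw [h2]⟩
      have z1 : dl (fun t => F (t ++ e :: e :: v')) (u' ++ [e]) = 0 := by
        rw [← dl_zero (M := ℝ) (u' ++ [e])]; apply dl_congr; intro t _; exact hF _ (not_prp_mid t v' e)
      rw [z1, hF _ (hnp v')]; ring
    · rw [if_neg h2, dl_append]
      have z1 : dl (fun t => F (t ++ [e] ++ e :: v)) u' = 0 := by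
        rw [← dl_zero (M := ℝ) u']; apply dl_congr; intro t _
        rw [List.append_assoc]; exact hF _ (not_prp_mid t v e)
      have z3 : dl (fun t => F (u' ++ t ++ e :: v)) [e] = F (u' ++ [e] ++ v) := by
        show F (u' ++ [] ++ e :: v) + 0 = _
        rw [add_zero, List.append_nil, List.append_assoc]; rfl
      rw [z1, z3]; ring
  · rw [if_neg h1]
    by_cases h2 : v.head? = some e
    · obtain ⟨v', rfl⟩ : ∃ v', v = e :: v' := by
        cases v with
        | nil => simp at h2
        | cons b v => simp at h2; exact ⟨v, by rw [h2]⟩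
      rw [if_pos h2, if_neg (not_prp_mid u v' e)]
      have z1 : dl (fun t => F (t ++ e :: e :: v')) u = 0 := by
        rw [← dl_zero (M := ℝ) u]; apply dl_congr; intro t _; exact hF _ (not_prp_mid t v' e)
      have z3 : dl (fun t => F (u ++ e :: t)) (e :: v') = F (u ++ e :: v') := by
        show F (u ++ e :: v') + dl (fun t => F (u ++ e :: e :: t)) v' = _
        have : dl (fun t => F (u ++ e :: e :: t)) v' = 0 := by
          rw [← dl_zero (M := ℝ) v']; apply dl_congr; intro t _; exact hF _ (not_prp_mid u t e)
        rw [this, add_zero]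
      rw [z1, z3]; ring
    · rw [if_neg h2]
      have hp : Prp (u ++ e :: v) := by
        rw [Prp, List.isChain_append]
        refine ⟨hu, ?_, ?_⟩
        · rw [List.isChain_cons]
          refine ⟨?_, hv⟩
          intro y hy hey
          apply h2
          rw [hey]; exact hy
        · intro a ha b hb
          simp at hb
          subst hb
          intro hae
          apply h1
          rw [← hae]; exact ha
      rw [if_pos hp, dl_append]
      show dl (fun t => F (t ++ e :: v)) u + (F (u ++ v) + dl (fun t => F (u ++ e :: t)) v) = _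
      ring

lemma del_sum {u v : List (Fin 4)} (hu : Prp u) (hv : Prp v) :
    ∑ e, (if Prp (u ++ e :: v) then dl F (u ++ e :: v) else 0)
      = dl (fun t => ∑ e, F (t ++ e :: v)) u + dl (fun t => ∑ e, F (u ++ e :: t)) v
        + (if u = [] then 2 * F v else 0) + (if v = [] then 2 * F u else 0) := by
  rw [Finset.sum_congr rfl (fun e _ => del_id hF hu hv e), Finset.sum_add_distrib,
    Finset.sum_add_distrib, dl_sum, dl_sum, ← Finset.mul_sum]
  have h1 : ∀ o : Option (Fin 4), ∑ e : Fin 4, (if o = some e then (1 : ℝ) else 0)
      = if o = none then 0 else 1 := by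
    intro o
    cases o with
    | none => simp
    | some a => simp
  have h2 : ∑ e : Fin 4, (1 - 2 * (if u.getLast? = some e then (1 : ℝ) else 0)
          - 2 * (if v.head? = some e then 1 else 0))
      = 4 - 2 * (if u.getLast? = none then 0 else 1) - 2 * (if v.head? = none then 0 else 1) := by
    rw [Finset.sum_sub_distrib, Finset.sum_sub_distrib, ← Finset.mul_sum, ← Finset.mul_sum, h1, h1]
    simp
  rw [h2]
  simp only [List.getLast?_eq_none_iff, List.head?_eq_none_iff]
  by_cases hu0 : u = []
  · by_cases hv0 : v = []
    · simp only [hu0, hv0, if_true, List.nil_append]; ring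
    · simp only [hu0, hv0, if_true, if_false, List.nil_append]; ring
  · by_cases hv0 : v = []
    · simp only [hu0, hv0, if_true, if_false, List.append_nil]; ring
    · simp only [hu0, hv0, if_false]; ring

end

/-- list form of a solution -/
structure LS (Q : List (Fin 4) → ℝ) : Prop where
  one : Q [] = 1
  nonneg : ∀ l, 0 ≤ Q l
  split : ∀ u v, ∑ c, Q (u ++ c :: v) = Q u * Q v
  improper : ∀ l, ¬ Prp l → Q l = 0

/-- Taylor coefficients of the deletion flow -/
noncomputable def cf (Q : List (Fin 4) → ℝ) : ℕ → List (Fin 4) → ℝ
  | 0, l => Q l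
  | k + 1, l => if l = [] then (if k = 0 then 2 else 0)
      else if Prp l then dl (cf Q k) l / (k + 1) else 0

section
variable {Q : List (Fin 4) → ℝ} (hQ : LS Q)
include hQ

lemma cf_improper (k : ℕ) (l : List (Fin 4)) (h : ¬ Prp l) : cf Q k l = 0 := by
  cases k with
  | zero => exact hQ.improper l h
  | succ k =>
    rw [cf, if_neg, if_neg h]
    rintro rfl
    exact h List.isChain_nil

lemma cf_nonneg (k : ℕ) : ∀ l, 0 ≤ cf Q k l := by
  induction k with
  | zero => exact hQ.nonneg
  | succ k ih =>
    intro l
    rw [cf]
    split_ifs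
    · norm_num
    · exact le_rfl
    · exact div_nonneg (dl_nonneg _ _ ih) (by positivity)
    · exact le_rfl

omit hQ in
lemma cf_big (k : ℕ) : ∀ l : List (Fin 4), l.length + 2 ≤ k → cf Q k l = 0 := by
  induction k with
  | zero => intro l h; omega
  | succ k ih =>
    intro l h
    rw [cf]
    split_ifs with h1 h2 h3
    · omega
    · rfl
    · have : dl (cf Q k) l = 0 := by
        rw [← dl_zero (M := ℝ) l]; apply dl_congr; intro t ht; exact ih t (by omega)
      rw [this, zero_div]
    · rfl

omit hQ in
lemma cf_succ {l : List (Fin 4)} (hl : Prp l) (k : ℕ) :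
    ((k : ℝ) + 1) * cf Q (k + 1) l = dl (cf Q k) l + (if l = [] then (if k = 0 then 2 else 0) else 0) := by
  rw [cf]
  by_cases h : l = []
  · rw [if_pos h, if_pos h, h]
    show _ = (0 : ℝ) + _
    split_ifs with hk
    · rw [hk]; norm_num
    · ring
  · rw [if_neg h, if_neg h, if_pos hl]
    have : ((k : ℝ) + 1) ≠ 0 := by positivity
    field_simp
    ring

lemma cf_split (k : ℕ) : ∀ u v : List (Fin 4), ∑ e, cf Q k (u ++ e :: v)
    = ∑ p ∈ Finset.HasAntidiagonal.antidiagonal k, cf Q p.1 u * cf Q p.2 v := by
  induction k with
  | zero => intro u v; simp [cf, hQ.split]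
  | succ k ih =>
    intro u v
    have hk : ((k : ℝ) + 1) ≠ 0 := by positivity
    by_cases hu : Prp u
    · by_cases hv : Prp v
      · apply mul_left_cancel₀ hk
        have hL : ((k : ℝ) + 1) * ∑ e, cf Q (k + 1) (u ++ e :: v)
            = ∑ e, (if Prp (u ++ e :: v) then dl (cf Q k) (u ++ e :: v) else 0) := by
          rw [Finset.mul_sum]
          apply Finset.sum_congr rfl
          intro e _
          by_cases hp : Prp (u ++ e :: v)
          · rw [cf_succ hp, if_pos hp, if_neg (by simp), add_zero]
          · rw [cf_improper hQ _ _ hp, if_neg hp, mul_zero]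
        rw [hL, del_sum (cf_improper hQ k) hu hv]
        have e1 : dl (fun t => ∑ e, cf Q k (t ++ e :: v)) u
            = ∑ p ∈ Finset.HasAntidiagonal.antidiagonal k, dl (cf Q p.1) u * cf Q p.2 v := by
          rw [show (fun t => ∑ e, cf Q k (t ++ e :: v))
            = fun t => ∑ p ∈ Finset.HasAntidiagonal.antidiagonal k, cf Q p.1 t * cf Q p.2 v from
              funext (fun t => ih t v), dl_sum]
          apply Finset.sum_congr rfl; intro p _; rw [dl_mul_right]
        have e2 : dl (fun t => ∑ e, cf Q k (u ++ e :: t)) v
            = ∑ p ∈ Finset.HasAntidiagonal.antidiagonal k, cf Q p.1 u * dl (cf Q p.2) v := by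
          rw [show (fun t => ∑ e, cf Q k (u ++ e :: t))
            = fun t => ∑ p ∈ Finset.HasAntidiagonal.antidiagonal k, cf Q p.1 u * cf Q p.2 t from
              funext (fun t => ih u t), dl_sum]
          apply Finset.sum_congr rfl; intro p _; rw [dl_mul_left]
        -- power series
        let A : PowerSeries ℝ := PowerSeries.mk (fun i => cf Q i u)
        let C : PowerSeries ℝ := PowerSeries.mk (fun i => cf Q i v)
        have hD : PowerSeries.coeff k (PowerSeries.derivative ℝ (A * C))
            = PowerSeries.coeff k (A * PowerSeries.derivative ℝ C + C * PowerSeries.derivative ℝ A) := by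
          rw [Derivation.leibniz]; rfl
        rw [PowerSeries.coeff_derivative, map_add, PowerSeries.coeff_mul, PowerSeries.coeff_mul,
          mul_comm C, PowerSeries.coeff_mul] at hD
        simp only [PowerSeries.coeff_derivative, A, C, PowerSeries.coeff_mk] at hD
        rw [mul_comm ((k : ℝ) + 1), hD]
        have e3 : ∑ p ∈ Finset.HasAntidiagonal.antidiagonal k, cf Q (p.1 + 1) u * ((p.1 : ℝ) + 1) * cf Q p.2 v
            = ∑ p ∈ Finset.HasAntidiagonal.antidiagonal k, dl (cf Q p.1) u * cf Q p.2 v
              + (if u = [] then 2 * cf Q k v else 0) := by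
          have : ∀ p : ℕ × ℕ, cf Q (p.1 + 1) u * ((p.1 : ℝ) + 1) * cf Q p.2 v
              = dl (cf Q p.1) u * cf Q p.2 v
                + (if u = [] then (if p.1 = 0 then 2 * cf Q p.2 v else 0) else 0) := by
            intro p
            rw [mul_comm (cf Q (p.1 + 1) u), cf_succ hu, add_mul]
            congr 1
            split_ifs <;> ring
          rw [Finset.sum_congr rfl (fun p _ => this p), Finset.sum_add_distrib]
          congr 1
          by_cases h : u = []
          · simp only [h, if_true]
            rw [Finset.sum_eq_single (0, k)]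
            · simp
            · rintro ⟨i, j⟩ hp hne
              rw [Finset.HasAntidiagonal.mem_antidiagonal] at hp
              rw [if_neg]
              intro hi
              apply hne
              simp only at hi hp
              rw [hi] at hp ⊢
              rw [zero_add] at hp; rw [hp]
            · intro hh; exfalso; apply hh; simp
          · simp [h]
        have e4 : ∑ p ∈ Finset.HasAntidiagonal.antidiagonal k, cf Q p.1 u * (cf Q (p.2 + 1) v * ((p.2 : ℝ) + 1))
            = ∑ p ∈ Finset.HasAntidiagonal.antidiagonal k, cf Q p.1 u * dl (cf Q p.2) v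
              + (if v = [] then 2 * cf Q k u else 0) := by
          have : ∀ p : ℕ × ℕ, cf Q p.1 u * (cf Q (p.2 + 1) v * ((p.2 : ℝ) + 1))
              = cf Q p.1 u * dl (cf Q p.2) v
                + (if v = [] then (if p.2 = 0 then 2 * cf Q p.1 u else 0) else 0) := by
            intro p
            rw [mul_comm (cf Q (p.2 + 1) v), cf_succ hv, mul_add]
            congr 1
            split_ifs <;> ring
          rw [Finset.sum_congr rfl (fun p _ => this p), Finset.sum_add_distrib]
          congr 1
          by_cases h : v = []
          · simp only [h, if_true]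
            rw [Finset.sum_eq_single (k, 0)]
            · simp
            · rintro ⟨i, j⟩ hp hne
              rw [Finset.HasAntidiagonal.mem_antidiagonal] at hp
              rw [if_neg]
              intro hi
              apply hne
              simp only at hi hp
              rw [hi] at hp ⊢
              rw [add_zero] at hp; rw [hp]
            · intro hh; exfalso; apply hh; simp
          · simp [h]
        rw [e1, e2, e3, e4]; ring
      · have h1 : ∀ e, cf Q (k + 1) (u ++ e :: v) = 0 := by
          intro e; apply cf_improper hQ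
          intro hp
          apply hv
          rw [Prp, List.isChain_append] at hp
          exact (List.isChain_cons.mp hp.2.1).2
        rw [Finset.sum_eq_zero (fun e _ => h1 e), Finset.sum_eq_zero]
        intro p _; rw [cf_improper hQ _ _ hv, mul_zero]
    · have h1 : ∀ e, cf Q (k + 1) (u ++ e :: v) = 0 := by
        intro e; apply cf_improper hQ
        intro hp
        apply hu
        rw [Prp, List.isChain_append] at hp
        exact hp.1
      rw [Finset.sum_eq_zero (fun e _ => h1 e), Finset.sum_eq_zero]
      intro p _; rw [cf_improper hQ _ _ hu, zero_mul]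

end

end Pool.Agent.H239R3.KC
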