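import Mathlib
import Pool.Agent.H239R3.KCi

set_option autoImplicit false

/-!
The laws along the deletion flow, and the alternative: one law or uncountably many.
-/

open MeasureTheory ProbabilityTheory Filter Topology

namespace Pool.Agent.H239R3.KC

noncomputable def pl (Q : List (Fin 4) → ℝ) (l : List (Fin 4)) : Polynomial ℝ :=
  ∑ k ∈ Finset.range (l.length + 2), Polynomial.monomial k (cf Q k l)

lemma pl_coeff (Q : List (Fin 4) → ℝ) (l : List (Fin 4)) (k : ℕ) : (pl Q l).coeff k = cf Q k l := by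
  rw [pl, Polynomial.finsetSum_coeff]
  simp only [Polynomial.coeff_monomial]
  rw [Finset.sum_ite_eq']
  split_ifs with h
  · rfl
  · rw [cf_big k l]
    rw [Finset.mem_range] at h; omega

lemma pl_eval (Q : List (Fin 4) → ℝ) (l : List (Fin 4)) (t : ℝ) :
    (pl Q l).eval t = ∑ k ∈ Finset.range (l.length + 2), cf Q k l * t ^ k := by
  rw [pl, Polynomial.eval_finsetSum]
  simp only [Polynomial.eval_monomial]

/-- cylinder probabilities along the flow -/
noncomputable def fl (Q : List (Fin 4) → ℝ) (t : ℝ) (l : List (Fin 4)) : ℝ :=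
  (pl Q l).eval t / (1 + 2 * t) ^ (l.length + 1)

section
variable {Q : List (Fin 4) → ℝ} (hQ : LS Q)
include hQ

lemma pl_split (u v : List (Fin 4)) : ∑ e, pl Q (u ++ e :: v) = pl Q u * pl Q v := by
  ext k
  rw [Polynomial.finsetSum_coeff, Polynomial.coeff_mul]
  simp only [pl_coeff]
  exact cf_split hQ k u v

lemma fl_LS {t : ℝ} (ht : 0 ≤ t) : LS (fl Q t) where
  one := by
    rw [fl, pl_eval]
    show (∑ k ∈ Finset.range 2, cf Q k [] * t ^ k) / (1 + 2 * t) ^ 1 = 1
    rw [Finset.sum_range_succ, Finset.sum_range_one]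
    have h1 : cf Q 0 [] = 1 := hQ.one
    have h2 : cf Q 1 [] = 2 := by rw [cf, if_pos rfl, if_pos rfl]
    rw [h1, h2]
    have : (1 + 2 * t) ≠ 0 := by positivity
    field_simp
  nonneg l := by
    rw [fl, pl_eval]
    apply div_nonneg
    · apply Finset.sum_nonneg
      intro k _
      exact mul_nonneg (cf_nonneg hQ k l) (pow_nonneg ht k)
    · positivity
  split u v := by
    have h1 : ∀ c, fl Q t (u ++ c :: v)
        = (pl Q (u ++ c :: v)).eval t / (1 + 2 * t) ^ (u.length + 1 + (v.length + 1)) := by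
      intro c
      rw [fl]
      congr 2
      simp only [List.length_append, List.length_cons]; ring
    rw [Finset.sum_congr rfl (fun c _ => h1 c), ← Finset.sum_div, ← Polynomial.eval_finsetSum,
      pl_split hQ, Polynomial.eval_mul, fl, fl, pow_add, mul_div_mul_comm]
  improper l hl := by
    rw [fl, pl_eval, Finset.sum_eq_zero, zero_div]
    intro k _
    rw [cf_improper hQ k l hl, zero_mul]

/-- laws from list solutions -/
theorem LS.law : ∃ μ : Measure (ℤ → Fin 4), Col 1 Set.univ μ ∧ ∀ n l, μ.real (cyl n l) = Q l := by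
  apply exists_col 1 Set.univ hQ.one hQ.nonneg
  · intro l
    have := hQ.split l []
    rw [hQ.one, mul_one] at this
    exact this
  · intro l
    have := hQ.split [] l
    rw [hQ.one, one_mul] at this
    exact this
  · intro a
    exact hQ.improper _ (not_prp_mid [] [] a)
  · intro a ha; exact absurd (Set.mem_univ a) ha
  · intro u v
    exact hQ.split u v

end

lemma Col.LS {S : Set (Fin 4)} {μ : Measure (ℤ → Fin 4)} (h : Col 1 S μ) :
    LS (fun l => μ.real (cyl 0 l)) where
  one := by
    have := h.prob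
    show μ.real (cyl 0 []) = 1
    rw [cyl_nil]; simp
  nonneg l := measureReal_nonneg
  split u v := by
    have h1 := h.sol.split (wl u) (wl v)
    rw [s_eq_sum, Finset.mul_sum, Finset.sum_mul, map_sum] at h1
    have h2 : ∀ c, wl u * x c * wl v = wl (u ++ c :: v) := by
      intro c; rw [wl_append, wl_cons, mul_assoc]
    rw [Finset.sum_congr rfl (fun c _ => by rw [h2 c, wl, Pm_list])] at h1
    rw [wl, Pm_list, wl, Pm_list] at h1
    exact h1
  improper l hl := by
    obtain ⟨u, e, v, rfl⟩ := exists_mid l hl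
    have h1 := h.sol.sq e (wl u) (wl v)
    have h2 : wl u * x e * x e * wl v = wl (u ++ e :: e :: v) := by
      rw [wl_append, wl_cons, wl_cons]; noncomm_ring
    rw [h2, wl, Pm_list] at h1
    exact h1

section
variable {Q Q' : List (Fin 4) → ℝ} {N : ℕ} (hA : ∀ l : List (Fin 4), l.length < N → Q l = Q' l)
include hA

lemma cf_agree (k : ℕ) : ∀ l : List (Fin 4), l.length < N → cf Q k l = cf Q' k l := by
  induction k with
  | zero => exact hA
  | succ k ih =>
    intro l hl
    rw [cf, cf]
    have : dl (cf Q k) l = dl (cf Q' k) l := by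
      apply dl_congr; intro t ht; exact ih t (by omega)
    rw [this]

lemma cf_agree' (k : ℕ) (l : List (Fin 4)) (hl : l.length = N) : cf Q (k + 1) l = cf Q' (k + 1) l := by
  rw [cf, cf]
  have : dl (cf Q k) l = dl (cf Q' k) l := by
    apply dl_congr; intro t ht; exact cf_agree hA k t (by omega)
  rw [this]

lemma fl_diff (t : ℝ) (l : List (Fin 4)) (hl : l.length = N) :
    fl Q t l - fl Q' t l = (Q l - Q' l) / (1 + 2 * t) ^ (N + 1) := by
  rw [fl, fl, hl, ← sub_div, pl_eval, pl_eval]
  congr 1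
  rw [show l.length + 2 = (l.length + 1) + 1 from rfl,
    Finset.sum_range_succ' (fun k => cf Q k l * t ^ k) (l.length + 1),
    Finset.sum_range_succ' (fun k => cf Q' k l * t ^ k) (l.length + 1)]
  have : ∑ k ∈ Finset.range (l.length + 1), cf Q (k + 1) l * t ^ (k + 1)
      = ∑ k ∈ Finset.range (l.length + 1), cf Q' (k + 1) l * t ^ (k + 1) := by
    apply Finset.sum_congr rfl
    intro k _
    rw [cf_agree' hA k l hl]
  rw [this]
  simp only [cf, pow_zero, mul_one]
  ring

end

/-- Two different laws of stationary 1-dependent 4-colourings produce uncountably many. -/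
theorem uncountable_of_ne {μ ν : Measure (ℤ → Fin 4)} (hμ : Col 1 Set.univ μ)
    (hν : Col 1 Set.univ ν) (hne : μ ≠ ν) :
    ¬ {ρ : Measure (ℤ → Fin 4) | Col 1 Set.univ ρ}.Countable := by
  classical
  intro hcount
  set Q : List (Fin 4) → ℝ := fun l => μ.real (cyl 0 l) with hQd
  set Q' : List (Fin 4) → ℝ := fun l => ν.real (cyl 0 l) with hQd'
  have hQ : LS Q := hμ.LS
  have hQ' : LS Q' := hν.LS
  have hex : ∃ n, ∃ l : List (Fin 4), l.length = n ∧ Q l ≠ Q' l := by
    by_contra hcon
    push Not at hcon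
    exact hne (Col.ext hμ hν (fun l => hcon l.length l rfl))
  obtain ⟨l, hl, hlne⟩ := Nat.find_spec hex
  have hmin : ∀ t : List (Fin 4), t.length < l.length → Q t = Q' t := by
    intro t ht
    by_contra h
    rw [hl] at ht
    exact Nat.find_min hex ht ⟨t, rfl, h⟩
  set V : Set ℝ := (fun ρ : Measure (ℤ → Fin 4) => ρ.real (cyl 0 l)) ''
    {ρ : Measure (ℤ → Fin 4) | Col 1 Set.univ ρ} with hV
  have hVc : V.Countable := hcount.image _
  have hmem : ∀ {q : List (Fin 4) → ℝ}, LS q → ∀ t : ℝ, 0 ≤ t → fl q t l ∈ V := by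
    intro q hq t ht
    obtain ⟨ρ, hρ, hc⟩ := (fl_LS hq ht).law
    exact ⟨ρ, hρ, hc 0 l⟩
  have hD : (Set.image2 (fun a b : ℝ => a - b) V V).Countable := hVc.image2 hVc _
  set g : ℝ → ℝ := fun t => (Q l - Q' l) / (1 + 2 * t) ^ (l.length + 1) with hg
  have hsub : g '' Set.Ici 0 ⊆ Set.image2 (fun a b : ℝ => a - b) V V := by
    rintro _ ⟨t, ht, rfl⟩
    refine ⟨fl Q t l, hmem hQ t ht, fl Q' t l, hmem hQ' t ht, ?_⟩
    exact fl_diff hmin t l rfl
  have hinj : Set.InjOn g (Set.Ici 0) := by
    intro a ha b hb hab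
    have ha' : (0 : ℝ) ≤ a := ha
    have hb' : (0 : ℝ) ≤ b := hb
    have hd : Q l - Q' l ≠ 0 := sub_ne_zero.mpr hlne
    simp only [hg] at hab
    have h1 : (1 + 2 * a) ^ (l.length + 1) = (1 + 2 * b) ^ (l.length + 1) := by
      have ha2 : (1 + 2 * a) ^ (l.length + 1) ≠ 0 := by positivity
      have hb2 : (1 + 2 * b) ^ (l.length + 1) ≠ 0 := by positivity
      rw [div_eq_div_iff ha2 hb2] at hab
      exact (mul_left_cancel₀ hd hab).symm
    have h3 : 1 + 2 * a = 1 + 2 * b := by
      exact (pow_left_inj₀ (by positivity) (by positivity) (Nat.succ_ne_zero _)).mp h1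
    linarith
  have hI : (Set.Ici (0 : ℝ)).Countable :=
    Set.countable_of_injective_of_countable_image hinj (hD.mono hsub)
  have h1 := Cardinal.mk_Ici_real 0
  have h2 := (Cardinal.le_aleph0_iff_set_countable (s := Set.Ici (0 : ℝ))).mpr hI
  rw [h1] at h2
  exact absurd h2 (not_le.mpr Cardinal.aleph0_lt_continuum)

end Pool.Agent.H239R3.KC
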