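import Mathlib
import Pool.Agent.H239R3.KCj

set_option autoImplicit false

/-!
The base law and the paths joining every law to it.
-/

open MeasureTheory ProbabilityTheory Filter Topology

namespace Pool.Agent.H239R3.KC

/-- top coefficient -/
noncomputable def tp (l : List (Fin 4)) : ℝ := cf (fun _ => 0) (l.length + 1) l

lemma tp_indep (Q : List (Fin 4) → ℝ) : ∀ (n : ℕ) (l : List (Fin 4)), l.length = n →
    cf Q (l.length + 1) l = tp l := by
  intro n
  induction n with
  | zero =>
    intro l hl
    rw [List.length_eq_zero_iff] at hl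
    subst hl
    rw [tp, cf, cf, if_pos rfl, if_pos rfl]
  | succ n ih =>
    intro l hl
    rw [tp, cf, cf]
    have : dl (cf Q l.length) l = dl (cf (fun _ => 0) l.length) l := by
      apply dl_congr
      intro t ht
      rw [← ht]
      exact ih t (by omega)
    rw [this]

/-- the base cylinder probabilities -/
noncomputable def qs (l : List (Fin 4)) : ℝ := tp l / 2 ^ (l.length + 1)

lemma qs_nil : qs [] = 1 := by
  rw [qs, tp]
  show cf (fun _ => 0) 1 [] / 2 ^ 1 = 1
  rw [cf, if_pos rfl, if_pos rfl]; norm_num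

lemma qs_improper (l : List (Fin 4)) (h : ¬ Prp l) : qs l = 0 := by
  rw [qs, tp, cf, if_neg, if_neg h, zero_div]
  rintro rfl; exact h List.isChain_nil

lemma qs_rec {l : List (Fin 4)} (hl : Prp l) :
    2 * ((l.length : ℝ) + 1) * qs l = dl qs l + (if l = [] then 2 else 0) := by
  by_cases h : l = []
  · subst h
    rw [qs_nil, if_pos rfl]
    show 2 * (((0 : ℕ) : ℝ) + 1) * 1 = 0 + 2
    norm_num
  · rw [if_neg h, add_zero]
    have h1 : ((l.length : ℝ) + 1) * tp l = dl tp l := by
      rw [tp]
      have := cf_succ (Q := fun _ => 0) hl l.length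
      rw [this, if_neg h, add_zero]
      apply dl_congr
      intro t ht
      rw [tp, ← ht]
    have h2 : dl qs l = dl tp l / 2 ^ l.length := by
      rw [div_eq_mul_inv, ← dl_mul_right]
      apply dl_congr
      intro t ht
      rw [qs, ht, div_eq_mul_inv]
    rw [h2, ← h1, qs]
    have : (2 : ℝ) ^ (l.length + 1) = 2 * 2 ^ l.length := by ring
    rw [this]
    have : (2 : ℝ) ^ l.length ≠ 0 := by positivity
    field_simp

lemma qs_nonneg (l : List (Fin 4)) : 0 ≤ qs l := by
  have : ∀ n (l : List (Fin 4)), l.length = n → 0 ≤ tp l := by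
    intro n
    induction n with
    | zero =>
      intro l hl
      rw [List.length_eq_zero_iff] at hl
      subst hl
      rw [tp]
      show 0 ≤ cf (fun _ => 0) 1 []
      rw [cf, if_pos rfl, if_pos rfl]; norm_num
    | succ n ih =>
      intro l hl
      rw [tp, cf]
      split_ifs with h1 h2 h3
      · norm_num
      · exact le_rfl
      · have e : dl (cf (fun _ => 0) l.length) l = dl (fun t => |tp t|) l := by
          apply dl_congr
          intro t ht
          rw [abs_of_nonneg (ih t (by omega)), ← ht]; rfl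
        rw [e]
        exact div_nonneg (dl_nonneg _ _ (fun t => abs_nonneg _)) (by positivity)
      · exact le_rfl
  exact div_nonneg (this _ l rfl) (by positivity)

lemma qs_split : ∀ (n : ℕ) (u v : List (Fin 4)), u.length + v.length = n →
    ∑ e, qs (u ++ e :: v) = qs u * qs v := by
  intro n
  induction n with
  | zero =>
    intro u v h
    have hu : u = [] := List.length_eq_zero_iff.mp (by omega)
    have hv : v = [] := List.length_eq_zero_iff.mp (by omega)
    subst hu; subst hv
    have hp : ∀ e : Fin 4, Prp [e] := fun e => List.isChain_singleton e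
    have h1 : ∀ e : Fin 4, qs [e] = 1 / 4 := by
      intro e
      have := qs_rec (hp e)
      rw [if_neg (by simp)] at this
      have h2 : dl qs [e] = 1 := by
        show qs [] + 0 = 1
        rw [qs_nil, add_zero]
      rw [h2] at this
      have h3 : (([e] : List (Fin 4)).length : ℝ) = 1 := by simp
      rw [h3] at this
      linarith
    show ∑ e : Fin 4, qs [e] = qs [] * qs []
    rw [Finset.sum_congr rfl (fun e _ => h1 e), qs_nil]; simp
  | succ n ih =>
    intro u v h
    by_cases hu : Prp u
    · by_cases hv : Prp v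
      · have hn : (2 * ((n : ℝ) + 3)) ≠ 0 := by positivity
        apply mul_left_cancel₀ hn
        have hL : 2 * ((n : ℝ) + 3) * ∑ e, qs (u ++ e :: v)
            = ∑ e, (if Prp (u ++ e :: v) then dl qs (u ++ e :: v) else 0) := by
          rw [Finset.mul_sum]
          apply Finset.sum_congr rfl
          intro e _
          by_cases hp : Prp (u ++ e :: v)
          · have h1 := qs_rec hp
            have h2 : (((u ++ e :: v).length : ℕ) : ℝ) = n + 2 := by
              have : (u ++ e :: v).length = n + 2 := by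
                simp only [List.length_append, List.length_cons]; omega
              rw [this]; push_cast; ring
            rw [h2, if_neg (by simp), add_zero] at h1
            rw [if_pos hp, ← h1]; ring
          · rw [qs_improper _ hp, if_neg hp, mul_zero]
        rw [hL, del_sum qs_improper hu hv]
        have e1 : dl (fun t => ∑ e, qs (t ++ e :: v)) u = dl qs u * qs v := by
          rw [← dl_mul_right]
          apply dl_congr
          intro t ht
          exact ih t v (by omega)
        have e2 : dl (fun t => ∑ e, qs (u ++ e :: t)) v = qs u * dl qs v := by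
          rw [← dl_mul_left]
          apply dl_congr
          intro t ht
          exact ih u t (by omega)
        have g1 := qs_rec hu
        have g2 := qs_rec hv
        have e3 : dl qs u * qs v + (if u = [] then 2 * qs v else 0)
            = 2 * ((u.length : ℝ) + 1) * (qs u * qs v) := by
          have : dl qs u = 2 * ((u.length : ℝ) + 1) * qs u - (if u = [] then 2 else 0) := by
            rw [g1]; ring
          rw [this]; split_ifs <;> ring
        have e4 : qs u * dl qs v + (if v = [] then 2 * qs u else 0)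
            = 2 * ((v.length : ℝ) + 1) * (qs u * qs v) := by
          have : dl qs v = 2 * ((v.length : ℝ) + 1) * qs v - (if v = [] then 2 else 0) := by
            rw [g2]; ring
          rw [this]; split_ifs <;> ring
        rw [e1, e2]
        have h3 : (u.length : ℝ) + v.length = n + 1 := by exact_mod_cast h
        calc dl qs u * qs v + qs u * dl qs v + (if u = [] then 2 * qs v else 0)
              + (if v = [] then 2 * qs u else 0)
            = (dl qs u * qs v + (if u = [] then 2 * qs v else 0))
              + (qs u * dl qs v + (if v = [] then 2 * qs u else 0)) := by ring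
          _ = 2 * (((u.length : ℝ) + v.length) + 2) * (qs u * qs v) := by rw [e3, e4]; ring
          _ = 2 * ((n : ℝ) + 3) * (qs u * qs v) := by rw [h3]; ring
      · have h1 : ∀ e, qs (u ++ e :: v) = 0 := by
          intro e; apply qs_improper
          intro hp
          apply hv
          rw [Prp, List.isChain_append] at hp
          exact (List.isChain_cons.mp hp.2.1).2
        rw [Finset.sum_eq_zero (fun e _ => h1 e), qs_improper v hv, mul_zero]
    · have h1 : ∀ e, qs (u ++ e :: v) = 0 := by
        intro e; apply qs_improper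
        intro hp
        apply hu
        rw [Prp, List.isChain_append] at hp
        exact hp.1
      rw [Finset.sum_eq_zero (fun e _ => h1 e), qs_improper u hu, zero_mul]

lemma qs_LS : LS qs where
  one := qs_nil
  nonneg := qs_nonneg
  split u v := qs_split _ u v rfl
  improper := qs_improper

/-- cylinder probabilities along the path, `ε ∈ [0, 1]` -/
noncomputable def fe (Q : List (Fin 4) → ℝ) (ε : ℝ) (l : List (Fin 4)) : ℝ :=
  ∑ k ∈ Finset.range (l.length + 2), cf Q k l * (ε ^ (l.length + 1 - k) * ((1 - ε) / 2) ^ k)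

lemma fe_fl (Q : List (Fin 4) → ℝ) {ε : ℝ} (hε : 0 < ε) (l : List (Fin 4)) :
    fe Q ε l = fl Q ((1 - ε) / (2 * ε)) l := by
  rw [fe, fl, pl_eval, Finset.sum_div]
  apply Finset.sum_congr rfl
  intro k hk
  rw [Finset.mem_range] at hk
  have e1 : 1 + 2 * ((1 - ε) / (2 * ε)) = 1 / ε := by field_simp; ring
  have e2 : (1 - ε) / (2 * ε) = ((1 - ε) / 2) / ε := by field_simp
  obtain ⟨m, hm⟩ : ∃ m, l.length + 1 = k + m := ⟨l.length + 1 - k, by omega⟩
  rw [e1, e2, hm, Nat.add_sub_cancel_left]
  generalize (1 - ε) / 2 = y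
  rw [div_pow, div_pow, one_pow, pow_add]
  have : ε ^ k ≠ 0 := by positivity
  have : ε ^ m ≠ 0 := by positivity
  field_simp

lemma fe_zero (Q : List (Fin 4) → ℝ) (l : List (Fin 4)) : fe Q 0 l = qs l := by
  rw [fe, Finset.sum_eq_single (l.length + 1)]
  · rw [Nat.sub_self, pow_zero, one_mul, tp_indep Q _ l rfl, qs, sub_zero, div_pow, one_pow]
    ring
  · intro k hk hne
    rw [Finset.mem_range] at hk
    rw [zero_pow (by omega)]; ring
  · intro h; exfalso; apply h; rw [Finset.mem_range]; omega

lemma fe_one (Q : List (Fin 4) → ℝ) (l : List (Fin 4)) : fe Q 1 l = Q l := by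
  rw [fe, Finset.sum_eq_single 0]
  · simp [cf]
  · intro k hk hne
    rw [sub_self, zero_div, zero_pow hne]; ring
  · intro h; exfalso; apply h; rw [Finset.mem_range]; omega

lemma fe_cont (Q : List (Fin 4) → ℝ) (l : List (Fin 4)) : Continuous (fun ε => fe Q ε l) := by
  unfold fe
  fun_prop

lemma fe_LS {Q : List (Fin 4) → ℝ} (hQ : LS Q) {ε : ℝ} (h0 : 0 ≤ ε) (h1 : ε ≤ 1) : LS (fe Q ε) := by
  rcases h0.eq_or_lt with h | h
  · have : fe Q ε = qs := by funext l; rw [← h, fe_zero]
    rw [this]; exact qs_LS
  · have : fe Q ε = fl Q ((1 - ε) / (2 * ε)) := by funext l; exact fe_fl Q h l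
    rw [this]
    exact fl_LS hQ (div_nonneg (by linarith) (by linarith))

lemma cf_qs (k : ℕ) : ∀ l : List (Fin 4),
    cf qs k l = ((l.length + 1).choose k : ℝ) * 2 ^ k * qs l := by
  induction k with
  | zero => intro l; simp [cf]
  | succ k ih =>
    intro l
    by_cases hp : Prp l
    · have hk : ((k : ℝ) + 1) ≠ 0 := by positivity
      apply mul_left_cancel₀ hk
      rw [cf_succ hp]
      by_cases hl : l = []
      · subst hl
        rw [if_pos rfl, qs_nil]
        show (0 : ℝ) + _ = _
        by_cases hk0 : k = 0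
        · subst hk0; simp
        · rw [if_neg hk0]
          have : (([] : List (Fin 4)).length + 1).choose (k + 1) = 0 :=
            Nat.choose_eq_zero_of_lt (by simp only [List.length_nil]; omega)
          rw [this]; simp
      · rw [if_neg hl, add_zero]
        have e1 : dl (cf qs k) l = ((l.length).choose k : ℝ) * 2 ^ k * dl qs l := by
          rw [← dl_mul_left]
          apply dl_congr
          intro t ht
          rw [ih t, ht]
        have e2 := qs_rec hp
        rw [if_neg hl, add_zero] at e2
        have e3 : ((l.length : ℝ) + 1) * (l.length.choose k : ℝ)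
            = ((l.length + 1).choose (k + 1) : ℝ) * (k + 1) := by
          exact_mod_cast Nat.add_one_mul_choose_eq l.length k
        rw [e1, ← e2]
        calc (l.length.choose k : ℝ) * 2 ^ k * (2 * ((l.length : ℝ) + 1) * qs l)
            = (((l.length : ℝ) + 1) * (l.length.choose k : ℝ)) * 2 ^ (k + 1) * qs l := by ring
          _ = _ := by rw [e3]; ring
    · rw [qs_improper l hp, mul_zero, cf_improper qs_LS _ _ hp]

lemma fe_qs (ε : ℝ) (l : List (Fin 4)) : fe qs ε l = qs l := by
  rw [fe]
  have h1 : ∀ k ∈ Finset.range (l.length + 2),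
      cf qs k l * (ε ^ (l.length + 1 - k) * ((1 - ε) / 2) ^ k)
        = ((1 - ε) ^ k * ε ^ (l.length + 1 - k) * ((l.length + 1).choose k : ℝ)) * qs l := by
    intro k _
    rw [cf_qs, div_pow]
    have : (2 : ℝ) ^ k ≠ 0 := by positivity
    field_simp
  rw [Finset.sum_congr rfl h1, ← Finset.sum_mul, ← add_pow, sub_add_cancel, one_pow, one_mul]

lemma fe_diff {Q Q' : List (Fin 4) → ℝ} {N : ℕ}
    (hA : ∀ l : List (Fin 4), l.length < N → Q l = Q' l) (ε : ℝ) (l : List (Fin 4))
    (hl : l.length = N) : fe Q ε l - fe Q' ε l = (Q l - Q' l) * ε ^ (N + 1) := by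
  rw [fe, fe, show l.length + 2 = (l.length + 1) + 1 from rfl,
    Finset.sum_range_succ' (fun k => cf Q k l * (ε ^ (l.length + 1 - k) * ((1 - ε) / 2) ^ k))
      (l.length + 1),
    Finset.sum_range_succ' (fun k => cf Q' k l * (ε ^ (l.length + 1 - k) * ((1 - ε) / 2) ^ k))
      (l.length + 1)]
  have : ∑ k ∈ Finset.range (l.length + 1),
        cf Q (k + 1) l * (ε ^ (l.length + 1 - (k + 1)) * ((1 - ε) / 2) ^ (k + 1))
      = ∑ k ∈ Finset.range (l.length + 1),
        cf Q' (k + 1) l * (ε ^ (l.length + 1 - (k + 1)) * ((1 - ε) / 2) ^ (k + 1)) := by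
    apply Finset.sum_congr rfl
    intro k _
    rw [cf_agree' hA k l hl]
  rw [this]
  simp only [cf, pow_zero, mul_one, Nat.sub_zero, hl]
  ring

/-- The base law, and the path from the base law to every other law. -/
theorem paths : ∃ ρ : Measure (ℤ → Fin 4), Col 1 Set.univ ρ ∧
    (∀ l, ρ.real (cyl 0 l) = qs l) ∧
    ∀ μ : Measure (ℤ → Fin 4), Col 1 Set.univ μ → ∃ γ : ℝ → Measure (ℤ → Fin 4),
      γ 0 = ρ ∧ γ 1 = μ ∧ (∀ ε ∈ Set.Icc (0 : ℝ) 1, Col 1 Set.univ (γ ε)) ∧
      (∀ l, ContinuousOn (fun ε => (γ ε).real (cyl 0 l)) (Set.Icc 0 1)) ∧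
      (μ ≠ ρ → Set.InjOn γ (Set.Icc 0 1)) := by
  classical
  obtain ⟨ρ, hρ, hρc⟩ := qs_LS.law
  refine ⟨ρ, hρ, hρc 0, ?_⟩
  intro μ hμ
  set Q : List (Fin 4) → ℝ := fun l => μ.real (cyl 0 l) with hQd
  have hQ : LS Q := hμ.LS
  have hex : ∀ ε : ℝ, ε ∈ Set.Icc (0 : ℝ) 1 → ∃ ν : Measure (ℤ → Fin 4), Col 1 Set.univ ν ∧
      ∀ n l, ν.real (cyl n l) = fe Q ε l := fun ε hε => (fe_LS hQ hε.1 hε.2).law
  choose! γ hγ1 hγ2 using hex
  have h0 : (0 : ℝ) ∈ Set.Icc (0 : ℝ) 1 := ⟨le_rfl, zero_le_one⟩
  have h1 : (1 : ℝ) ∈ Set.Icc (0 : ℝ) 1 := ⟨zero_le_one, le_rfl⟩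
  refine ⟨γ, ?_, ?_, hγ1, ?_, ?_⟩
  · apply Col.ext (hγ1 0 h0) hρ
    intro l
    rw [hγ2 0 h0, fe_zero, hρc]
  · apply Col.ext (hγ1 1 h1) hμ
    intro l
    rw [hγ2 1 h1, fe_one]
  · intro l
    apply (fe_cont Q l).continuousOn.congr
    intro ε hε
    exact hγ2 ε hε 0 l
  · intro hne a ha b hb hab
    have hex : ∃ n, ∃ l : List (Fin 4), l.length = n ∧ Q l ≠ qs l := by
      by_contra hcon
      push Not at hcon
      apply hne
      apply Col.ext hμ hρ
      intro l
      rw [hρc]; exact hcon l.length l rfl
    obtain ⟨l, hl, hlne⟩ := Nat.find_spec hex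
    have hmin : ∀ t : List (Fin 4), t.length < l.length → Q t = qs t := by
      intro t ht
      by_contra h
      rw [hl] at ht
      exact Nat.find_min hex ht ⟨t, rfl, h⟩
    have e1 := fe_diff hmin a l rfl
    have e2 := fe_diff hmin b l rfl
    rw [fe_qs, ← hγ2 a ha 0 l, hab, hγ2 b hb 0 l] at e1
    rw [fe_qs, e1] at e2
    have h3 := mul_left_cancel₀ (sub_ne_zero.mpr hlne) e2
    exact (pow_left_inj₀ ha.1 hb.1 (Nat.succ_ne_zero _)).mp h3

end Pool.Agent.H239R3.KC
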