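import Mathlib
import Pool.Agent.H239R3.KCh

set_option autoImplicit false

open MeasureTheory ProbabilityTheory

namespace Pool.Agent.H239R3.NeighbourIdentity

open Pool.Agent.H239R3.KC

/-- the probability that the colours at `0, 1, …, w.length - 1` spell the word `w` -/
noncomputable def Pw (μ : Measure (ℤ → Fin 4)) (w : List (Fin 4)) : ℝ :=
  μ.real {x : ℤ → Fin 4 | ∀ (i : ℕ) (hi : i < w.length), x i = w[i]}

lemma Pw_eq (μ : Measure (ℤ → Fin 4)) (w : List (Fin 4)) : Pw μ w = Pm μ (wl w) := by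
  rw [wl, Pm_wd, Pw]
  congr 1
  ext x
  rw [mem_cyl]
  simp

/-- For every stationary 1-dependent 4-colouring of the integers and every colour `a`: given any
word `v`, the site before it has colour `a` with conditional probability at most `1/2`; and for
every word `v` without the colour `a`, the two neighbouring sites satisfy
`E[(1 - 2·1(left = a)) (1 - 2·1(right = a)); v] = 0`. -/
theorem result : ∀ μ : Measure (ℤ → Fin 4),
      IsProbabilityMeasure μ →
      Measure.map (fun x : ℤ → Fin 4 => fun n : ℤ => x (n + 1)) μ = μ →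
      (∀ᵐ x ∂μ, ∀ n : ℤ, x n ≠ x (n + 1)) →
      (∀ A B : Set ℤ, (∀ a ∈ A, ∀ b ∈ B, 1 < |a - b|) →
        Indep (⨆ a ∈ A, MeasurableSpace.comap (fun x : ℤ → Fin 4 => x a) (⊤ : MeasurableSpace (Fin 4)))
          (⨆ b ∈ B, MeasurableSpace.comap (fun x : ℤ → Fin 4 => x b) (⊤ : MeasurableSpace (Fin 4))) μ) →
      ∀ a : Fin 4,
        (∀ v : List (Fin 4), Pw μ (a :: v) ≤ Pw μ v / 2) ∧
        (∀ v : List (Fin 4), a ∉ v →
          Pw μ v - 2 * Pw μ (a :: v) - 2 * Pw μ (v ++ [a]) + 4 * Pw μ (a :: (v ++ [a])) = 0) := by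
  intro μ hμ hs hp hi a
  have h := Pm_sol hs hp hi
  constructor
  · intro v
    have h1 := cond_nonneg h a v
    rw [Pw_eq, Pw_eq, wl_cons]
    linarith
  · intro v hv
    have h1 := K_list h a hv
    rw [Pw_eq, Pw_eq, Pw_eq, Pw_eq, wl_cons, wl_cons, wl_append, wl_single]
    rw [← mul_assoc]
    exact h1

end Pool.Agent.H239R3.NeighbourIdentity
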