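import Mathlib

set_option autoImplicit false

/-!
Avoidance probabilities of one colour in a 1-dependent colouring of a graph.
-/

open MeasureTheory ProbabilityTheory

namespace Pool.Agent.H239R3.ZD

structure HC {V : Type} [DecidableEq V] (adj : V → V → Prop) [DecidableRel adj] (p : ℝ)
    (f : Finset V → ℝ) : Prop where
  empty : f ∅ = 1
  nonneg : ∀ S, 0 ≤ f S
  anti : ∀ S S' : Finset V, S ⊆ S' → f S' ≤ f S
  step : ∀ v S, v ∉ S → f (insert v S) = f S - p * f (S.filter (fun w => ¬ adj v w))

section
variable {V : Type} [Countable V] [DecidableEq V] {adj : V → V → Prop} [DecidableRel adj] {q : ℕ}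
  {μ : Measure (V → Fin q)} [IsProbabilityMeasure μ]

def ev (a : Fin q) (S : Finset V) : Set (V → Fin q) := {X | ∀ w ∈ S, X w ≠ a}

omit [Countable V] [DecidableEq V] in
lemma meas_site (A : Set V) {v : V} (hv : v ∈ A) (C : Set (Fin q)) :
    MeasurableSet[⨆ v ∈ A, MeasurableSpace.comap (fun X : V → Fin q => X v)
      (⊤ : MeasurableSpace (Fin q))] {X : V → Fin q | X v ∈ C} := by
  have h1 : MeasurableSpace.comap (fun X : V → Fin q => X v) (⊤ : MeasurableSpace (Fin q)) ≤
      ⨆ v ∈ A, MeasurableSpace.comap (fun X : V → Fin q => X v) (⊤ : MeasurableSpace (Fin q)) :=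
    le_iSup₂_of_le v hv le_rfl
  apply h1
  exact ⟨C, trivial, rfl⟩

omit [Countable V] [DecidableEq V] in
lemma meas_ev (a : Fin q) (S : Finset V) :
    MeasurableSet[⨆ v ∈ (S : Set V), MeasurableSpace.comap (fun X : V → Fin q => X v)
      (⊤ : MeasurableSpace (Fin q))] (ev a S) := by
  have e : ev a S = ⋂ w ∈ S, {X : V → Fin q | X w ∈ ({a}ᶜ : Set (Fin q))} := by
    ext X; simp [ev]
  rw [e]
  apply Finset.measurableSet_biInter
  intro w hw
  exact meas_site (S : Set V) (by exact_mod_cast hw) _

omit [Countable V] [DecidableEq V] in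
lemma meas_ev' (a : Fin q) (S : Finset V) : MeasurableSet (ev a S : Set (V → Fin q)) := by
  have e : ev a S = ⋂ w ∈ S, (fun X : V → Fin q => X w) ⁻¹' ({a}ᶜ : Set (Fin q)) := by
    ext X; simp [ev]
  rw [e]
  apply Finset.measurableSet_biInter
  intro w _
  exact measurable_pi_apply w (MeasurableSet.singleton a).compl

omit [Countable V] in
theorem hc_of_law (hp : ∀ᵐ X ∂μ, ∀ u v, adj u v → X u ≠ X v)
    (hd : ∀ A B : Set V, (∀ a ∈ A, ∀ b ∈ B, a ≠ b ∧ ¬ adj a b) →
      Indep (⨆ v ∈ A, MeasurableSpace.comap (fun X : V → Fin q => X v) (⊤ : MeasurableSpace (Fin q)))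
        (⨆ v ∈ B, MeasurableSpace.comap (fun X : V → Fin q => X v)
          (⊤ : MeasurableSpace (Fin q))) μ)
    (a : Fin q) (p : ℝ) (hu : ∀ v, μ.real {X | X v = a} = p) :
    HC adj p (fun S => μ.real (ev a S)) where
  empty := by
    have : (ev a (∅ : Finset V) : Set (V → Fin q)) = Set.univ := by ext X; simp [ev]
    rw [this]; simp
  nonneg S := measureReal_nonneg
  anti S S' h := by
    apply measureReal_mono
    · intro X hX w hw; exact hX w (h hw)
    · exact measure_ne_top _ _
  step v S hv := by
    set S' := S.filter (fun w => ¬ adj v w) with hS'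
    have hmv : Measurable (fun X : V → Fin q => X v) := measurable_pi_apply v
    have hms : MeasurableSet {X : V → Fin q | X v = a} := hmv (MeasurableSet.singleton a)
    have h1 : μ.real (ev a S) = μ.real (ev a S ∩ {X | X v = a}) + μ.real (ev a S \ {X | X v = a}) :=
      (measureReal_inter_add_diff hms).symm
    have h2 : (ev a S \ {X : V → Fin q | X v = a}) = ev a (insert v S) := by
      ext X
      simp only [ev, Set.mem_diff, Set.mem_ofPred_eq, Finset.mem_insert, forall_eq_or_imp]
      tauto
    have h3 : μ.real (ev a S ∩ {X | X v = a}) = μ.real ({X : V → Fin q | X v = a} ∩ ev a S') := by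
      rw [measureReal_def, measureReal_def]
      congr 1
      apply measure_congr
      filter_upwards [hp] with X hX
      apply propext
      constructor
      · rintro ⟨g1, g2⟩
        exact ⟨g2, fun w hw => g1 w (Finset.mem_filter.mp hw).1⟩
      · rintro ⟨g1, g2⟩
        refine ⟨?_, g1⟩
        intro w hw
        by_cases hadj : adj v w
        · have := hX v w hadj
          have g1' : X v = a := g1
          rw [g1'] at this
          exact this.symm
        · exact g2 w (Finset.mem_filter.mpr ⟨hw, hadj⟩)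
    have hind := hd {v} (S' : Set V) (by
      rintro x hx b hb
      rw [Set.mem_singleton_iff] at hx
      subst hx
      have hb' := Finset.mem_filter.mp (Finset.mem_coe.mp hb)
      refine ⟨?_, hb'.2⟩
      rintro rfl
      exact hv hb'.1)
    rw [Indep_iff] at hind
    have h4 := hind {X | X v = a} (ev a S') (meas_site {v} rfl {a}) (meas_ev a S')
    have h5 : μ.real ({X : V → Fin q | X v = a} ∩ ev a S') = p * μ.real (ev a S') := by
      rw [measureReal_def, h4, ENNReal.toReal_mul, ← measureReal_def, ← measureReal_def, hu v]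
    show μ.real (ev a (insert v S)) = μ.real (ev a S) - p * μ.real (ev a S')
    rw [← h2, h1, h3, h5]; ring

end

section
variable {V : Type} [DecidableEq V] {adj : V → V → Prop} [DecidableRel adj] {p : ℝ}
  {f : Finset V → ℝ} (h : HC adj p f) (hp : 0 < p)
  (hesc : ∀ S : Finset V, S.Nonempty → ∃ v, v ∉ S ∧ ∃ u ∈ S, adj v u)
include h hp hesc

lemma HC.pos (S : Finset V) : 0 < f S := by
  induction S using Finset.strongInduction with
  | H S ih =>
    rcases S.eq_empty_or_nonempty with rfl | hne
    · rw [h.empty]; exact one_pos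
    · obtain ⟨v, hv, u, hu, hadj⟩ := hesc S hne
      have h1 := h.step v S hv
      have h2 := h.nonneg (insert v S)
      have h3 := ih (S.filter (fun w => ¬ adj v w)) (by
        rw [Finset.ssubset_iff_subset_ne]
        refine ⟨Finset.filter_subset _ _, ?_⟩
        intro he
        have : u ∈ S.filter (fun w => ¬ adj v w) := by rw [he]; exact hu
        exact (Finset.mem_filter.mp this).2 hadj)
      have h4 : 0 < p * f (S.filter (fun w => ¬ adj v w)) := mul_pos hp h3
      linarith

/-- main step -/
lemma HC.ratio {v : V} {S S0 : Finset V} (hv : v ∉ S) (hS : S0 ⊆ S) {r : ℝ}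
    (hr : f S0 ≤ r * f (S.filter (fun w => ¬ adj v w))) :
    0 < r ∧ f (insert v S) ≤ (1 - p / r) * f S := by
  have h0 := h.pos hp hesc
  have h1 := h0 S0
  have h2 := h0 (S.filter (fun w => ¬ adj v w))
  have hr0 : 0 < r := by
    by_contra hneg
    push Not at hneg
    have := mul_nonpos_of_nonpos_of_nonneg hneg h2.le
    linarith
  refine ⟨hr0, ?_⟩
  rw [h.step v S hv]
  have h3 : f S ≤ r * f (S.filter (fun w => ¬ adj v w)) := le_trans (h.anti _ _ hS) hr
  have h4 : f S / r ≤ f (S.filter (fun w => ¬ adj v w)) := by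
    rw [div_le_iff₀ hr0]; linarith
  have h5 : p * (f S / r) ≤ p * f (S.filter (fun w => ¬ adj v w)) :=
    mul_le_mul_of_nonneg_left h4 hp.le
  have h6 : (1 - p / r) * f S = f S - p * (f S / r) := by ring
  rw [h6]; linarith

end

end Pool.Agent.H239R3.ZD
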