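import Mathlib
import Pool.Agent.H239R3.ZDa

set_option autoImplicit false

/-!
Recursion of upper bounds for avoidance ratios on the cubic lattice.
-/

namespace Pool.Agent.H239R3.ZD

abbrev V3 := ℤ × ℤ × ℤ

def adj3 (v w : V3) : Prop :=
  (w.1 = v.1 + 1 ∧ w.2.1 = v.2.1 ∧ w.2.2 = v.2.2) ∨ (w.1 = v.1 - 1 ∧ w.2.1 = v.2.1 ∧ w.2.2 = v.2.2)
  ∨ (w.1 = v.1 ∧ w.2.1 = v.2.1 + 1 ∧ w.2.2 = v.2.2) ∨ (w.1 = v.1 ∧ w.2.1 = v.2.1 - 1 ∧ w.2.2 = v.2.2)
  ∨ (w.1 = v.1 ∧ w.2.1 = v.2.1 ∧ w.2.2 = v.2.2 + 1) ∨ (w.1 = v.1 ∧ w.2.1 = v.2.1 ∧ w.2.2 = v.2.2 - 1)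

instance : DecidableRel adj3 := fun v w => by unfold adj3; infer_instance

def near (n : ℕ) (v w : V3) : Prop :=
  v.1 - n ≤ w.1 ∧ w.1 ≤ v.1 + n ∧ v.2.1 - n ≤ w.2.1 ∧ w.2.1 ≤ v.2.1 + n
    ∧ v.2.2 - n ≤ w.2.2 ∧ w.2.2 ≤ v.2.2 + n

def rA (v w : V3) : Prop := v.1 ≤ w.1
def rC (s : ℤ) (v w : V3) : Prop := v.1 < w.1 ∨ (w.1 = v.1 ∧ s * v.2.1 ≤ s * w.2.1)
def rD (t : ℤ) (v w : V3) : Prop := v.1 < w.1 ∨ (w.1 = v.1 ∧ (w.2.1 ≠ v.2.1 ∨ t * v.2.2 < t * w.2.2))
def rE (s t : ℤ) (v w : V3) : Prop := v.1 < w.1 ∨ (w.1 = v.1 ∧ (s * v.2.1 < s * w.2.1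
  ∨ (w.2.1 = v.2.1 ∧ t * v.2.2 < t * w.2.2)))

def Cl (f : Finset V3 → ℝ) (r : V3 → V3 → Prop) (n : ℕ) (R : ℝ) : Prop :=
  ∀ v S, v ∉ S → (∀ w, w ≠ v → near n v w → r v w → w ∈ S) → f (insert v S) ≤ R * f S

lemma esc3 (S : Finset V3) (hne : S.Nonempty) : ∃ v, v ∉ S ∧ ∃ u ∈ S, adj3 v u := by
  obtain ⟨u, hu, hmax⟩ := S.exists_max_image (fun w => w.1) hne
  refine ⟨(u.1 + 1, u.2.1, u.2.2), ?_, u, hu, ?_⟩
  · intro hmem
    have := hmax _ hmem
    simp only at this
    omega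
  · right; left
    exact ⟨by simp, rfl, rfl⟩

section
variable {p : ℝ} {f : Finset V3 → ℝ} (h : HC adj3 p f)

lemma ne_iff3 (v w : V3) : w ≠ v ↔ ¬ (w.1 = v.1 ∧ w.2.1 = v.2.1 ∧ w.2.2 = v.2.2) := by
  rw [ne_eq, Prod.ext_iff, Prod.ext_iff]

lemma eq_iff3 (v w : V3) : w = v ↔ (w.1 = v.1 ∧ w.2.1 = v.2.1 ∧ w.2.2 = v.2.2) := by
  rw [Prod.ext_iff, Prod.ext_iff]

/-- all the bounds at stage `n` -/
structure St (f : Finset V3 → ℝ) (n : ℕ) (A C D E : ℝ) : Prop where
  a0 : 0 < A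
  c0 : 0 < C
  d0 : 0 < D
  e0 : 0 < E
  hA : Cl f rA n A
  hC : ∀ s : ℤ, s = 1 ∨ s = -1 → Cl f (rC s) n C
  hD : ∀ s : ℤ, s = 1 ∨ s = -1 → Cl f (rD s) n D
  hE : ∀ s t : ℤ, s = 1 ∨ s = -1 → t = 1 ∨ t = -1 → Cl f (rE s t) n E

include h in
lemma St.zero : St f 0 1 1 1 1 := by
  have : ∀ r, Cl f r 0 1 := by
    intro r v S _ _
    rw [one_mul]; exact h.anti _ _ (Finset.subset_insert _ _)
  exact ⟨one_pos, one_pos, one_pos, one_pos, this _, fun _ _ => this _, fun _ _ => this _,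
    fun _ _ _ _ => this _⟩

variable (hp : 0 < p)
include h hp

/-- final combination -/
lemma fin3 {v : V3} {S S0 : Finset V3} (hv : v ∉ S) (hS : S0 ⊆ S) {r R : ℝ}
    (hr : f S0 ≤ r * f (S.filter (fun w => ¬ adj3 v w))) (hR : 0 < r → 1 - p / r ≤ R) :
    f (insert v S) ≤ R * f S := by
  obtain ⟨h1, h2⟩ := h.ratio hp esc3 hv hS hr
  exact le_trans h2 (mul_le_mul_of_nonneg_right (hR h1) (h.nonneg S))

lemma stepA {n : ℕ} {A C D E A' : ℝ} (H : St f n A C D E)
    (hA' : 1 - p / (D * (D * (C * (C * A)))) ≤ A') : Cl f rA (n + 1) A' := by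
  rintro ⟨x, y, z⟩ S hv hS
  set T := S.filter (fun w => ¬ adj3 (x, y, z) w) with hT
  have hmT : ∀ w, w ∈ T ↔ w ∈ S ∧ ¬ adj3 (x, y, z) w := fun w => Finset.mem_filter
  have hS' : ∀ w : V3, w ≠ (x, y, z) → near (n + 1) (x, y, z) w → x ≤ w.1 → w ∈ S := hS
  have m1 : ((x + 1, y, z) : V3) ∈ S := hS' _ (by rw [ne_iff3]; simp only; omega) (by unfold near; simp only; push_cast; omega) (by simp only; omega)
  have m2 : ((x, y + 1, z) : V3) ∈ S := hS' _ (by rw [ne_iff3]; simp only; omega) (by unfold near; simp only; push_cast; omega) (by simp only; omega)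
  have m3 : ((x, y - 1, z) : V3) ∈ S := hS' _ (by rw [ne_iff3]; simp only; omega) (by unfold near; simp only; push_cast; omega) (by simp only; omega)
  have m4 : ((x, y, z + 1) : V3) ∈ S := hS' _ (by rw [ne_iff3]; simp only; omega) (by unfold near; simp only; push_cast; omega) (by simp only; omega)
  have m5 : ((x, y, z - 1) : V3) ∈ S := hS' _ (by rw [ne_iff3]; simp only; omega) (by unfold near; simp only; push_cast; omega) (by simp only; omega)
  have n1 : ((x + 1, y, z) : V3) ∉ T := by rw [hmT]; intro hc; exact hc.2 (by simp [adj3])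
  have n2 : ((x, y + 1, z) : V3) ∉ T := by rw [hmT]; intro hc; exact hc.2 (by simp [adj3])
  have n3 : ((x, y - 1, z) : V3) ∉ T := by rw [hmT]; intro hc; exact hc.2 (by simp [adj3])
  have n4 : ((x, y, z + 1) : V3) ∉ T := by rw [hmT]; intro hc; exact hc.2 (by simp [adj3])
  have n5 : ((x, y, z - 1) : V3) ∉ T := by rw [hmT]; intro hc; exact hc.2 (by simp [adj3])
  set T1 := insert ((x + 1, y, z) : V3) T with hT1
  set T2 := insert ((x, y + 1, z) : V3) T1 with hT2
  set T3 := insert ((x, y - 1, z) : V3) T2 with hT3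
  set T4 := insert ((x, y, z + 1) : V3) T3 with hT4
  set T5 := insert ((x, y, z - 1) : V3) T4 with hT5
  have g1 : f T1 ≤ A * f T := by
    apply H.hA
    · exact n1
    · rintro ⟨a, b, c⟩ w1 w2 w3
      rw [hmT]
      rw [ne_iff3] at w1
      unfold near at w2
      unfold rA at w3
      simp only at w1 w2 w3
      refine ⟨hS' _ (by rw [ne_iff3]; simp only; omega) (by unfold near; simp only; push_cast; omega) (by simp only; omega), ?_⟩
      unfold adj3; simp only; omega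
  have g2 : f T2 ≤ C * f T1 := by
    apply H.hC 1 (Or.inl rfl)
    · rw [hT1, Finset.mem_insert, eq_iff3, not_or]
      refine ⟨?_, n2⟩
      simp only; rintro ⟨a1, a2, a3⟩; omega
    · rintro ⟨a, b, c⟩ w1 w2 w3
      rw [ne_iff3] at w1
      unfold near at w2
      unfold rC at w3
      simp only at w1 w2 w3
      rw [hT1, Finset.mem_insert, hmT, eq_iff3]
      have hm := hS' (a, b, c) (by rw [ne_iff3]; simp only; omega) (by unfold near; simp only; push_cast; omega) (by simp only; omega)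
      unfold adj3; simp only
      have : (a = x + 1 ∧ b = y ∧ c = z) ∨ ¬ (a = x + 1 ∧ b = y ∧ c = z) := em _
      rcases this with this | this
      · left; exact this
      · right; refine ⟨hm, ?_⟩; omega
  have g3 : f T3 ≤ C * f T2 := by
    apply H.hC (-1) (Or.inr rfl)
    · rw [hT2, Finset.mem_insert, hT1, Finset.mem_insert, eq_iff3, eq_iff3, not_or, not_or]
      refine ⟨?_, ?_, n3⟩ <;> (simp only; rintro ⟨a1, a2, a3⟩; omega)
    · rintro ⟨a, b, c⟩ w1 w2 w3
      rw [ne_iff3] at w1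
      unfold near at w2
      unfold rC at w3
      simp only at w1 w2 w3
      rw [hT2, Finset.mem_insert, hT1, Finset.mem_insert, hmT, eq_iff3, eq_iff3]
      have hm := hS' (a, b, c) (by rw [ne_iff3]; simp only; omega) (by unfold near; simp only; push_cast; omega) (by simp only; omega)
      unfold adj3; simp only
      by_cases q1 : (a = x ∧ b = y + 1 ∧ c = z)
      · left; exact q1
      by_cases q2 : (a = x + 1 ∧ b = y ∧ c = z)
      · right; left; exact q2
      · right; right; refine ⟨hm, ?_⟩; omega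
  have g4 : f T4 ≤ D * f T3 := by
    apply H.hD 1 (Or.inl rfl)
    · rw [hT3, Finset.mem_insert, hT2, Finset.mem_insert, hT1, Finset.mem_insert, eq_iff3, eq_iff3, eq_iff3, not_or, not_or, not_or]
      refine ⟨?_, ?_, ?_, n4⟩ <;> (simp only; rintro ⟨a1, a2, a3⟩; omega)
    · rintro ⟨a, b, c⟩ w1 w2 w3
      rw [ne_iff3] at w1
      unfold near at w2
      unfold rD at w3
      simp only at w1 w2 w3
      rw [hT3, Finset.mem_insert, hT2, Finset.mem_insert, hT1, Finset.mem_insert, hmT, eq_iff3, eq_iff3, eq_iff3]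
      have hm := hS' (a, b, c) (by rw [ne_iff3]; simp only; omega) (by unfold near; simp only; push_cast; omega) (by simp only; omega)
      unfold adj3; simp only
      by_cases q0 : (a = x ∧ b = y - 1 ∧ c = z)
      · left; exact q0
      by_cases q1 : (a = x ∧ b = y + 1 ∧ c = z)
      · right; left; exact q1
      by_cases q2 : (a = x + 1 ∧ b = y ∧ c = z)
      · right; right; left; exact q2
      · right; right; right; refine ⟨hm, ?_⟩; omega
  have g5 : f T5 ≤ D * f T4 := by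
    apply H.hD (-1) (Or.inr rfl)
    · rw [hT4, Finset.mem_insert, hT3, Finset.mem_insert, hT2, Finset.mem_insert, hT1, Finset.mem_insert, eq_iff3, eq_iff3, eq_iff3, eq_iff3, not_or, not_or, not_or, not_or]
      refine ⟨?_, ?_, ?_, ?_, n5⟩ <;> (simp only; rintro ⟨a1, a2, a3⟩; omega)
    · rintro ⟨a, b, c⟩ w1 w2 w3
      rw [ne_iff3] at w1
      unfold near at w2
      unfold rD at w3
      simp only at w1 w2 w3
      rw [hT4, Finset.mem_insert, hT3, Finset.mem_insert, hT2, Finset.mem_insert, hT1, Finset.mem_insert, hmT, eq_iff3, eq_iff3, eq_iff3, eq_iff3]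
      have hm := hS' (a, b, c) (by rw [ne_iff3]; simp only; omega) (by unfold near; simp only; push_cast; omega) (by simp only; omega)
      unfold adj3; simp only
      by_cases q4 : (a = x ∧ b = y ∧ c = z + 1)
      · left; exact q4
      by_cases q0 : (a = x ∧ b = y - 1 ∧ c = z)
      · right; left; exact q0
      by_cases q1 : (a = x ∧ b = y + 1 ∧ c = z)
      · right; right; left; exact q1
      by_cases q2 : (a = x + 1 ∧ b = y ∧ c = z)
      · right; right; right; left; exact q2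
      · right; right; right; right; refine ⟨hm, ?_⟩; omega
  have hsub : T5 ⊆ S := by
    intro w hw
    rw [hT5, Finset.mem_insert, hT4, Finset.mem_insert, hT3, Finset.mem_insert, hT2, Finset.mem_insert, hT1, Finset.mem_insert, hmT] at hw
    rcases hw with rfl | rfl | rfl | rfl | rfl | hw
    · exact m5
    · exact m4
    · exact m3
    · exact m2
    · exact m1
    · exact hw.1
  apply fin3 h hp hv hsub (r := D * (D * (C * (C * A)))) _ (fun _ => hA')
  calc f T5 ≤ D * f T4 := g5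
    _ ≤ D * (D * f T3) := mul_le_mul_of_nonneg_left g4 H.d0.le
    _ ≤ D * (D * (C * f T2)) := by
        apply mul_le_mul_of_nonneg_left _ H.d0.le
        exact mul_le_mul_of_nonneg_left g3 H.d0.le
    _ ≤ D * (D * (C * (C * f T1))) := by
        apply mul_le_mul_of_nonneg_left _ H.d0.le
        apply mul_le_mul_of_nonneg_left _ H.d0.le
        exact mul_le_mul_of_nonneg_left g2 H.c0.le
    _ ≤ D * (D * (C * (C * (A * f T)))) := by
        apply mul_le_mul_of_nonneg_left _ H.d0.le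
        apply mul_le_mul_of_nonneg_left _ H.d0.le
        apply mul_le_mul_of_nonneg_left _ H.c0.le
        exact mul_le_mul_of_nonneg_left g1 H.c0.le
    _ = D * (D * (C * (C * A))) * f T := by ring

end

end Pool.Agent.H239R3.ZD
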