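import Mathlib
import Pool.Agent.H239R3.ZDb

set_option autoImplicit false

/-!
The other steps of the recursion on the cubic lattice, and the bound for densities.
-/

namespace Pool.Agent.H239R3.ZD

section
variable {p : ℝ} {f : Finset V3 → ℝ} (h : HC adj3 p f) (hp : 0 < p)
include h hp

lemma stepC_p {n : ℕ} {A C D E R : ℝ} (H : St f n A C D E)
    (hR : 1 - p / (E * (E * (C * A))) ≤ R) : Cl f (rC 1) (n + 1) R := by
  rintro ⟨x, y, z⟩ S hv hS
  set T := S.filter (fun w => ¬ adj3 (x, y, z) w) with hT
  have hmT : ∀ w, w ∈ T ↔ w ∈ S ∧ ¬ adj3 (x, y, z) w := fun w => Finset.mem_filter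
  have m1 : ((x + 1, y, z) : V3) ∈ S := hS _ (by rw [ne_iff3]; simp only; omega) (by unfold near; simp only; push_cast; omega) (by simp [rC] <;> omega)
  have m2 : ((x, y + 1, z) : V3) ∈ S := hS _ (by rw [ne_iff3]; simp only; omega) (by unfold near; simp only; push_cast; omega) (by simp [rC] <;> omega)
  have m3 : ((x, y, z + 1) : V3) ∈ S := hS _ (by rw [ne_iff3]; simp only; omega) (by unfold near; simp only; push_cast; omega) (by simp [rC] <;> omega)
  have m4 : ((x, y, z - 1) : V3) ∈ S := hS _ (by rw [ne_iff3]; simp only; omega) (by unfold near; simp only; push_cast; omega) (by simp [rC] <;> omega)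
  have n1 : ((x + 1, y, z) : V3) ∉ T := by rw [hmT]; intro hc; exact hc.2 (by simp [adj3])
  have n2 : ((x, y + 1, z) : V3) ∉ T := by rw [hmT]; intro hc; exact hc.2 (by simp [adj3])
  have n3 : ((x, y, z + 1) : V3) ∉ T := by rw [hmT]; intro hc; exact hc.2 (by simp [adj3])
  have n4 : ((x, y, z - 1) : V3) ∉ T := by rw [hmT]; intro hc; exact hc.2 (by simp [adj3])
  set T1 := insert ((x + 1, y, z) : V3) T with hT1
  set T2 := insert ((x, y + 1, z) : V3) T1 with hT2
  set T3 := insert ((x, y, z + 1) : V3) T2 with hT3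
  set T4 := insert ((x, y, z - 1) : V3) T3 with hT4
  have g1 : f T1 ≤ A * f T := by
    apply H.hA
    · exact n1
    · rintro ⟨a, b, c⟩ w1 w2 w3
      rw [ne_iff3] at w1
      unfold near at w2
      unfold rA at w3
      simp only at w1 w2 w3
      have hm := hS (a, b, c) (by rw [ne_iff3]; simp only; omega) (by unfold near; simp only; push_cast; omega) (by unfold rC; simp only; omega)
      rw [hmT]
      refine ⟨hm, ?_⟩
      unfold adj3; simp only; omega
  have g2 : f T2 ≤ C * f T1 := by
    apply H.hC 1 (Or.inl rfl)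
    · rw [hT1, Finset.mem_insert, eq_iff3, not_or]
      refine ⟨?_, n2⟩ <;> (simp only; rintro ⟨a1, a2, a3⟩; omega)
    · rintro ⟨a, b, c⟩ w1 w2 w3
      rw [ne_iff3] at w1
      unfold near at w2
      unfold rC at w3
      simp only at w1 w2 w3
      have hm := hS (a, b, c) (by rw [ne_iff3]; simp only; omega) (by unfold near; simp only; push_cast; omega) (by unfold rC; simp only; omega)
      rw [hT1, Finset.mem_insert, hmT, eq_iff3]
      unfold adj3; simp only
      by_cases q1 : (a = x + 1 ∧ b = y ∧ c = z)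
      · left; exact q1
      · right; refine ⟨hm, ?_⟩; omega
  have g3 : f T3 ≤ E * f T2 := by
    apply H.hE 1 1 (Or.inl rfl) (Or.inl rfl)
    · rw [hT2, Finset.mem_insert, hT1, Finset.mem_insert, eq_iff3, eq_iff3, not_or, not_or]
      refine ⟨?_, ?_, n3⟩ <;> (simp only; rintro ⟨a1, a2, a3⟩; omega)
    · rintro ⟨a, b, c⟩ w1 w2 w3
      rw [ne_iff3] at w1
      unfold near at w2
      unfold rE at w3
      simp only at w1 w2 w3
      have hm := hS (a, b, c) (by rw [ne_iff3]; simp only; omega) (by unfold near; simp only; push_cast; omega) (by unfold rC; simp only; omega)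
      rw [hT2, Finset.mem_insert, hT1, Finset.mem_insert, hmT, eq_iff3, eq_iff3]
      unfold adj3; simp only
      by_cases q2 : (a = x ∧ b = y + 1 ∧ c = z)
      · left; exact q2
      by_cases q1 : (a = x + 1 ∧ b = y ∧ c = z)
      · right; left; exact q1
      · right; right; refine ⟨hm, ?_⟩; omega
  have g4 : f T4 ≤ E * f T3 := by
    apply H.hE 1 (-1) (Or.inl rfl) (Or.inr rfl)
    · rw [hT3, Finset.mem_insert, hT2, Finset.mem_insert, hT1, Finset.mem_insert, eq_iff3, eq_iff3, eq_iff3, not_or, not_or, not_or]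
      refine ⟨?_, ?_, ?_, n4⟩ <;> (simp only; rintro ⟨a1, a2, a3⟩; omega)
    · rintro ⟨a, b, c⟩ w1 w2 w3
      rw [ne_iff3] at w1
      unfold near at w2
      unfold rE at w3
      simp only at w1 w2 w3
      have hm := hS (a, b, c) (by rw [ne_iff3]; simp only; omega) (by unfold near; simp only; push_cast; omega) (by unfold rC; simp only; omega)
      rw [hT3, Finset.mem_insert, hT2, Finset.mem_insert, hT1, Finset.mem_insert, hmT, eq_iff3, eq_iff3, eq_iff3]
      unfold adj3; simp only
      by_cases q3 : (a = x ∧ b = y ∧ c = z + 1)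
      · left; exact q3
      by_cases q2 : (a = x ∧ b = y + 1 ∧ c = z)
      · right; left; exact q2
      by_cases q1 : (a = x + 1 ∧ b = y ∧ c = z)
      · right; right; left; exact q1
      · right; right; right; refine ⟨hm, ?_⟩; omega
  have hsub : T4 ⊆ S := by
    intro w hw
    rw [hT4, Finset.mem_insert, hT3, Finset.mem_insert, hT2, Finset.mem_insert, hT1, Finset.mem_insert, hmT] at hw
    rcases hw with rfl | rfl | rfl | rfl | hw
    · exact m4
    · exact m3
    · exact m2
    · exact m1
    · exact hw.1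
  apply fin3 h hp hv hsub (r := E * (E * (C * A))) _ (fun _ => hR)
  calc f T4 ≤ E * f T3 := g4
    _ ≤ E * (E * f T2) := by
        exact mul_le_mul_of_nonneg_left g3 H.e0.le
    _ ≤ E * (E * (C * f T1)) := by
        apply mul_le_mul_of_nonneg_left _ H.e0.le
        exact mul_le_mul_of_nonneg_left g2 H.e0.le
    _ ≤ E * (E * (C * (A * f T))) := by
        apply mul_le_mul_of_nonneg_left _ H.e0.le
        apply mul_le_mul_of_nonneg_left _ H.e0.le
        exact mul_le_mul_of_nonneg_left g1 H.c0.le
    _ = (E * (E * (C * A))) * f T := by ring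

lemma stepC_m {n : ℕ} {A C D E R : ℝ} (H : St f n A C D E)
    (hR : 1 - p / (E * (E * (C * A))) ≤ R) : Cl f (rC (-1)) (n + 1) R := by
  rintro ⟨x, y, z⟩ S hv hS
  set T := S.filter (fun w => ¬ adj3 (x, y, z) w) with hT
  have hmT : ∀ w, w ∈ T ↔ w ∈ S ∧ ¬ adj3 (x, y, z) w := fun w => Finset.mem_filter
  have m1 : ((x + 1, y, z) : V3) ∈ S := hS _ (by rw [ne_iff3]; simp only; omega) (by unfold near; simp only; push_cast; omega) (by simp [rC] <;> omega)
  have m2 : ((x, y - 1, z) : V3) ∈ S := hS _ (by rw [ne_iff3]; simp only; omega) (by unfold near; simp only; push_cast; omega) (by simp [rC] <;> omega)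
  have m3 : ((x, y, z + 1) : V3) ∈ S := hS _ (by rw [ne_iff3]; simp only; omega) (by unfold near; simp only; push_cast; omega) (by simp [rC] <;> omega)
  have m4 : ((x, y, z - 1) : V3) ∈ S := hS _ (by rw [ne_iff3]; simp only; omega) (by unfold near; simp only; push_cast; omega) (by simp [rC] <;> omega)
  have n1 : ((x + 1, y, z) : V3) ∉ T := by rw [hmT]; intro hc; exact hc.2 (by simp [adj3])
  have n2 : ((x, y - 1, z) : V3) ∉ T := by rw [hmT]; intro hc; exact hc.2 (by simp [adj3])
  have n3 : ((x, y, z + 1) : V3) ∉ T := by rw [hmT]; intro hc; exact hc.2 (by simp [adj3])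
  have n4 : ((x, y, z - 1) : V3) ∉ T := by rw [hmT]; intro hc; exact hc.2 (by simp [adj3])
  set T1 := insert ((x + 1, y, z) : V3) T with hT1
  set T2 := insert ((x, y - 1, z) : V3) T1 with hT2
  set T3 := insert ((x, y, z + 1) : V3) T2 with hT3
  set T4 := insert ((x, y, z - 1) : V3) T3 with hT4
  have g1 : f T1 ≤ A * f T := by
    apply H.hA
    · exact n1
    · rintro ⟨a, b, c⟩ w1 w2 w3
      rw [ne_iff3] at w1
      unfold near at w2
      unfold rA at w3
      simp only at w1 w2 w3
      have hm := hS (a, b, c) (by rw [ne_iff3]; simp only; omega) (by unfold near; simp only; push_cast; omega) (by unfold rC; simp only; omega)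
      rw [hmT]
      refine ⟨hm, ?_⟩
      unfold adj3; simp only; omega
  have g2 : f T2 ≤ C * f T1 := by
    apply H.hC (-1) (Or.inr rfl)
    · rw [hT1, Finset.mem_insert, eq_iff3, not_or]
      refine ⟨?_, n2⟩ <;> (simp only; rintro ⟨a1, a2, a3⟩; omega)
    · rintro ⟨a, b, c⟩ w1 w2 w3
      rw [ne_iff3] at w1
      unfold near at w2
      unfold rC at w3
      simp only at w1 w2 w3
      have hm := hS (a, b, c) (by rw [ne_iff3]; simp only; omega) (by unfold near; simp only; push_cast; omega) (by unfold rC; simp only; omega)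
      rw [hT1, Finset.mem_insert, hmT, eq_iff3]
      unfold adj3; simp only
      by_cases q1 : (a = x + 1 ∧ b = y ∧ c = z)
      · left; exact q1
      · right; refine ⟨hm, ?_⟩; omega
  have g3 : f T3 ≤ E * f T2 := by
    apply H.hE (-1) 1 (Or.inr rfl) (Or.inl rfl)
    · rw [hT2, Finset.mem_insert, hT1, Finset.mem_insert, eq_iff3, eq_iff3, not_or, not_or]
      refine ⟨?_, ?_, n3⟩ <;> (simp only; rintro ⟨a1, a2, a3⟩; omega)
    · rintro ⟨a, b, c⟩ w1 w2 w3
      rw [ne_iff3] at w1
      unfold near at w2
      unfold rE at w3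
      simp only at w1 w2 w3
      have hm := hS (a, b, c) (by rw [ne_iff3]; simp only; omega) (by unfold near; simp only; push_cast; omega) (by unfold rC; simp only; omega)
      rw [hT2, Finset.mem_insert, hT1, Finset.mem_insert, hmT, eq_iff3, eq_iff3]
      unfold adj3; simp only
      by_cases q2 : (a = x ∧ b = y - 1 ∧ c = z)
      · left; exact q2
      by_cases q1 : (a = x + 1 ∧ b = y ∧ c = z)
      · right; left; exact q1
      · right; right; refine ⟨hm, ?_⟩; omega
  have g4 : f T4 ≤ E * f T3 := by
    apply H.hE (-1) (-1) (Or.inr rfl) (Or.inr rfl)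
    · rw [hT3, Finset.mem_insert, hT2, Finset.mem_insert, hT1, Finset.mem_insert, eq_iff3, eq_iff3, eq_iff3, not_or, not_or, not_or]
      refine ⟨?_, ?_, ?_, n4⟩ <;> (simp only; rintro ⟨a1, a2, a3⟩; omega)
    · rintro ⟨a, b, c⟩ w1 w2 w3
      rw [ne_iff3] at w1
      unfold near at w2
      unfold rE at w3
      simp only at w1 w2 w3
      have hm := hS (a, b, c) (by rw [ne_iff3]; simp only; omega) (by unfold near; simp only; push_cast; omega) (by unfold rC; simp only; omega)
      rw [hT3, Finset.mem_insert, hT2, Finset.mem_insert, hT1, Finset.mem_insert, hmT, eq_iff3, eq_iff3, eq_iff3]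
      unfold adj3; simp only
      by_cases q3 : (a = x ∧ b = y ∧ c = z + 1)
      · left; exact q3
      by_cases q2 : (a = x ∧ b = y - 1 ∧ c = z)
      · right; left; exact q2
      by_cases q1 : (a = x + 1 ∧ b = y ∧ c = z)
      · right; right; left; exact q1
      · right; right; right; refine ⟨hm, ?_⟩; omega
  have hsub : T4 ⊆ S := by
    intro w hw
    rw [hT4, Finset.mem_insert, hT3, Finset.mem_insert, hT2, Finset.mem_insert, hT1, Finset.mem_insert, hmT] at hw
    rcases hw with rfl | rfl | rfl | rfl | hw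
    · exact m4
    · exact m3
    · exact m2
    · exact m1
    · exact hw.1
  apply fin3 h hp hv hsub (r := E * (E * (C * A))) _ (fun _ => hR)
  calc f T4 ≤ E * f T3 := g4
    _ ≤ E * (E * f T2) := by
        exact mul_le_mul_of_nonneg_left g3 H.e0.le
    _ ≤ E * (E * (C * f T1)) := by
        apply mul_le_mul_of_nonneg_left _ H.e0.le
        exact mul_le_mul_of_nonneg_left g2 H.e0.le
    _ ≤ E * (E * (C * (A * f T))) := by
        apply mul_le_mul_of_nonneg_left _ H.e0.le
        apply mul_le_mul_of_nonneg_left _ H.e0.le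
        exact mul_le_mul_of_nonneg_left g1 H.c0.le
    _ = (E * (E * (C * A))) * f T := by ring

lemma stepD_p {n : ℕ} {A C D E R : ℝ} (H : St f n A C D E)
    (hR : 1 - p / (D * (C * (C * A))) ≤ R) : Cl f (rD 1) (n + 1) R := by
  rintro ⟨x, y, z⟩ S hv hS
  set T := S.filter (fun w => ¬ adj3 (x, y, z) w) with hT
  have hmT : ∀ w, w ∈ T ↔ w ∈ S ∧ ¬ adj3 (x, y, z) w := fun w => Finset.mem_filter
  have m1 : ((x + 1, y, z) : V3) ∈ S := hS _ (by rw [ne_iff3]; simp only; omega) (by unfold near; simp only; push_cast; omega) (by simp [rD] <;> omega)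
  have m2 : ((x, y + 1, z) : V3) ∈ S := hS _ (by rw [ne_iff3]; simp only; omega) (by unfold near; simp only; push_cast; omega) (by simp [rD] <;> omega)
  have m3 : ((x, y - 1, z) : V3) ∈ S := hS _ (by rw [ne_iff3]; simp only; omega) (by unfold near; simp only; push_cast; omega) (by simp [rD] <;> omega)
  have m4 : ((x, y, z + 1) : V3) ∈ S := hS _ (by rw [ne_iff3]; simp only; omega) (by unfold near; simp only; push_cast; omega) (by simp [rD] <;> omega)
  have n1 : ((x + 1, y, z) : V3) ∉ T := by rw [hmT]; intro hc; exact hc.2 (by simp [adj3])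
  have n2 : ((x, y + 1, z) : V3) ∉ T := by rw [hmT]; intro hc; exact hc.2 (by simp [adj3])
  have n3 : ((x, y - 1, z) : V3) ∉ T := by rw [hmT]; intro hc; exact hc.2 (by simp [adj3])
  have n4 : ((x, y, z + 1) : V3) ∉ T := by rw [hmT]; intro hc; exact hc.2 (by simp [adj3])
  set T1 := insert ((x + 1, y, z) : V3) T with hT1
  set T2 := insert ((x, y + 1, z) : V3) T1 with hT2
  set T3 := insert ((x, y - 1, z) : V3) T2 with hT3
  set T4 := insert ((x, y, z + 1) : V3) T3 with hT4
  have g1 : f T1 ≤ A * f T := by
    apply H.hA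
    · exact n1
    · rintro ⟨a, b, c⟩ w1 w2 w3
      rw [ne_iff3] at w1
      unfold near at w2
      unfold rA at w3
      simp only at w1 w2 w3
      have hm := hS (a, b, c) (by rw [ne_iff3]; simp only; omega) (by unfold near; simp only; push_cast; omega) (by unfold rD; simp only; omega)
      rw [hmT]
      refine ⟨hm, ?_⟩
      unfold adj3; simp only; omega
  have g2 : f T2 ≤ C * f T1 := by
    apply H.hC 1 (Or.inl rfl)
    · rw [hT1, Finset.mem_insert, eq_iff3, not_or]
      refine ⟨?_, n2⟩ <;> (simp only; rintro ⟨a1, a2, a3⟩; omega)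
    · rintro ⟨a, b, c⟩ w1 w2 w3
      rw [ne_iff3] at w1
      unfold near at w2
      unfold rC at w3
      simp only at w1 w2 w3
      have hm := hS (a, b, c) (by rw [ne_iff3]; simp only; omega) (by unfold near; simp only; push_cast; omega) (by unfold rD; simp only; omega)
      rw [hT1, Finset.mem_insert, hmT, eq_iff3]
      unfold adj3; simp only
      by_cases q1 : (a = x + 1 ∧ b = y ∧ c = z)
      · left; exact q1
      · right; refine ⟨hm, ?_⟩; omega
  have g3 : f T3 ≤ C * f T2 := by
    apply H.hC (-1) (Or.inr rfl)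
    · rw [hT2, Finset.mem_insert, hT1, Finset.mem_insert, eq_iff3, eq_iff3, not_or, not_or]
      refine ⟨?_, ?_, n3⟩ <;> (simp only; rintro ⟨a1, a2, a3⟩; omega)
    · rintro ⟨a, b, c⟩ w1 w2 w3
      rw [ne_iff3] at w1
      unfold near at w2
      unfold rC at w3
      simp only at w1 w2 w3
      have hm := hS (a, b, c) (by rw [ne_iff3]; simp only; omega) (by unfold near; simp only; push_cast; omega) (by unfold rD; simp only; omega)
      rw [hT2, Finset.mem_insert, hT1, Finset.mem_insert, hmT, eq_iff3, eq_iff3]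
      unfold adj3; simp only
      by_cases q2 : (a = x ∧ b = y + 1 ∧ c = z)
      · left; exact q2
      by_cases q1 : (a = x + 1 ∧ b = y ∧ c = z)
      · right; left; exact q1
      · right; right; refine ⟨hm, ?_⟩; omega
  have g4 : f T4 ≤ D * f T3 := by
    apply H.hD 1 (Or.inl rfl)
    · rw [hT3, Finset.mem_insert, hT2, Finset.mem_insert, hT1, Finset.mem_insert, eq_iff3, eq_iff3, eq_iff3, not_or, not_or, not_or]
      refine ⟨?_, ?_, ?_, n4⟩ <;> (simp only; rintro ⟨a1, a2, a3⟩; omega)
    · rintro ⟨a, b, c⟩ w1 w2 w3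
      rw [ne_iff3] at w1
      unfold near at w2
      unfold rD at w3
      simp only at w1 w2 w3
      have hm := hS (a, b, c) (by rw [ne_iff3]; simp only; omega) (by unfold near; simp only; push_cast; omega) (by unfold rD; simp only; omega)
      rw [hT3, Finset.mem_insert, hT2, Finset.mem_insert, hT1, Finset.mem_insert, hmT, eq_iff3, eq_iff3, eq_iff3]
      unfold adj3; simp only
      by_cases q3 : (a = x ∧ b = y - 1 ∧ c = z)
      · left; exact q3
      by_cases q2 : (a = x ∧ b = y + 1 ∧ c = z)
      · right; left; exact q2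
      by_cases q1 : (a = x + 1 ∧ b = y ∧ c = z)
      · right; right; left; exact q1
      · right; right; right; refine ⟨hm, ?_⟩; omega
  have hsub : T4 ⊆ S := by
    intro w hw
    rw [hT4, Finset.mem_insert, hT3, Finset.mem_insert, hT2, Finset.mem_insert, hT1, Finset.mem_insert, hmT] at hw
    rcases hw with rfl | rfl | rfl | rfl | hw
    · exact m4
    · exact m3
    · exact m2
    · exact m1
    · exact hw.1
  apply fin3 h hp hv hsub (r := D * (C * (C * A))) _ (fun _ => hR)
  calc f T4 ≤ D * f T3 := g4
    _ ≤ D * (C * f T2) := by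
        exact mul_le_mul_of_nonneg_left g3 H.d0.le
    _ ≤ D * (C * (C * f T1)) := by
        apply mul_le_mul_of_nonneg_left _ H.d0.le
        exact mul_le_mul_of_nonneg_left g2 H.c0.le
    _ ≤ D * (C * (C * (A * f T))) := by
        apply mul_le_mul_of_nonneg_left _ H.d0.le
        apply mul_le_mul_of_nonneg_left _ H.c0.le
        exact mul_le_mul_of_nonneg_left g1 H.c0.le
    _ = (D * (C * (C * A))) * f T := by ring

lemma stepD_m {n : ℕ} {A C D E R : ℝ} (H : St f n A C D E)
    (hR : 1 - p / (D * (C * (C * A))) ≤ R) : Cl f (rD (-1)) (n + 1) R := by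
  rintro ⟨x, y, z⟩ S hv hS
  set T := S.filter (fun w => ¬ adj3 (x, y, z) w) with hT
  have hmT : ∀ w, w ∈ T ↔ w ∈ S ∧ ¬ adj3 (x, y, z) w := fun w => Finset.mem_filter
  have m1 : ((x + 1, y, z) : V3) ∈ S := hS _ (by rw [ne_iff3]; simp only; omega) (by unfold near; simp only; push_cast; omega) (by simp [rD] <;> omega)
  have m2 : ((x, y + 1, z) : V3) ∈ S := hS _ (by rw [ne_iff3]; simp only; omega) (by unfold near; simp only; push_cast; omega) (by simp [rD] <;> omega)
  have m3 : ((x, y - 1, z) : V3) ∈ S := hS _ (by rw [ne_iff3]; simp only; omega) (by unfold near; simp only; push_cast; omega) (by simp [rD] <;> omega)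
  have m4 : ((x, y, z - 1) : V3) ∈ S := hS _ (by rw [ne_iff3]; simp only; omega) (by unfold near; simp only; push_cast; omega) (by simp [rD] <;> omega)
  have n1 : ((x + 1, y, z) : V3) ∉ T := by rw [hmT]; intro hc; exact hc.2 (by simp [adj3])
  have n2 : ((x, y + 1, z) : V3) ∉ T := by rw [hmT]; intro hc; exact hc.2 (by simp [adj3])
  have n3 : ((x, y - 1, z) : V3) ∉ T := by rw [hmT]; intro hc; exact hc.2 (by simp [adj3])
  have n4 : ((x, y, z - 1) : V3) ∉ T := by rw [hmT]; intro hc; exact hc.2 (by simp [adj3])
  set T1 := insert ((x + 1, y, z) : V3) T with hT1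
  set T2 := insert ((x, y + 1, z) : V3) T1 with hT2
  set T3 := insert ((x, y - 1, z) : V3) T2 with hT3
  set T4 := insert ((x, y, z - 1) : V3) T3 with hT4
  have g1 : f T1 ≤ A * f T := by
    apply H.hA
    · exact n1
    · rintro ⟨a, b, c⟩ w1 w2 w3
      rw [ne_iff3] at w1
      unfold near at w2
      unfold rA at w3
      simp only at w1 w2 w3
      have hm := hS (a, b, c) (by rw [ne_iff3]; simp only; omega) (by unfold near; simp only; push_cast; omega) (by unfold rD; simp only; omega)
      rw [hmT]
      refine ⟨hm, ?_⟩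
      unfold adj3; simp only; omega
  have g2 : f T2 ≤ C * f T1 := by
    apply H.hC 1 (Or.inl rfl)
    · rw [hT1, Finset.mem_insert, eq_iff3, not_or]
      refine ⟨?_, n2⟩ <;> (simp only; rintro ⟨a1, a2, a3⟩; omega)
    · rintro ⟨a, b, c⟩ w1 w2 w3
      rw [ne_iff3] at w1
      unfold near at w2
      unfold rC at w3
      simp only at w1 w2 w3
      have hm := hS (a, b, c) (by rw [ne_iff3]; simp only; omega) (by unfold near; simp only; push_cast; omega) (by unfold rD; simp only; omega)
      rw [hT1, Finset.mem_insert, hmT, eq_iff3]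
      unfold adj3; simp only
      by_cases q1 : (a = x + 1 ∧ b = y ∧ c = z)
      · left; exact q1
      · right; refine ⟨hm, ?_⟩; omega
  have g3 : f T3 ≤ C * f T2 := by
    apply H.hC (-1) (Or.inr rfl)
    · rw [hT2, Finset.mem_insert, hT1, Finset.mem_insert, eq_iff3, eq_iff3, not_or, not_or]
      refine ⟨?_, ?_, n3⟩ <;> (simp only; rintro ⟨a1, a2, a3⟩; omega)
    · rintro ⟨a, b, c⟩ w1 w2 w3
      rw [ne_iff3] at w1
      unfold near at w2
      unfold rC at w3
      simp only at w1 w2 w3
      have hm := hS (a, b, c) (by rw [ne_iff3]; simp only; omega) (by unfold near; simp only; push_cast; omega) (by unfold rD; simp only; omega)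
      rw [hT2, Finset.mem_insert, hT1, Finset.mem_insert, hmT, eq_iff3, eq_iff3]
      unfold adj3; simp only
      by_cases q2 : (a = x ∧ b = y + 1 ∧ c = z)
      · left; exact q2
      by_cases q1 : (a = x + 1 ∧ b = y ∧ c = z)
      · right; left; exact q1
      · right; right; refine ⟨hm, ?_⟩; omega
  have g4 : f T4 ≤ D * f T3 := by
    apply H.hD (-1) (Or.inr rfl)
    · rw [hT3, Finset.mem_insert, hT2, Finset.mem_insert, hT1, Finset.mem_insert, eq_iff3, eq_iff3, eq_iff3, not_or, not_or, not_or]
      refine ⟨?_, ?_, ?_, n4⟩ <;> (simp only; rintro ⟨a1, a2, a3⟩; omega)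
    · rintro ⟨a, b, c⟩ w1 w2 w3
      rw [ne_iff3] at w1
      unfold near at w2
      unfold rD at w3
      simp only at w1 w2 w3
      have hm := hS (a, b, c) (by rw [ne_iff3]; simp only; omega) (by unfold near; simp only; push_cast; omega) (by unfold rD; simp only; omega)
      rw [hT3, Finset.mem_insert, hT2, Finset.mem_insert, hT1, Finset.mem_insert, hmT, eq_iff3, eq_iff3, eq_iff3]
      unfold adj3; simp only
      by_cases q3 : (a = x ∧ b = y - 1 ∧ c = z)
      · left; exact q3
      by_cases q2 : (a = x ∧ b = y + 1 ∧ c = z)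
      · right; left; exact q2
      by_cases q1 : (a = x + 1 ∧ b = y ∧ c = z)
      · right; right; left; exact q1
      · right; right; right; refine ⟨hm, ?_⟩; omega
  have hsub : T4 ⊆ S := by
    intro w hw
    rw [hT4, Finset.mem_insert, hT3, Finset.mem_insert, hT2, Finset.mem_insert, hT1, Finset.mem_insert, hmT] at hw
    rcases hw with rfl | rfl | rfl | rfl | hw
    · exact m4
    · exact m3
    · exact m2
    · exact m1
    · exact hw.1
  apply fin3 h hp hv hsub (r := D * (C * (C * A))) _ (fun _ => hR)
  calc f T4 ≤ D * f T3 := g4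
    _ ≤ D * (C * f T2) := by
        exact mul_le_mul_of_nonneg_left g3 H.d0.le
    _ ≤ D * (C * (C * f T1)) := by
        apply mul_le_mul_of_nonneg_left _ H.d0.le
        exact mul_le_mul_of_nonneg_left g2 H.c0.le
    _ ≤ D * (C * (C * (A * f T))) := by
        apply mul_le_mul_of_nonneg_left _ H.d0.le
        apply mul_le_mul_of_nonneg_left _ H.c0.le
        exact mul_le_mul_of_nonneg_left g1 H.c0.le
    _ = (D * (C * (C * A))) * f T := by ring

lemma stepE_pp {n : ℕ} {A C D E R : ℝ} (H : St f n A C D E)
    (hR : 1 - p / (E * (C * A)) ≤ R) : Cl f (rE 1 1) (n + 1) R := by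
  rintro ⟨x, y, z⟩ S hv hS
  set T := S.filter (fun w => ¬ adj3 (x, y, z) w) with hT
  have hmT : ∀ w, w ∈ T ↔ w ∈ S ∧ ¬ adj3 (x, y, z) w := fun w => Finset.mem_filter
  have m1 : ((x + 1, y, z) : V3) ∈ S := hS _ (by rw [ne_iff3]; simp only; omega) (by unfold near; simp only; push_cast; omega) (by simp [rE] <;> omega)
  have m2 : ((x, y + 1, z) : V3) ∈ S := hS _ (by rw [ne_iff3]; simp only; omega) (by unfold near; simp only; push_cast; omega) (by simp [rE] <;> omega)
  have m3 : ((x, y, z + 1) : V3) ∈ S := hS _ (by rw [ne_iff3]; simp only; omega) (by unfold near; simp only; push_cast; omega) (by simp [rE] <;> omega)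
  have n1 : ((x + 1, y, z) : V3) ∉ T := by rw [hmT]; intro hc; exact hc.2 (by simp [adj3])
  have n2 : ((x, y + 1, z) : V3) ∉ T := by rw [hmT]; intro hc; exact hc.2 (by simp [adj3])
  have n3 : ((x, y, z + 1) : V3) ∉ T := by rw [hmT]; intro hc; exact hc.2 (by simp [adj3])
  set T1 := insert ((x + 1, y, z) : V3) T with hT1
  set T2 := insert ((x, y + 1, z) : V3) T1 with hT2
  set T3 := insert ((x, y, z + 1) : V3) T2 with hT3
  have g1 : f T1 ≤ A * f T := by
    apply H.hA
    · exact n1
    · rintro ⟨a, b, c⟩ w1 w2 w3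
      rw [ne_iff3] at w1
      unfold near at w2
      unfold rA at w3
      simp only at w1 w2 w3
      have hm := hS (a, b, c) (by rw [ne_iff3]; simp only; omega) (by unfold near; simp only; push_cast; omega) (by unfold rE; simp only; omega)
      rw [hmT]
      refine ⟨hm, ?_⟩
      unfold adj3; simp only; omega
  have g2 : f T2 ≤ C * f T1 := by
    apply H.hC 1 (Or.inl rfl)
    · rw [hT1, Finset.mem_insert, eq_iff3, not_or]
      refine ⟨?_, n2⟩ <;> (simp only; rintro ⟨a1, a2, a3⟩; omega)
    · rintro ⟨a, b, c⟩ w1 w2 w3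
      rw [ne_iff3] at w1
      unfold near at w2
      unfold rC at w3
      simp only at w1 w2 w3
      have hm := hS (a, b, c) (by rw [ne_iff3]; simp only; omega) (by unfold near; simp only; push_cast; omega) (by unfold rE; simp only; omega)
      rw [hT1, Finset.mem_insert, hmT, eq_iff3]
      unfold adj3; simp only
      by_cases q1 : (a = x + 1 ∧ b = y ∧ c = z)
      · left; exact q1
      · right; refine ⟨hm, ?_⟩; omega
  have g3 : f T3 ≤ E * f T2 := by
    apply H.hE 1 1 (Or.inl rfl) (Or.inl rfl)
    · rw [hT2, Finset.mem_insert, hT1, Finset.mem_insert, eq_iff3, eq_iff3, not_or, not_or]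
      refine ⟨?_, ?_, n3⟩ <;> (simp only; rintro ⟨a1, a2, a3⟩; omega)
    · rintro ⟨a, b, c⟩ w1 w2 w3
      rw [ne_iff3] at w1
      unfold near at w2
      unfold rE at w3
      simp only at w1 w2 w3
      have hm := hS (a, b, c) (by rw [ne_iff3]; simp only; omega) (by unfold near; simp only; push_cast; omega) (by unfold rE; simp only; omega)
      rw [hT2, Finset.mem_insert, hT1, Finset.mem_insert, hmT, eq_iff3, eq_iff3]
      unfold adj3; simp only
      by_cases q2 : (a = x ∧ b = y + 1 ∧ c = z)
      · left; exact q2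
      by_cases q1 : (a = x + 1 ∧ b = y ∧ c = z)
      · right; left; exact q1
      · right; right; refine ⟨hm, ?_⟩; omega
  have hsub : T3 ⊆ S := by
    intro w hw
    rw [hT3, Finset.mem_insert, hT2, Finset.mem_insert, hT1, Finset.mem_insert, hmT] at hw
    rcases hw with rfl | rfl | rfl | hw
    · exact m3
    · exact m2
    · exact m1
    · exact hw.1
  apply fin3 h hp hv hsub (r := E * (C * A)) _ (fun _ => hR)
  calc f T3 ≤ E * f T2 := g3
    _ ≤ E * (C * f T1) := by
        exact mul_le_mul_of_nonneg_left g2 H.e0.le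
    _ ≤ E * (C * (A * f T)) := by
        apply mul_le_mul_of_nonneg_left _ H.e0.le
        exact mul_le_mul_of_nonneg_left g1 H.c0.le
    _ = (E * (C * A)) * f T := by ring

lemma stepE_pm {n : ℕ} {A C D E R : ℝ} (H : St f n A C D E)
    (hR : 1 - p / (E * (C * A)) ≤ R) : Cl f (rE 1 (-1)) (n + 1) R := by
  rintro ⟨x, y, z⟩ S hv hS
  set T := S.filter (fun w => ¬ adj3 (x, y, z) w) with hT
  have hmT : ∀ w, w ∈ T ↔ w ∈ S ∧ ¬ adj3 (x, y, z) w := fun w => Finset.mem_filter
  have m1 : ((x + 1, y, z) : V3) ∈ S := hS _ (by rw [ne_iff3]; simp only; omega) (by unfold near; simp only; push_cast; omega) (by simp [rE] <;> omega)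
  have m2 : ((x, y + 1, z) : V3) ∈ S := hS _ (by rw [ne_iff3]; simp only; omega) (by unfold near; simp only; push_cast; omega) (by simp [rE] <;> omega)
  have m3 : ((x, y, z - 1) : V3) ∈ S := hS _ (by rw [ne_iff3]; simp only; omega) (by unfold near; simp only; push_cast; omega) (by simp [rE] <;> omega)
  have n1 : ((x + 1, y, z) : V3) ∉ T := by rw [hmT]; intro hc; exact hc.2 (by simp [adj3])
  have n2 : ((x, y + 1, z) : V3) ∉ T := by rw [hmT]; intro hc; exact hc.2 (by simp [adj3])
  have n3 : ((x, y, z - 1) : V3) ∉ T := by rw [hmT]; intro hc; exact hc.2 (by simp [adj3])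
  set T1 := insert ((x + 1, y, z) : V3) T with hT1
  set T2 := insert ((x, y + 1, z) : V3) T1 with hT2
  set T3 := insert ((x, y, z - 1) : V3) T2 with hT3
  have g1 : f T1 ≤ A * f T := by
    apply H.hA
    · exact n1
    · rintro ⟨a, b, c⟩ w1 w2 w3
      rw [ne_iff3] at w1
      unfold near at w2
      unfold rA at w3
      simp only at w1 w2 w3
      have hm := hS (a, b, c) (by rw [ne_iff3]; simp only; omega) (by unfold near; simp only; push_cast; omega) (by unfold rE; simp only; omega)
      rw [hmT]
      refine ⟨hm, ?_⟩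
      unfold adj3; simp only; omega
  have g2 : f T2 ≤ C * f T1 := by
    apply H.hC 1 (Or.inl rfl)
    · rw [hT1, Finset.mem_insert, eq_iff3, not_or]
      refine ⟨?_, n2⟩ <;> (simp only; rintro ⟨a1, a2, a3⟩; omega)
    · rintro ⟨a, b, c⟩ w1 w2 w3
      rw [ne_iff3] at w1
      unfold near at w2
      unfold rC at w3
      simp only at w1 w2 w3
      have hm := hS (a, b, c) (by rw [ne_iff3]; simp only; omega) (by unfold near; simp only; push_cast; omega) (by unfold rE; simp only; omega)
      rw [hT1, Finset.mem_insert, hmT, eq_iff3]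
      unfold adj3; simp only
      by_cases q1 : (a = x + 1 ∧ b = y ∧ c = z)
      · left; exact q1
      · right; refine ⟨hm, ?_⟩; omega
  have g3 : f T3 ≤ E * f T2 := by
    apply H.hE 1 (-1) (Or.inl rfl) (Or.inr rfl)
    · rw [hT2, Finset.mem_insert, hT1, Finset.mem_insert, eq_iff3, eq_iff3, not_or, not_or]
      refine ⟨?_, ?_, n3⟩ <;> (simp only; rintro ⟨a1, a2, a3⟩; omega)
    · rintro ⟨a, b, c⟩ w1 w2 w3
      rw [ne_iff3] at w1
      unfold near at w2
      unfold rE at w3
      simp only at w1 w2 w3
      have hm := hS (a, b, c) (by rw [ne_iff3]; simp only; omega) (by unfold near; simp only; push_cast; omega) (by unfold rE; simp only; omega)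
      rw [hT2, Finset.mem_insert, hT1, Finset.mem_insert, hmT, eq_iff3, eq_iff3]
      unfold adj3; simp only
      by_cases q2 : (a = x ∧ b = y + 1 ∧ c = z)
      · left; exact q2
      by_cases q1 : (a = x + 1 ∧ b = y ∧ c = z)
      · right; left; exact q1
      · right; right; refine ⟨hm, ?_⟩; omega
  have hsub : T3 ⊆ S := by
    intro w hw
    rw [hT3, Finset.mem_insert, hT2, Finset.mem_insert, hT1, Finset.mem_insert, hmT] at hw
    rcases hw with rfl | rfl | rfl | hw
    · exact m3
    · exact m2
    · exact m1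
    · exact hw.1
  apply fin3 h hp hv hsub (r := E * (C * A)) _ (fun _ => hR)
  calc f T3 ≤ E * f T2 := g3
    _ ≤ E * (C * f T1) := by
        exact mul_le_mul_of_nonneg_left g2 H.e0.le
    _ ≤ E * (C * (A * f T)) := by
        apply mul_le_mul_of_nonneg_left _ H.e0.le
        exact mul_le_mul_of_nonneg_left g1 H.c0.le
    _ = (E * (C * A)) * f T := by ring

lemma stepE_mp {n : ℕ} {A C D E R : ℝ} (H : St f n A C D E)
    (hR : 1 - p / (E * (C * A)) ≤ R) : Cl f (rE (-1) 1) (n + 1) R := by
  rintro ⟨x, y, z⟩ S hv hS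
  set T := S.filter (fun w => ¬ adj3 (x, y, z) w) with hT
  have hmT : ∀ w, w ∈ T ↔ w ∈ S ∧ ¬ adj3 (x, y, z) w := fun w => Finset.mem_filter
  have m1 : ((x + 1, y, z) : V3) ∈ S := hS _ (by rw [ne_iff3]; simp only; omega) (by unfold near; simp only; push_cast; omega) (by simp [rE] <;> omega)
  have m2 : ((x, y - 1, z) : V3) ∈ S := hS _ (by rw [ne_iff3]; simp only; omega) (by unfold near; simp only; push_cast; omega) (by simp [rE] <;> omega)
  have m3 : ((x, y, z + 1) : V3) ∈ S := hS _ (by rw [ne_iff3]; simp only; omega) (by unfold near; simp only; push_cast; omega) (by simp [rE] <;> omega)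
  have n1 : ((x + 1, y, z) : V3) ∉ T := by rw [hmT]; intro hc; exact hc.2 (by simp [adj3])
  have n2 : ((x, y - 1, z) : V3) ∉ T := by rw [hmT]; intro hc; exact hc.2 (by simp [adj3])
  have n3 : ((x, y, z + 1) : V3) ∉ T := by rw [hmT]; intro hc; exact hc.2 (by simp [adj3])
  set T1 := insert ((x + 1, y, z) : V3) T with hT1
  set T2 := insert ((x, y - 1, z) : V3) T1 with hT2
  set T3 := insert ((x, y, z + 1) : V3) T2 with hT3
  have g1 : f T1 ≤ A * f T := by
    apply H.hA
    · exact n1
    · rintro ⟨a, b, c⟩ w1 w2 w3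
      rw [ne_iff3] at w1
      unfold near at w2
      unfold rA at w3
      simp only at w1 w2 w3
      have hm := hS (a, b, c) (by rw [ne_iff3]; simp only; omega) (by unfold near; simp only; push_cast; omega) (by unfold rE; simp only; omega)
      rw [hmT]
      refine ⟨hm, ?_⟩
      unfold adj3; simp only; omega
  have g2 : f T2 ≤ C * f T1 := by
    apply H.hC (-1) (Or.inr rfl)
    · rw [hT1, Finset.mem_insert, eq_iff3, not_or]
      refine ⟨?_, n2⟩ <;> (simp only; rintro ⟨a1, a2, a3⟩; omega)
    · rintro ⟨a, b, c⟩ w1 w2 w3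
      rw [ne_iff3] at w1
      unfold near at w2
      unfold rC at w3
      simp only at w1 w2 w3
      have hm := hS (a, b, c) (by rw [ne_iff3]; simp only; omega) (by unfold near; simp only; push_cast; omega) (by unfold rE; simp only; omega)
      rw [hT1, Finset.mem_insert, hmT, eq_iff3]
      unfold adj3; simp only
      by_cases q1 : (a = x + 1 ∧ b = y ∧ c = z)
      · left; exact q1
      · right; refine ⟨hm, ?_⟩; omega
  have g3 : f T3 ≤ E * f T2 := by
    apply H.hE (-1) 1 (Or.inr rfl) (Or.inl rfl)
    · rw [hT2, Finset.mem_insert, hT1, Finset.mem_insert, eq_iff3, eq_iff3, not_or, not_or]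
      refine ⟨?_, ?_, n3⟩ <;> (simp only; rintro ⟨a1, a2, a3⟩; omega)
    · rintro ⟨a, b, c⟩ w1 w2 w3
      rw [ne_iff3] at w1
      unfold near at w2
      unfold rE at w3
      simp only at w1 w2 w3
      have hm := hS (a, b, c) (by rw [ne_iff3]; simp only; omega) (by unfold near; simp only; push_cast; omega) (by unfold rE; simp only; omega)
      rw [hT2, Finset.mem_insert, hT1, Finset.mem_insert, hmT, eq_iff3, eq_iff3]
      unfold adj3; simp only
      by_cases q2 : (a = x ∧ b = y - 1 ∧ c = z)
      · left; exact q2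
      by_cases q1 : (a = x + 1 ∧ b = y ∧ c = z)
      · right; left; exact q1
      · right; right; refine ⟨hm, ?_⟩; omega
  have hsub : T3 ⊆ S := by
    intro w hw
    rw [hT3, Finset.mem_insert, hT2, Finset.mem_insert, hT1, Finset.mem_insert, hmT] at hw
    rcases hw with rfl | rfl | rfl | hw
    · exact m3
    · exact m2
    · exact m1
    · exact hw.1
  apply fin3 h hp hv hsub (r := E * (C * A)) _ (fun _ => hR)
  calc f T3 ≤ E * f T2 := g3
    _ ≤ E * (C * f T1) := by
        exact mul_le_mul_of_nonneg_left g2 H.e0.le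
    _ ≤ E * (C * (A * f T)) := by
        apply mul_le_mul_of_nonneg_left _ H.e0.le
        exact mul_le_mul_of_nonneg_left g1 H.c0.le
    _ = (E * (C * A)) * f T := by ring

lemma stepE_mm {n : ℕ} {A C D E R : ℝ} (H : St f n A C D E)
    (hR : 1 - p / (E * (C * A)) ≤ R) : Cl f (rE (-1) (-1)) (n + 1) R := by
  rintro ⟨x, y, z⟩ S hv hS
  set T := S.filter (fun w => ¬ adj3 (x, y, z) w) with hT
  have hmT : ∀ w, w ∈ T ↔ w ∈ S ∧ ¬ adj3 (x, y, z) w := fun w => Finset.mem_filter
  have m1 : ((x + 1, y, z) : V3) ∈ S := hS _ (by rw [ne_iff3]; simp only; omega) (by unfold near; simp only; push_cast; omega) (by simp [rE] <;> omega)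
  have m2 : ((x, y - 1, z) : V3) ∈ S := hS _ (by rw [ne_iff3]; simp only; omega) (by unfold near; simp only; push_cast; omega) (by simp [rE] <;> omega)
  have m3 : ((x, y, z - 1) : V3) ∈ S := hS _ (by rw [ne_iff3]; simp only; omega) (by unfold near; simp only; push_cast; omega) (by simp [rE] <;> omega)
  have n1 : ((x + 1, y, z) : V3) ∉ T := by rw [hmT]; intro hc; exact hc.2 (by simp [adj3])
  have n2 : ((x, y - 1, z) : V3) ∉ T := by rw [hmT]; intro hc; exact hc.2 (by simp [adj3])
  have n3 : ((x, y, z - 1) : V3) ∉ T := by rw [hmT]; intro hc; exact hc.2 (by simp [adj3])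
  set T1 := insert ((x + 1, y, z) : V3) T with hT1
  set T2 := insert ((x, y - 1, z) : V3) T1 with hT2
  set T3 := insert ((x, y, z - 1) : V3) T2 with hT3
  have g1 : f T1 ≤ A * f T := by
    apply H.hA
    · exact n1
    · rintro ⟨a, b, c⟩ w1 w2 w3
      rw [ne_iff3] at w1
      unfold near at w2
      unfold rA at w3
      simp only at w1 w2 w3
      have hm := hS (a, b, c) (by rw [ne_iff3]; simp only; omega) (by unfold near; simp only; push_cast; omega) (by unfold rE; simp only; omega)
      rw [hmT]
      refine ⟨hm, ?_⟩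
      unfold adj3; simp only; omega
  have g2 : f T2 ≤ C * f T1 := by
    apply H.hC (-1) (Or.inr rfl)
    · rw [hT1, Finset.mem_insert, eq_iff3, not_or]
      refine ⟨?_, n2⟩ <;> (simp only; rintro ⟨a1, a2, a3⟩; omega)
    · rintro ⟨a, b, c⟩ w1 w2 w3
      rw [ne_iff3] at w1
      unfold near at w2
      unfold rC at w3
      simp only at w1 w2 w3
      have hm := hS (a, b, c) (by rw [ne_iff3]; simp only; omega) (by unfold near; simp only; push_cast; omega) (by unfold rE; simp only; omega)
      rw [hT1, Finset.mem_insert, hmT, eq_iff3]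
      unfold adj3; simp only
      by_cases q1 : (a = x + 1 ∧ b = y ∧ c = z)
      · left; exact q1
      · right; refine ⟨hm, ?_⟩; omega
  have g3 : f T3 ≤ E * f T2 := by
    apply H.hE (-1) (-1) (Or.inr rfl) (Or.inr rfl)
    · rw [hT2, Finset.mem_insert, hT1, Finset.mem_insert, eq_iff3, eq_iff3, not_or, not_or]
      refine ⟨?_, ?_, n3⟩ <;> (simp only; rintro ⟨a1, a2, a3⟩; omega)
    · rintro ⟨a, b, c⟩ w1 w2 w3
      rw [ne_iff3] at w1
      unfold near at w2
      unfold rE at w3
      simp only at w1 w2 w3
      have hm := hS (a, b, c) (by rw [ne_iff3]; simp only; omega) (by unfold near; simp only; push_cast; omega) (by unfold rE; simp only; omega)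
      rw [hT2, Finset.mem_insert, hT1, Finset.mem_insert, hmT, eq_iff3, eq_iff3]
      unfold adj3; simp only
      by_cases q2 : (a = x ∧ b = y - 1 ∧ c = z)
      · left; exact q2
      by_cases q1 : (a = x + 1 ∧ b = y ∧ c = z)
      · right; left; exact q1
      · right; right; refine ⟨hm, ?_⟩; omega
  have hsub : T3 ⊆ S := by
    intro w hw
    rw [hT3, Finset.mem_insert, hT2, Finset.mem_insert, hT1, Finset.mem_insert, hmT] at hw
    rcases hw with rfl | rfl | rfl | hw
    · exact m3
    · exact m2
    · exact m1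
    · exact hw.1
  apply fin3 h hp hv hsub (r := E * (C * A)) _ (fun _ => hR)
  calc f T3 ≤ E * f T2 := g3
    _ ≤ E * (C * f T1) := by
        exact mul_le_mul_of_nonneg_left g2 H.e0.le
    _ ≤ E * (C * (A * f T)) := by
        apply mul_le_mul_of_nonneg_left _ H.e0.le
        exact mul_le_mul_of_nonneg_left g1 H.c0.le
    _ = (E * (C * A)) * f T := by ring


lemma St.next {n : ℕ} {A C D E A' C' D' E' : ℝ} (H : St f n A C D E)
    (a0 : 0 < A') (c0 : 0 < C') (d0 : 0 < D') (e0 : 0 < E')
    (hA : 1 - p / (D * (D * (C * (C * A)))) ≤ A') (hC : 1 - p / (E * (E * (C * A))) ≤ C')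
    (hD : 1 - p / (D * (C * (C * A))) ≤ D') (hE : 1 - p / (E * (C * A)) ≤ E') :
    St f (n + 1) A' C' D' E' where
  a0 := a0
  c0 := c0
  d0 := d0
  e0 := e0
  hA := stepA h hp H hA
  hC s hs := by
    rcases hs with rfl | rfl
    · exact stepC_p h hp H hC
    · exact stepC_m h hp H hC
  hD s hs := by
    rcases hs with rfl | rfl
    · exact stepD_p h hp H hD
    · exact stepD_m h hp H hD
  hE s t hs ht := by
    rcases hs with rfl | rfl <;> rcases ht with rfl | rfl
    · exact stepE_pp h hp H hE
    · exact stepE_pm h hp H hE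
    · exact stepE_mp h hp H hE
    · exact stepE_mm h hp H hE

lemma St.end {n : ℕ} {A C D E : ℝ} (H : St f n A C D E)
    (hneg : 1 - p / (D * (D * (C * (C * A)))) < 0) : False := by
  have h1 := stepA h hp H le_rfl
  set R := 1 - p / (D * (D * (C * (C * A))))
  -- a finite set satisfying the condition
  set S : Finset V3 := ((Finset.Icc (-((n : ℤ) + 1)) (n + 1)) ×ˢ ((Finset.Icc (-((n : ℤ) + 1)) (n + 1)) ×ˢ
    (Finset.Icc (-((n : ℤ) + 1)) (n + 1)))).erase (0, 0, 0) with hS
  have h2 := h1 (0, 0, 0) S (by rw [hS]; simp) (by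
    rintro ⟨a, b, c⟩ w1 w2 _
    unfold near at w2
    simp only at w2
    push_cast at w2
    rw [hS, Finset.mem_erase]
    refine ⟨w1, ?_⟩
    simp only [Finset.mem_product, Finset.mem_Icc]
    omega)
  have h3 := h.pos hp esc3 S
  have h4 := h.pos hp esc3 (insert (0, 0, 0) S)
  have h5 : R * f S < 0 := mul_neg_of_neg_of_pos hneg h3
  linarith

end

/-- the density of one colour is below `1/12` -/
theorem dens3 {p : ℝ} {f : Finset V3 → ℝ} (h : HC adj3 p f) : p < 1 / 12 := by
  by_contra hcon
  push Not at hcon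
  have hp : 0 < p := by linarith
  have key : ∀ {r R : ℝ}, 0 < r → 1 - (1 / 12) / r ≤ R → 1 - p / r ≤ R := by
    intro r R hr hR
    have : (1 / 12) / r ≤ p / r := div_le_div_of_nonneg_right hcon hr.le
    linarith
  have H0 := St.zero h
  have H1 := H0.next h hp (A' := 9167/10000) (C' := 9167/10000) (D' := 9167/10000) (E' := 9167/10000)
    (by norm_num) (by norm_num) (by norm_num) (by norm_num)
    (key (by norm_num) (by norm_num)) (key (by norm_num) (by norm_num))
    (key (by norm_num) (by norm_num)) (key (by norm_num) (by norm_num))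
  have H2 := H1.next h hp (A' := 8713/10000) (C' := 441/500) (D' := 441/500) (E' := 8919/10000)
    (by norm_num) (by norm_num) (by norm_num) (by norm_num)
    (key (by norm_num) (by norm_num)) (key (by norm_num) (by norm_num))
    (key (by norm_num) (by norm_num)) (key (by norm_num) (by norm_num))
  have H3 := H2.next h hp (A' := 421/500) (C' := 8637/10000) (D' := 8607/10000) (E' := 1757/2000)
    (by norm_num) (by norm_num) (by norm_num) (by norm_num)
    (key (by norm_num) (by norm_num)) (key (by norm_num) (by norm_num))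
    (key (by norm_num) (by norm_num)) (key (by norm_num) (by norm_num))
  have H4 := H3.next h hp (A' := 821/1000) (C' := 2129/2500) (D' := 8459/10000) (E' := 1087/1250)
    (by norm_num) (by norm_num) (by norm_num) (by norm_num)
    (key (by norm_num) (by norm_num)) (key (by norm_num) (by norm_num))
    (key (by norm_num) (by norm_num)) (key (by norm_num) (by norm_num))
  have H5 := H4.next h hp (A' := 1609/2000) (C' := 1053/1250) (D' := 4173/5000) (E' := 863/1000)
    (by norm_num) (by norm_num) (by norm_num) (by norm_num)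
    (key (by norm_num) (by norm_num)) (key (by norm_num) (by norm_num))
    (key (by norm_num) (by norm_num)) (key (by norm_num) (by norm_num))
  have H6 := H5.next h hp (A' := 1581/2000) (C' := 8349/10000) (D' := 2063/2500) (E' := 536/625)
    (by norm_num) (by norm_num) (by norm_num) (by norm_num)
    (key (by norm_num) (by norm_num)) (key (by norm_num) (by norm_num))
    (key (by norm_num) (by norm_num)) (key (by norm_num) (by norm_num))
  have H7 := H6.next h hp (A' := 389/500) (C' := 2071/2500) (D' := 1021/1250) (E' := 533/625)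
    (by norm_num) (by norm_num) (by norm_num) (by norm_num)
    (key (by norm_num) (by norm_num)) (key (by norm_num) (by norm_num))
    (key (by norm_num) (by norm_num)) (key (by norm_num) (by norm_num))
  have H8 := H7.next h hp (A' := 7661/10000) (C' := 8223/10000) (D' := 809/1000) (E' := 2121/2500)
    (by norm_num) (by norm_num) (by norm_num) (by norm_num)
    (key (by norm_num) (by norm_num)) (key (by norm_num) (by norm_num))
    (key (by norm_num) (by norm_num)) (key (by norm_num) (by norm_num))
  have H9 := H8.next h hp (A' := 7543/10000) (C' := 8163/10000) (D' := 2003/2500) (E' := 8441/10000)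
    (by norm_num) (by norm_num) (by norm_num) (by norm_num)
    (key (by norm_num) (by norm_num)) (key (by norm_num) (by norm_num))
    (key (by norm_num) (by norm_num)) (key (by norm_num) (by norm_num))
  have H10 := H9.next h hp (A' := 3709/5000) (C' := 8101/10000) (D' := 7931/10000) (E' := 8397/10000)
    (by norm_num) (by norm_num) (by norm_num) (by norm_num)
    (key (by norm_num) (by norm_num)) (key (by norm_num) (by norm_num))
    (key (by norm_num) (by norm_num)) (key (by norm_num) (by norm_num))
  have H11 := H10.next h hp (A' := 7279/10000) (C' := 4017/5000) (D' := 3921/5000) (E' := 8349/10000)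
    (by norm_num) (by norm_num) (by norm_num) (by norm_num)
    (key (by norm_num) (by norm_num)) (key (by norm_num) (by norm_num))
    (key (by norm_num) (by norm_num)) (key (by norm_num) (by norm_num))
  have H12 := H11.next h hp (A' := 1779/2500) (C' := 1989/2500) (D' := 7739/10000) (E' := 4147/5000)
    (by norm_num) (by norm_num) (by norm_num) (by norm_num)
    (key (by norm_num) (by norm_num)) (key (by norm_num) (by norm_num))
    (key (by norm_num) (by norm_num)) (key (by norm_num) (by norm_num))
  have H13 := H12.next h hp (A' := 6911/10000) (C' := 7861/10000) (D' := 761/1000) (E' := 4113/5000)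
    (by norm_num) (by norm_num) (by norm_num) (by norm_num)
    (key (by norm_num) (by norm_num)) (key (by norm_num) (by norm_num))
    (key (by norm_num) (by norm_num)) (key (by norm_num) (by norm_num))
  have H14 := H13.next h hp (A' := 6631/10000) (C' := 3867/5000) (D' := 1859/2500) (E' := 1017/1250)
    (by norm_num) (by norm_num) (by norm_num) (by norm_num)
    (key (by norm_num) (by norm_num)) (key (by norm_num) (by norm_num))
    (key (by norm_num) (by norm_num)) (key (by norm_num) (by norm_num))
  have H15 := H14.next h hp (A' := 6201/10000) (C' := 3773/5000) (D' := 287/400) (E' := 8003/10000)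
    (by norm_num) (by norm_num) (by norm_num) (by norm_num)
    (key (by norm_num) (by norm_num)) (key (by norm_num) (by norm_num))
    (key (by norm_num) (by norm_num)) (key (by norm_num) (by norm_num))
  have H16 := H15.next h hp (A' := 677/1250) (C' := 361/500) (D' := 6711/10000) (E' := 311/400)
    (by norm_num) (by norm_num) (by norm_num) (by norm_num)
    (key (by norm_num) (by norm_num)) (key (by norm_num) (by norm_num))
    (key (by norm_num) (by norm_num)) (key (by norm_num) (by norm_num))
  have H17 := H16.next h hp (A' := 3447/10000) (C' := 259/400) (D' := 2801/5000) (E' := 363/500)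
    (by norm_num) (by norm_num) (by norm_num) (by norm_num)
    (key (by norm_num) (by norm_num)) (key (by norm_num) (by norm_num))
    (key (by norm_num) (by norm_num)) (key (by norm_num) (by norm_num))
  apply H17.end h hp
  have : (1 / 12 : ℝ) / ((2801/5000 : ℝ) * ((2801/5000) * ((259/400) * ((259/400) * (3447/10000))))) ≤ p / ((2801/5000 : ℝ) * ((2801/5000) * ((259/400) * ((259/400) * (3447/10000))))) := div_le_div_of_nonneg_right hcon (by norm_num)
  refine lt_of_le_of_lt (sub_le_sub_left this 1) ?_
  norm_num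

end Pool.Agent.H239R3.ZD
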