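import Mathlib
import Pool.Agent.H239R3.ZDa

set_option autoImplicit false

/-!
Avoidance probabilities along an embedded graph, and densities of the colours.
-/

open MeasureTheory ProbabilityTheory

namespace Pool.Agent.H239R3.ZD

section
variable {V W : Type} [DecidableEq V] {adj : V → V → Prop} [DecidableRel adj] {q : ℕ}
  {μ : Measure (W → Fin q)} [IsProbabilityMeasure μ] (ι : V → W)

lemma meas_site_e (A : Set V) {v : V} (hv : v ∈ A) (C : Set (Fin q)) :
    MeasurableSet[⨆ v ∈ A, MeasurableSpace.comap (fun X : W → Fin q => X (ι v))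
      (⊤ : MeasurableSpace (Fin q))] {X : W → Fin q | X (ι v) ∈ C} := by
  have h1 : MeasurableSpace.comap (fun X : W → Fin q => X (ι v)) (⊤ : MeasurableSpace (Fin q)) ≤
      ⨆ v ∈ A, MeasurableSpace.comap (fun X : W → Fin q => X (ι v))
        (⊤ : MeasurableSpace (Fin q)) :=
    le_iSup₂_of_le v hv le_rfl
  apply h1
  exact ⟨C, trivial, rfl⟩

lemma meas_ev_e (a : Fin q) (S : Finset V) :
    MeasurableSet[⨆ v ∈ (S : Set V), MeasurableSpace.comap (fun X : W → Fin q => X (ι v))
      (⊤ : MeasurableSpace (Fin q))] {X : W → Fin q | ∀ w ∈ S, X (ι w) ≠ a} := by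
  have e : {X : W → Fin q | ∀ w ∈ S, X (ι w) ≠ a} =
      ⋂ w ∈ S, {X : W → Fin q | X (ι w) ∈ ({a}ᶜ : Set (Fin q))} := by
    ext X; simp
  rw [e]
  apply Finset.measurableSet_biInter
  intro w hw
  exact meas_site_e ι (S : Set V) (by exact_mod_cast hw) _

theorem hc_of_emb (hp : ∀ᵐ X ∂μ, ∀ u v, adj u v → X (ι u) ≠ X (ι v))
    (hd : ∀ A B : Set V, (∀ a ∈ A, ∀ b ∈ B, a ≠ b ∧ ¬ adj a b) →
      Indep (⨆ v ∈ A, MeasurableSpace.comap (fun X : W → Fin q => X (ι v))
          (⊤ : MeasurableSpace (Fin q)))
        (⨆ v ∈ B, MeasurableSpace.comap (fun X : W → Fin q => X (ι v))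
          (⊤ : MeasurableSpace (Fin q))) μ)
    (a : Fin q) (p : ℝ) (hu : ∀ v, μ.real {X | X (ι v) = a} = p) :
    HC adj p (fun S => μ.real {X : W → Fin q | ∀ w ∈ S, X (ι w) ≠ a}) where
  empty := by
    have : {X : W → Fin q | ∀ w ∈ (∅ : Finset V), X (ι w) ≠ a} = Set.univ := by ext X; simp
    rw [this]; simp
  nonneg S := measureReal_nonneg
  anti S S' h := by
    apply measureReal_mono
    · intro X hX w hw; exact hX w (h hw)
    · exact measure_ne_top _ _
  step v S hv := by
    set S' := S.filter (fun w => ¬ adj v w) with hS'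
    set evS : Finset V → Set (W → Fin q) := fun S => {X : W → Fin q | ∀ w ∈ S, X (ι w) ≠ a}
      with hevS
    have hmv : Measurable (fun X : W → Fin q => X (ι v)) := measurable_pi_apply (ι v)
    have hms : MeasurableSet {X : W → Fin q | X (ι v) = a} := hmv (MeasurableSet.singleton a)
    have h1 : μ.real (evS S) = μ.real (evS S ∩ {X | X (ι v) = a}) +
        μ.real (evS S \ {X | X (ι v) = a}) :=
      (measureReal_inter_add_diff hms).symm
    have h2 : (evS S \ {X : W → Fin q | X (ι v) = a}) = evS (insert v S) := by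
      ext X
      simp only [hevS, Set.mem_diff, Set.mem_ofPred_eq, Finset.mem_insert, forall_eq_or_imp]
      tauto
    have h3 : μ.real (evS S ∩ {X | X (ι v) = a}) =
        μ.real ({X : W → Fin q | X (ι v) = a} ∩ evS S') := by
      rw [measureReal_def, measureReal_def]
      congr 1
      apply measure_congr
      filter_upwards [hp] with X hX
      apply propext
      constructor
      · rintro ⟨g1, g2⟩
        exact ⟨g2, fun w hw => g1 w (Finset.mem_filter.mp hw).1⟩
      · rintro ⟨g1, g2⟩
        refine ⟨?_, g1⟩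
        intro w hw
        by_cases hadj : adj v w
        · have := hX v w hadj
          have g1' : X (ι v) = a := g1
          rw [g1'] at this
          exact this.symm
        · exact g2 w (Finset.mem_filter.mpr ⟨hw, hadj⟩)
    have hind := hd {v} (S' : Set V) (by
      rintro x hx b hb
      rw [Set.mem_singleton_iff] at hx
      subst hx
      have hb' := Finset.mem_filter.mp (Finset.mem_coe.mp hb)
      refine ⟨?_, hb'.2⟩
      rintro rfl
      exact hv hb'.1)
    rw [Indep_iff] at hind
    have h4 := hind {X | X (ι v) = a} (evS S') (meas_site_e ι {v} rfl {a}) (meas_ev_e ι a S')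
    have h5 : μ.real ({X : W → Fin q | X (ι v) = a} ∩ evS S') = p * μ.real (evS S') := by
      rw [measureReal_def, h4, ENNReal.toReal_mul, ← measureReal_def, ← measureReal_def, hu v]
    show μ.real (evS (insert v S)) = μ.real (evS S) - p * μ.real (evS S')
    rw [← h2, h1, h3, h5]; ring

end

section
variable {W : Type} [AddCommGroup W] {q : ℕ} {μ : Measure (W → Fin q)} [IsProbabilityMeasure μ]

omit [IsProbabilityMeasure μ] in
/-- under stationarity the one-point marginals do not depend on the point -/
lemma dens_const (hstat : ∀ a : W, Measure.map (fun (X : W → Fin q) (v : W) => X (v + a)) μ = μ)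
    (c : Fin q) (v : W) : μ.real {X | X v = c} = μ.real {X | X 0 = c} := by
  have hm : Measurable (fun (X : W → Fin q) (u : W) => X (u + v)) :=
    measurable_pi_lambda _ (fun u => measurable_pi_apply _)
  have hm0 : Measurable (fun X : W → Fin q => X 0) := measurable_pi_apply (0 : W)
  have hs : MeasurableSet {X : W → Fin q | X 0 = c} := hm0 (MeasurableSet.singleton c)
  have h1 : μ.real {X | X 0 = c} =
      (Measure.map (fun (X : W → Fin q) (u : W) => X (u + v)) μ).real {X | X 0 = c} := by
    rw [hstat v]
  rw [h1, measureReal_def, measureReal_def, Measure.map_apply hm hs]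
  congr 2
  ext X
  simp

/-- the densities of the colours sum to one -/
lemma dens_sum (v : W) : ∑ c : Fin q, μ.real {X : W → Fin q | X v = c} = 1 := by
  have h1 := sum_measureReal_preimage_singleton (μ := μ) (Finset.univ : Finset (Fin q))
    (f := fun X : W → Fin q => X v)
    (fun y _ => (measurable_pi_apply v) (MeasurableSet.singleton y))
  have h2 : ∀ c : Fin q, μ.real {X : W → Fin q | X v = c} =
      μ.real ((fun X : W → Fin q => X v) ⁻¹' {c}) := fun c => rfl
  simp only [h2]
  rw [h1]
  simp

end

end Pool.Agent.H239R3.ZD
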