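import Mathlib
import Pool.Agent.H239R3.ZDa

set_option autoImplicit false

/-!
Recursion on `ℤ^d` with lexicographic neighbourhoods; one step.
-/

namespace Pool.Agent.H239R3.ZD

section
variable {d : ℕ}

def sv : Option Bool → ℤ
  | none => 0
  | some true => 1
  | some false => -1

def sz (b : Bool) : ℤ := if b then 1 else -1

def nb (v : Fin d → ℤ) (i : Fin d) (b : Bool) : Fin d → ℤ := Function.update v i (v i + sz b)

def adjd (v w : Fin d → ℤ) : Prop := ∃ i b, w = nb v i b

instance : DecidableRel (adjd (d := d)) := fun v w => by unfold adjd; infer_instance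

def reg (σ : Fin d → Option Bool) (v w : Fin d → ℤ) : Prop :=
  ∃ i, (∀ k, k < i → w k = v k) ∧ w i ≠ v i ∧ 0 ≤ sv (σ i) * (w i - v i)

def Cld (f : Finset (Fin d → ℤ) → ℝ) (σ : Fin d → Option Bool) (n : ℕ) (R : ℝ) : Prop :=
  ∀ v S, v ∉ S → (∀ w, reg σ v w → (∀ k, |w k - v k| ≤ n) → w ∈ S) → f (insert v S) ≤ R * f S

def child (σ : Fin d → Option Bool) (i : Fin d) (b : Bool) : Fin d → Option Bool :=
  fun k => if k < i then σ k else if k = i then some b else none

def okc (s : Option Bool) (b : Bool) : Prop := s = none ∨ s = some b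

instance : DecidableRel okc := fun s b => by unfold okc; infer_instance

def Nc (σ : Fin d → Option Bool) : Finset (Fin d × Bool) :=
  Finset.univ.filter (fun ib => okc (σ ib.1) ib.2)

lemma sz_ne (b : Bool) : sz b ≠ 0 := by cases b <;> simp [sz]
lemma sz_abs (b : Bool) : |sz b| = 1 := by cases b <;> simp [sz]

lemma sv_ok (s : Option Bool) (b : Bool) : okc s b ↔ 0 ≤ sv s * sz b := by
  rcases s with _ | s
  · simp [okc, sv]
  · cases s <;> cases b <;> simp [okc, sv, sz]

lemma nb_self (v : Fin d → ℤ) (i : Fin d) (b : Bool) : nb v i b i = v i + sz b := by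
  simp [nb]
lemma nb_ne (v : Fin d → ℤ) (i : Fin d) (b : Bool) {k : Fin d} (h : k ≠ i) :
    nb v i b k = v k := by
  simp [nb, h]

lemma nb_inj (v : Fin d → ℤ) {i j : Fin d} {b c : Bool} (h : nb v i b = nb v j c) :
    i = j ∧ b = c := by
  have h1 : i = j := by
    by_contra hne
    have := congrFun h i
    rw [nb_self, nb_ne v j c hne] at this
    exact sz_ne b (by linarith)
  subst h1
  refine ⟨rfl, ?_⟩
  have := congrFun h i
  rw [nb_self, nb_self] at this
  have h2 : sz b = sz c := by linarith
  cases b <;> cases c <;> simp [sz] at h2 ⊢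

def key (ib : Fin d × Bool) : ℕ := 2 * ib.1.val + (if ib.2 then 0 else 1)

lemma key_inj {a c : Fin d × Bool} (h : key a = key c) : a = c := by
  obtain ⟨i, b⟩ := a
  obtain ⟨j, e⟩ := c
  unfold key at h
  simp only at h
  have h1 : i.val = j.val := by
    cases b <;> cases e <;> simp at h <;> omega
  have h2 : i = j := Fin.ext h1
  subst h2
  cases b <;> cases e <;> simp at h ⊢

lemma key_lt {i j : Fin d} (h : j < i) (b c : Bool) : key (j, c) < key (i, b) := by
  unfold key
  have : j.val < i.val := h
  simp only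
  cases b <;> cases c <;> simp <;> omega

/-- the known region of a child -/
lemma reg_child {σ : Fin d → Option Bool} {v w : Fin d → ℤ} {i : Fin d} {b : Bool} {n : ℕ}
    (hok : okc (σ i) b) (hr : reg (child σ i b) (nb v i b) w)
    (hn : ∀ k, |w k - nb v i b k| ≤ n) :
    (reg σ v w ∧ (∀ k, |w k - v k| ≤ (n + 1 : ℕ))) ∧
      (adjd v w → ∃ j c, j < i ∧ okc (σ j) c ∧ w = nb v j c) := by
  have hbox : ∀ k, |w k - v k| ≤ (n + 1 : ℕ) := by
    intro k
    have h1 := hn k
    push_cast
    by_cases hk : k = i
    · subst hk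
      rw [nb_self] at h1
      have h2 := sz_abs b
      have h3 : w k - v k = (w k - (v k + sz b)) + sz b := by ring
      rw [h3]
      exact le_trans (abs_add_le _ _) (by linarith)
    · rw [nb_ne v i b hk] at h1
      linarith
  obtain ⟨j, hj1, hj2, hj3⟩ := hr
  have hokz := (sv_ok _ _).mp hok
  rcases lt_trichotomy j i with hji | hji | hji
  · have e1 : child σ i b j = σ j := by simp [child, hji]
    have e2 : ∀ k, k ≤ j → nb v i b k = v k := fun k hk =>
      nb_ne v i b (ne_of_lt (lt_of_le_of_lt hk hji))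
    rw [e2 j le_rfl] at hj2 hj3
    rw [e1] at hj3
    refine ⟨⟨⟨j, fun k hk => by rw [hj1 k hk, e2 k hk.le], hj2, hj3⟩, hbox⟩, ?_⟩
    rintro ⟨i', c, rfl⟩
    have h1 : i' = j := by
      by_contra hne
      exact hj2 (nb_ne v i' c (fun h => hne h.symm))
    subst h1
    refine ⟨i', c, hji, ?_, rfl⟩
    rw [sv_ok]
    rw [nb_self] at hj3
    have : v i' + sz c - v i' = sz c := by ring
    rw [this] at hj3
    exact hj3
  · subst hji
    have e1 : child σ j b j = some b := by simp [child]
    rw [e1, nb_self] at hj3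
    rw [nb_self] at hj2
    have h2 : 2 ≤ sz b * (w j - v j) := by
      cases b
      · simp only [sv, sz] at hj3 hj2 ⊢
        simp at hj3 hj2 ⊢
        omega
      · simp only [sv, sz] at hj3 hj2 ⊢
        simp at hj3 hj2 ⊢
        omega
    refine ⟨⟨⟨j, fun k hk => by rw [hj1 k hk, nb_ne v j b (ne_of_lt hk)], ?_, ?_⟩, hbox⟩, ?_⟩
    · intro h; rw [h] at h2; simp at h2
    · rcases hok with h | h
      · rw [h]; simp [sv]
      · rw [h]
        cases b
        · simp only [sv, sz] at h2 ⊢; simp at h2; omega
        · simp only [sv, sz] at h2 ⊢; simp at h2; omega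
    · rintro ⟨i', c, rfl⟩
      exfalso
      by_cases h : i' = j
      · subst h
        rw [nb_self] at h2
        cases b <;> cases c <;> simp [sz] at h2
      · rw [nb_ne v i' c (fun h' => h h'.symm)] at h2
        simp at h2
  · have e2 : w i = v i + sz b := by rw [hj1 i hji, nb_self]
    refine ⟨⟨⟨i, fun k hk => by rw [hj1 k (hk.trans hji), nb_ne v i b (ne_of_lt hk)], ?_, ?_⟩,
      hbox⟩, ?_⟩
    · rw [e2]; intro h; exact sz_ne b (by linarith)
    · rw [e2]
      have : v i + sz b - v i = sz b := by ring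
      rw [this]; exact hokz
    · rintro ⟨i', c, rfl⟩
      exfalso
      have h1 : i' = i := by
        by_contra hne
        rw [nb_ne v i' c (fun h => hne h.symm)] at e2
        exact sz_ne b (by linarith)
      subst h1
      apply hj2
      rw [nb_ne v i' c (ne_of_gt hji), nb_ne v i' b (ne_of_gt hji)]

end

section
variable {d : ℕ} {p : ℝ} {f : Finset (Fin d → ℤ) → ℝ} (h : HC adjd p f) (hp : 0 < p)
  (hesc : ∀ S : Finset (Fin d → ℤ), S.Nonempty → ∃ v, v ∉ S ∧ ∃ u ∈ S, adjd v u)
include h hp hesc

lemma stepd {n : ℕ} {R : (Fin d → Option Bool) → ℝ} (hR : ∀ σ, 0 < R σ)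
    (hC : ∀ σ, Cld f σ n (R σ)) (σ : Fin d → Option Bool) :
    Cld f σ (n + 1) (1 - p / ∏ ib ∈ Nc σ, R (child σ ib.1 ib.2)) := by
  intro v S hv hS
  set T := S.filter (fun w => ¬ adjd v w) with hT
  have hmT : ∀ w, w ∈ T ↔ w ∈ S ∧ ¬ adjd v w := fun w => Finset.mem_filter
  set nb' : Fin d × Bool → (Fin d → ℤ) := fun ib => nb v ib.1 ib.2 with hnb'
  have main : ∀ s : Finset (Fin d × Bool), s ⊆ Nc σ →
      (∀ c ∈ s, ∀ c' ∈ Nc σ, key c' < key c → c' ∈ s) →
      f (T ∪ s.image nb') ≤ (∏ ib ∈ s, R (child σ ib.1 ib.2)) * f T := by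
    intro s
    induction s using Finset.induction_on_max_value key with
    | empty => intro _ _; simp
    | insert a s ha hmax ih =>
      intro hsub hcl
      have hs1 : s ⊆ Nc σ := fun x hx => hsub (Finset.mem_insert_of_mem hx)
      have hlow : ∀ c' ∈ Nc σ, key c' < key a → c' ∈ s := by
        intro c' hc' hk
        have := hcl a (Finset.mem_insert_self _ _) c' hc' hk
        rcases Finset.mem_insert.mp this with h1 | h1
        · rw [h1] at hk; exact absurd hk (lt_irrefl _)
        · exact h1
      have h1 := ih hs1 (by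
        intro c hc c' hc' hk
        exact hlow c' hc' (lt_of_lt_of_le hk (hmax c hc)))
      rw [Finset.image_insert, Finset.union_insert, Finset.prod_insert ha]
      have ha' : a ∈ Nc σ := hsub (Finset.mem_insert_self _ _)
      have hok : okc (σ a.1) a.2 := (Finset.mem_filter.mp ha').2
      have h2 : f (insert (nb' a) (T ∪ s.image nb')) ≤
          R (child σ a.1 a.2) * f (T ∪ s.image nb') := by
        apply hC (child σ a.1 a.2)
        · rw [Finset.mem_union, not_or]
          constructor
          · rw [hmT]; rintro ⟨_, h3⟩; exact h3 ⟨a.1, a.2, rfl⟩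
          · rw [Finset.mem_image]
            rintro ⟨c, hc, he⟩
            obtain ⟨e1, e2⟩ := nb_inj v he
            have : c = a := Prod.ext e1 e2
            rw [this] at hc; exact ha hc
        · intro w hw1 hw2
          obtain ⟨⟨h3, h4⟩, h5⟩ := reg_child hok hw1 hw2
          rw [Finset.mem_union]
          by_cases hadj : adjd v w
          · right
            obtain ⟨j, c, hj, hoj, rfl⟩ := h5 hadj
            rw [Finset.mem_image]
            refine ⟨(j, c), hlow (j, c) ?_ ?_, rfl⟩
            · exact Finset.mem_filter.mpr ⟨Finset.mem_univ _, hoj⟩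
            · exact key_lt hj a.2 c
          · left
            rw [hmT]
            exact ⟨hS w h3 h4, hadj⟩
      calc f (insert (nb' a) (T ∪ s.image nb'))
          ≤ R (child σ a.1 a.2) * f (T ∪ s.image nb') := h2
        _ ≤ R (child σ a.1 a.2) * ((∏ ib ∈ s, R (child σ ib.1 ib.2)) * f T) :=
            mul_le_mul_of_nonneg_left h1 (hR _).le
        _ = R (child σ a.1 a.2) * (∏ ib ∈ s, R (child σ ib.1 ib.2)) * f T := by ring
  have hfin := main (Nc σ) (Finset.Subset.refl _) (fun _ _ c' hc' _ => hc')
  have hsub : T ∪ (Nc σ).image nb' ⊆ S := by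
    intro w hw
    rcases Finset.mem_union.mp hw with h1 | h1
    · exact ((hmT w).mp h1).1
    · obtain ⟨⟨i, b⟩, hib, rfl⟩ := Finset.mem_image.mp h1
      have hok : okc (σ i) b := (Finset.mem_filter.mp hib).2
      apply hS
      · refine ⟨i, fun k hk => nb_ne v i b (ne_of_lt hk), ?_, ?_⟩
        · show nb v i b i ≠ v i
          rw [nb_self]; intro h; exact sz_ne b (by linarith)
        · show 0 ≤ sv (σ i) * (nb v i b i - v i)
          rw [nb_self]
          have : v i + sz b - v i = sz b := by ring
          rw [this]; exact (sv_ok _ _).mp hok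
      · intro k
        show |nb v i b k - v k| ≤ _
        push_cast
        by_cases hk : k = i
        · subst hk
          rw [nb_self]
          have : v k + sz b - v k = sz b := by ring
          rw [this, sz_abs]
          have : (0 : ℤ) ≤ n := Int.natCast_nonneg n
          linarith
        · rw [nb_ne v i b hk, sub_self, abs_zero]
          have : (0 : ℤ) ≤ n := Int.natCast_nonneg n
          linarith
  exact (h.ratio hp hesc hv hsub hfin).2

end

end Pool.Agent.H239R3.ZD
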