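import Mathlib
import Pool.Agent.H239R3.ZDe

set_option autoImplicit false

/-!
Weights on sign patterns and the eigenvalue identity.
-/

namespace Pool.Agent.H239R3.ZD

noncomputable section

/-- weights of the sign patterns -/
def Wt (g : ℕ → ℝ) : (n : ℕ) → (Fin n → Option Bool) → ℝ
  | 0, _ => 1
  | n + 1, σ => (if σ 0 = none then 1 else g n / (1 - g n)) * Wt g n (fun i => σ i.succ)

def Kop {n : ℕ} (h : (Fin n → Option Bool) → ℝ) (σ : Fin n → Option Bool) : ℝ :=
  ∑ i, ∑ b, if okc (σ i) b then h (child σ i b) else 0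

lemma sum_cons {n : ℕ} (F : (Fin (n + 1) → Option Bool) → ℝ) :
    ∑ σ, F σ = ∑ s : Option Bool, ∑ τ : Fin n → Option Bool, F (Fin.cons s τ) := by
  rw [← (Fin.consEquiv (fun _ : Fin (n + 1) => Option Bool)).sum_comp, Fintype.sum_prod_type]
  rfl

lemma Wt_cons (g : ℕ → ℝ) {n : ℕ} (s : Option Bool) (τ : Fin n → Option Bool) :
    Wt g (n + 1) (Fin.cons s τ) = (if s = none then 1 else g n / (1 - g n)) * Wt g n τ := by
  simp [Wt]

lemma sum_opt (F : Option Bool → ℝ) : ∑ s, F s = F none + (F (some true) + F (some false)) := by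
  rw [Fintype.sum_option, Fintype.sum_bool]

lemma Wt_none (g : ℕ → ℝ) (n : ℕ) : Wt g n (fun _ => none) = 1 := by
  induction n with
  | zero => rfl
  | succ n ih => simp [Wt, ih]

lemma sum_Wt (g : ℕ → ℝ) (hg0 : g 0 ≠ 0) (n : ℕ) (h1 : ∀ k < n, 1 - g k ≠ 0)
    (hs : ∀ k < n, g (k + 1) * (1 - g k) = g k * (1 + g k)) :
    g 0 * ∑ τ, Wt g n τ = g n := by
  induction n with
  | zero => simp [Wt]
  | succ n ih =>
    have ih' := ih (fun k hk => h1 k (by omega)) (fun k hk => hs k (by omega))
    rw [sum_cons, sum_opt]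
    simp only [Wt_cons, ← Finset.mul_sum]
    simp only [if_true, reduceCtorEq, if_false]
    have h2 := h1 n (by omega)
    have h3 := hs n (by omega)
    have h4 : g (n + 1) = g n * (1 + g n) / (1 - g n) := by
      rw [eq_div_iff h2]; exact h3
    rw [h4]
    set M1 := ∑ τ, Wt g n τ
    have : g 0 * (1 * M1 + (g n / (1 - g n) * M1 + g n / (1 - g n) * M1)) =
        (g 0 * M1) * (1 + 2 * (g n / (1 - g n))) := by ring
    rw [this, ih']
    field_simp
    ring

lemma child_cons_zero {n : ℕ} (s : Option Bool) (τ : Fin n → Option Bool) (b : Bool) :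
    child (Fin.cons s τ : Fin (n + 1) → Option Bool) 0 b = Fin.cons (some b) (fun _ => none) := by
  funext k
  refine Fin.cases ?_ (fun k => ?_) k
  · simp [child]
  · simp [child, Fin.succ_ne_zero]

lemma child_cons_succ {n : ℕ} (s : Option Bool) (τ : Fin n → Option Bool) (i : Fin n) (b : Bool) :
    child (Fin.cons s τ : Fin (n + 1) → Option Bool) i.succ b = Fin.cons s (child τ i b) := by
  funext k
  refine Fin.cases ?_ (fun k => ?_) k
  · simp [child]
  · simp [child, Fin.succ_lt_succ_iff, Fin.succ_inj]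

lemma Kop_cons {n : ℕ} (h : (Fin (n + 1) → Option Bool) → ℝ) (s : Option Bool)
    (τ : Fin n → Option Bool) :
    Kop h (Fin.cons s τ) = (∑ b, if okc s b then h (Fin.cons (some b) (fun _ => none)) else 0) +
      Kop (fun τ' => h (Fin.cons s τ')) τ := by
  unfold Kop
  rw [Fin.sum_univ_succ]
  simp only [child_cons_zero, child_cons_succ, Fin.cons_zero, Fin.cons_succ]

lemma eig (g : ℕ → ℝ) (hg0 : g 0 ≠ 0) (n : ℕ) (h1 : ∀ k < n, 1 - g k ≠ 0)
    (hs : ∀ k < n, g (k + 1) * (1 - g k) = g k * (1 + g k)) (h : (Fin n → Option Bool) → ℝ) :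
    g 0 * ∑ τ, Wt g n τ * Kop h τ = (∑ τ, Wt g n τ * h τ) - h (fun _ => none) := by
  induction n with
  | zero =>
    simp [Kop, Wt]
    rw [eq_comm, sub_eq_zero]
    exact congrArg h (Subsingleton.elim _ _)
  | succ n ih =>
    have ih' := ih (fun k hk => h1 k (by omega)) (fun k hk => hs k (by omega))
    have hsum := sum_Wt g hg0 n (fun k hk => h1 k (by omega)) (fun k hk => hs k (by omega))
    rw [sum_cons, sum_cons, sum_opt, sum_opt]
    simp only [Wt_cons, Kop_cons]
    have i1 := ih' (fun τ => h (Fin.cons none τ))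
    have i2 := ih' (fun τ => h (Fin.cons (some true) τ))
    have i3 := ih' (fun τ => h (Fin.cons (some false) τ))
    simp only [if_true, reduceCtorEq, if_false, Fintype.sum_bool, okc, true_or, false_or,
      Option.some.injEq, Bool.false_eq_true, Bool.true_eq_false, mul_add, mul_assoc, one_mul,
      ← Finset.mul_sum, Finset.sum_add_distrib, ← Finset.sum_mul] at i1 i2 i3 ⊢
    have h2 := h1 n (by omega)
    have hc : g n * (1 + g n / (1 - g n)) = g n / (1 - g n) := by field_simp; ring
    have e0 : (fun _ : Fin (n + 1) => (none : Option Bool)) =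
        Fin.cons none (fun _ : Fin n => none) := by
      funext k
      refine Fin.cases ?_ (fun k => ?_) k <;> simp
    rw [e0]
    set c := g n / (1 - g n)
    set M1 := ∑ τ, Wt g n τ
    set A := h (Fin.cons (some true) (fun _ => none))
    set B := h (Fin.cons (some false) (fun _ => none))
    set C := h (Fin.cons none (fun _ => none))
    set K1 := ∑ τ, Wt g n τ * Kop (fun τ' => h (Fin.cons none τ')) τ
    set K2 := ∑ τ, Wt g n τ * Kop (fun τ' => h (Fin.cons (some true) τ')) τ
    set K3 := ∑ τ, Wt g n τ * Kop (fun τ' => h (Fin.cons (some false) τ')) τ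
    set H1 := ∑ τ, Wt g n τ * h (Fin.cons none τ)
    set H2 := ∑ τ, Wt g n τ * h (Fin.cons (some true) τ)
    set H3 := ∑ τ, Wt g n τ * h (Fin.cons (some false) τ)
    linear_combination (1 + c) * (A + B) * hsum + (A + B) * hc + i1 + c * i2 + c * i3

lemma Wt_pos (g : ℕ → ℝ) (n : ℕ) (h0 : ∀ k < n, 0 < g k) (h1 : ∀ k < n, g k < 1)
    (τ : Fin n → Option Bool) : 0 < Wt g n τ := by
  induction n with
  | zero => simp [Wt]
  | succ n ih =>
    have h2 := ih (fun k hk => h0 k (by omega)) (fun k hk => h1 k (by omega)) (fun i => τ i.succ)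
    have h3 := h0 n (by omega)
    have h4 := h1 n (by omega)
    have h5 : 0 < g n / (1 - g n) := div_pos h3 (by linarith)
    simp only [Wt]
    split_ifs
    · rw [one_mul]; exact h2
    · exact mul_pos h5 h2

/-- pointwise inequality -/
lemma log_ineq {m x : ℝ} (hm : 0 < m) (h0 : 0 < x) (h1 : x < 1) :
    m * Real.log x + Real.log (1 - x) ≤ m * Real.log m - (m + 1) * Real.log (m + 1) := by
  have e1 := Real.log_le_sub_one_of_pos (show 0 < (m + 1) * x / m by positivity)
  have e2 := Real.log_le_sub_one_of_pos (show 0 < (m + 1) * (1 - x) from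
    mul_pos (by linarith) (by linarith))
  rw [Real.log_div (by positivity) hm.ne', Real.log_mul (by positivity) h0.ne'] at e1
  rw [Real.log_mul (by positivity) (by linarith)] at e2
  have e3 : m * ((m + 1) * x / m - 1) = (m + 1) * x - m := by field_simp
  have e4 := mul_le_mul_of_nonneg_left e1 hm.le
  rw [e3] at e4
  nlinarith

/-- the analytic core: an infinite positive solution of the recursion bounds `p` -/
theorem core (g : ℕ → ℝ) (n : ℕ) (h0 : ∀ k ≤ n, 0 < g k) (h1 : ∀ k < n, g k < 1)
    (hs : ∀ k < n, g (k + 1) * (1 - g k) = g k * (1 + g k)) (hgn : g n = 1) {p : ℝ} (hp : 0 < p)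
    (R : ℕ → (Fin n → Option Bool) → ℝ) (hR : ∀ k τ, 0 < R k τ)
    (hrec : ∀ k τ, Real.log (1 - R (k + 1) τ) = Real.log p - Real.log (R k (fun _ => none))
      - Kop (fun σ => Real.log (R k σ)) τ)
    (hlt : ∀ k τ, R (k + 1) τ < 1) :
    Real.log p ≤ (g 0)⁻¹ * Real.log (g 0)⁻¹ - ((g 0)⁻¹ + 1) * Real.log ((g 0)⁻¹ + 1) := by
  by_contra hcon
  push Not at hcon
  set m := (g 0)⁻¹ with hm
  have hg0 : 0 < g 0 := h0 0 (Nat.zero_le _)
  have hm0 : 0 < m := inv_pos.mpr hg0
  set C := m * Real.log m - (m + 1) * Real.log (m + 1) with hC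
  set L : ℕ → ℝ := fun k => ∑ τ, Wt g n τ * Real.log (1 - R (k + 1) τ) with hL
  have hne : ∀ k < n, 1 - g k ≠ 0 := fun k hk => by have := h1 k hk; linarith
  have hW : ∀ τ, 0 < Wt g n τ := Wt_pos g n (fun k hk => h0 k hk.le) h1
  have hsum : ∑ τ, Wt g n τ = m := by
    have h := sum_Wt g hg0.ne' n hne hs
    rw [hgn] at h
    rw [hm]; field_simp; linarith
  have hLneg : ∀ k, L k ≤ 0 := by
    intro k
    apply Finset.sum_nonpos
    intro τ _
    apply mul_nonpos_of_nonneg_of_nonpos (hW τ).le
    apply Real.log_nonpos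
    · linarith [hlt k τ]
    · linarith [hR (k + 1) τ]
  have hstep : ∀ k, L k + m * (Real.log p - C) ≤ L (k + 1) := by
    intro k
    have e1 : L (k + 1) = m * Real.log p - m * Real.log (R (k + 1) (fun _ => none)) -
        ∑ τ, Wt g n τ * Kop (fun σ => Real.log (R (k + 1) σ)) τ := by
      simp only [hL, hrec (k + 1), mul_sub, Finset.sum_sub_distrib, ← Finset.sum_mul, hsum]
    have e2 := eig g hg0.ne' n hne hs (fun σ => Real.log (R (k + 1) σ))
    have e3 : ∑ τ, Wt g n τ * Kop (fun σ => Real.log (R (k + 1) σ)) τ =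
        m * (∑ τ, Wt g n τ * Real.log (R (k + 1) τ)) - m * Real.log (R (k + 1) (fun _ => none)) := by
      rw [← mul_sub, ← e2, hm, ← mul_assoc, inv_mul_cancel₀ hg0.ne', one_mul]
    have e4 : m * (∑ τ, Wt g n τ * Real.log (R (k + 1) τ)) ≤ m * C - L k := by
      have : m * C - L k = ∑ τ, Wt g n τ * (C - Real.log (1 - R (k + 1) τ)) := by
        simp only [mul_sub, Finset.sum_sub_distrib, ← Finset.sum_mul, hsum, hL]
      rw [this, Finset.mul_sum]
      apply Finset.sum_le_sum
      intro τ _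
      have := log_ineq hm0 (hR (k + 1) τ) (hlt k τ)
      have h2 : m * (Wt g n τ * Real.log (R (k + 1) τ)) =
          Wt g n τ * (m * Real.log (R (k + 1) τ)) := by ring
      rw [h2]
      apply mul_le_mul_of_nonneg_left _ (hW τ).le
      linarith
    rw [e1, e3]
    linarith
  have hind : ∀ k : ℕ, L 0 + k * (m * (Real.log p - C)) ≤ L k := by
    intro k
    induction k with
    | zero => simp
    | succ k ih => have := hstep k; push_cast; linarith
  have hδ : 0 < m * (Real.log p - C) := mul_pos hm0 (by linarith)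
  obtain ⟨k, hk⟩ := exists_nat_gt ((-L 0) / (m * (Real.log p - C)))
  rw [div_lt_iff₀ hδ] at hk
  have := hind k
  have := hLneg k
  linarith

end

end Pool.Agent.H239R3.ZD
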