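import Mathlib
import Pool.Agent.H239R3.ZDf
import Pool.Agent.H239R3.ZDd

set_option autoImplicit false

/-!
The bound on the density of one colour in dimension `n + 1`, and the growth constants.
-/

namespace Pool.Agent.H239R3.ZD

noncomputable section

def Rf (p : ℝ) {d : ℕ} : ℕ → (Fin d → Option Bool) → ℝ
  | 0, _ => 1
  | k + 1, σ => 1 - p / ∏ ib ∈ Nc σ, Rf p k (child σ ib.1 ib.2)

lemma escd {n : ℕ} (S : Finset (Fin (n + 1) → ℤ)) (hne : S.Nonempty) :
    ∃ v, v ∉ S ∧ ∃ u ∈ S, adjd v u := by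
  obtain ⟨u, hu, hmax⟩ := S.exists_max_image (fun w => w 0) hne
  refine ⟨nb u 0 true, ?_, u, hu, 0, false, ?_⟩
  · intro hmem
    have := hmax _ hmem
    rw [nb_self] at this
    simp [sz] at this
  · funext k
    by_cases hk : k = 0
    · subst hk; rw [nb_self, nb_self]; simp [sz]
    · rw [nb_ne _ _ _ hk, nb_ne _ _ _ hk]

lemma Rf_ok {n : ℕ} {p : ℝ} {f : Finset (Fin (n + 1) → ℤ) → ℝ} (h : HC adjd p f) (hp : 0 < p)
    (k : ℕ) : (∀ σ : Fin (n + 1) → Option Bool, 0 < Rf p k σ) ∧ (∀ σ, Cld f σ k (Rf p k σ)) := by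
  induction k with
  | zero =>
    refine ⟨fun σ => one_pos, fun σ v S _ _ => ?_⟩
    show _ ≤ 1 * f S
    rw [one_mul]; exact h.anti _ _ (Finset.subset_insert _ _)
  | succ k ih =>
    have h1 : ∀ σ, Cld f σ (k + 1) (Rf p (k + 1) σ) := fun σ =>
      stepd h hp escd ih.1 ih.2 σ
    refine ⟨fun σ => ?_, h1⟩
    set S : Finset (Fin (n + 1) → ℤ) :=
      (Fintype.piFinset (fun _ => Finset.Icc (-((k : ℤ) + 1)) (k + 1))).erase 0 with hS
    have h2 := h1 σ 0 S (by rw [hS]; simp) (by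
      intro w hw1 hw2
      rw [hS, Finset.mem_erase]
      constructor
      · rintro rfl
        obtain ⟨i, _, hi, _⟩ := hw1
        exact hi rfl
      · rw [Fintype.mem_piFinset]
        intro a
        have := hw2 a
        rw [Finset.mem_Icc]
        push_cast at this
        rw [Pi.zero_apply, sub_zero, abs_le] at this
        exact this)
    have h3 := h.pos hp escd S
    have h4 := h.pos hp escd (insert 0 S)
    by_contra hneg
    push Not at hneg
    have := mul_nonpos_of_nonpos_of_nonneg hneg h3.le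
    linarith

lemma sum_Nc {d : ℕ} (F : (Fin d → Option Bool) → ℝ) (σ : Fin d → Option Bool) :
    ∑ ib ∈ Nc σ, F (child σ ib.1 ib.2) = Kop F σ := by
  unfold Nc Kop
  rw [Finset.sum_filter, Fintype.sum_prod_type]

theorem dens_d {n : ℕ} (g : ℕ → ℝ) (h0 : ∀ k ≤ n, 0 < g k) (h1 : ∀ k < n, g k < 1)
    (hs : ∀ k < n, g (k + 1) * (1 - g k) = g k * (1 + g k)) (hgn : g n = 1) {p : ℝ} (hp : 0 < p)
    {f : Finset (Fin (n + 1) → ℤ) → ℝ} (h : HC adjd p f) :
    Real.log p ≤ (g 0)⁻¹ * Real.log (g 0)⁻¹ - ((g 0)⁻¹ + 1) * Real.log ((g 0)⁻¹ + 1) := by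
  apply core g n h0 h1 hs hgn hp
    (fun k τ => Rf p k (Fin.cons (some true) τ : Fin (n + 1) → Option Bool))
  · intro k τ
    exact (Rf_ok h hp k).1 _
  · intro k τ
    have hpos : ∀ σ : Fin (n + 1) → Option Bool, 0 < ∏ ib ∈ Nc σ, Rf p k (child σ ib.1 ib.2) :=
      fun σ => Finset.prod_pos (fun ib _ => (Rf_ok h hp k).1 _)
    have e1 : ∀ σ : Fin (n + 1) → Option Bool,
        Real.log (1 - Rf p (k + 1) σ) = Real.log p - Kop (fun σ' => Real.log (Rf p k σ')) σ := by
      intro σ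
      have : 1 - Rf p (k + 1) σ = p / ∏ ib ∈ Nc σ, Rf p k (child σ ib.1 ib.2) := by
        simp only [Rf]; ring
      rw [this, Real.log_div hp.ne' (hpos σ).ne', Real.log_prod (fun ib _ =>
        ((Rf_ok h hp k).1 _).ne'), ← sum_Nc]
    show Real.log (1 - Rf p (k + 1) (Fin.cons (some true) τ : Fin (n + 1) → Option Bool)) = _
    rw [e1, Kop_cons]
    simp [okc]
    ring
  · intro k τ
    have hpos : 0 < ∏ ib ∈ Nc (Fin.cons (some true) τ : Fin (n + 1) → Option Bool),
        Rf p k (child (Fin.cons (some true) τ : Fin (n + 1) → Option Bool) ib.1 ib.2) :=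
      Finset.prod_pos (fun ib _ => (Rf_ok h hp k).1 _)
    have := div_pos hp hpos
    show Rf p (k + 1) (Fin.cons (some true) τ : Fin (n + 1) → Option Bool) < 1
    simp only [Rf]
    linarith

end

end Pool.Agent.H239R3.ZD
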